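import Pool.Agent.Y995.HG.Fin
import Mathlib.MeasureTheory.Measure.Lebesgue.Basic

/-!
From arcs to images of all sets of times.
-/

set_option autoImplicit false
set_option linter.unusedVariables false

namespace Pool.Agent.Y995.HG

open H974 Finset H342P H984P H984N Pool.Agent.Y995.FS MeasureTheory Filter Topology
open scoped ENNReal

theorem vol_real (m : OuterMeasure ℝ) {c : ℝ≥0∞} (hc : c ≠ ⊤)
    (h : ∀ (a b : ℝ) (s : Set ℝ), s ⊆ Set.Ioc a b → m s ≤ c * ENNReal.ofReal (b - a))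
    (s : Set ℝ) : m s ≤ c * volume s := by
  have h1 : m ≤ c • StieltjesFunction.id.outer := by
    unfold StieltjesFunction.outer
    rw [OuterMeasure.smul_ofFunction hc, OuterMeasure.le_ofFunction]
    intro s
    show _ ≤ c * StieltjesFunction.length _ s
    unfold StieltjesFunction.length
    rw [if_neg (by simp)]
    by_cases hc0 : c = 0
    · rw [hc0, zero_mul]
      have hs : s = ⋃ n : ℕ, s ∩ Set.Ioc (-(n:ℝ)) n := by
        ext x
        rw [Set.mem_iUnion]
        constructor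
        · intro hx
          obtain ⟨n, hn⟩ := exists_nat_gt |x|
          rw [abs_lt] at hn
          exact ⟨n, hx, hn.1, hn.2.le⟩
        · rintro ⟨_, hx, -⟩
          exact hx
      have h2 : m (⋃ n : ℕ, s ∩ Set.Ioc (-(n:ℝ)) n) = 0 := by
        rw [measure_iUnion_null_iff]
        intro n
        have := h (-(n:ℝ)) n (s ∩ Set.Ioc (-(n:ℝ)) n) Set.inter_subset_right
        rw [hc0, zero_mul] at this
        exact le_antisymm this zero_le
      rw [hs, h2]
    · rw [← ENNReal.inv_mul_le_iff hc0 hc]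
      refine le_iInf fun a => le_iInf fun b => le_iInf fun hs => ?_
      rw [ENNReal.inv_mul_le_iff hc0 hc]
      refine h a b s ?_
      refine fun x hx => hs ⟨hx, fun hb => ?_⟩
      have h2 : x ≤ x - 1 := hb (x - 1)
      linarith
  have h2 := h1 s
  have h3 : (volume : Measure ℝ) s = StieltjesFunction.id.outer s := by
    rw [Real.volume_eq_stieltjes_id, StieltjesFunction.measure]
    rfl
  rw [h3]
  exact h2

theorem up_set {f : C(unitInterval, ℂ)} {K : ℝ} (h : ∀ s t : unitInterval, s ≤ t →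
    Measure.mkMetric gm (f '' Set.Icc s t) ≤ ENNReal.ofReal (K * ((t : ℝ) - s)))
    (hK : 0 ≤ K) (S : Set unitInterval) :
    Measure.mkMetric gm (f '' S) ≤ ENNReal.ofReal K * volume S := by
  obtain ⟨m, hm⟩ : ∃ m : OuterMeasure ℝ, m = OuterMeasure.map (Subtype.val : unitInterval → ℝ)
    (OuterMeasure.comap f (Measure.mkMetric gm).toOuterMeasure) := ⟨_, rfl⟩
  have hmv : ∀ A : Set ℝ, m A = Measure.mkMetric gm (f '' (Subtype.val ⁻¹' A)) := by
    intro A
    rw [hm, OuterMeasure.map_apply, OuterMeasure.comap_apply]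
    rfl
  have h1 := vol_real m (c := ENNReal.ofReal K) ENNReal.ofReal_ne_top (fun a b s hs => by
    rw [hmv]
    rcases (Subtype.val ⁻¹' s : Set unitInterval).eq_empty_or_nonempty with h0 | ⟨u0, hu0⟩
    · rw [h0, Set.image_empty, measure_empty]
      exact zero_le
    · have hab := hs hu0
      obtain ⟨x, hx⟩ : ∃ x : unitInterval, x = ⟨max a 0, le_max_right _ _,
        max_le (hab.1.le.trans u0.2.2) zero_le_one⟩ := ⟨_, rfl⟩
      obtain ⟨y, hy⟩ : ∃ y : unitInterval, y = ⟨min b 1, le_min (u0.2.1.trans hab.2) zero_le_one,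
        min_le_right _ _⟩ := ⟨_, rfl⟩
      have hxv : (x : ℝ) = max a 0 := by rw [hx]
      have hyv : (y : ℝ) = min b 1 := by rw [hy]
      have hsub : (Subtype.val ⁻¹' s : Set unitInterval) ⊆ Set.Icc x y := by
        intro u hu
        have h2 := hs hu
        constructor
        · show (x : ℝ) ≤ u
          rw [hxv]
          exact max_le h2.1.le u.2.1
        · show (u : ℝ) ≤ y
          rw [hyv]
          exact le_min h2.2 u.2.2
      have hxy : x ≤ y := (hsub hu0).1.trans (hsub hu0).2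
      refine (measure_mono (Set.image_mono hsub)).trans ((h x y hxy).trans ?_)
      rw [← ENNReal.ofReal_mul hK]
      refine ENNReal.ofReal_le_ofReal (mul_le_mul_of_nonneg_left ?_ hK)
      rw [hxv, hyv]
      have a1 := le_max_left a 0
      have a2 := min_le_left b 1
      linarith) (Subtype.val '' S)
  rw [hmv, Set.preimage_image_eq _ Subtype.val_injective] at h1
  refine h1.trans (le_of_eq ?_)
  congr 1
  rw [Measure.Subtype.volume_def, comap_subtype_coe_apply measurableSet_Icc]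

/-- the mass distribution principle for all sets of times -/
theorem low_set {l : ℝ} (hl : 0 < l) {p : X} (hp : 0 < p.2)
    (h : ∀ᵐ t : unitInterval, ∀ᶠ j : ℕ in atTop, p.2 *
      (volume {u : unitInterval | dist (p.1 u) (p.1 t) ≤ ((1:ℝ)/2) ^ j}).toReal < 2 * av l j)
    (S : Set unitInterval) :
    ENNReal.ofReal (1 / Cl l * p.2) * volume S ≤ Measure.mkMetric gm (p.1 '' S) := by
  obtain ⟨G, hG⟩ : ∃ G : ℕ → Set unitInterval, G = fun j0 => {t | ∀ j : ℕ, j0 ≤ j → p.2 *
      (volume {u : unitInterval | dist (p.1 u) (p.1 t) ≤ ((1:ℝ)/2) ^ j}).toReal < 2 * av l j} :=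
    ⟨_, rfl⟩
  have hmono : Monotone (fun j0 => G j0 ∩ S) := by
    intro a b hab
    refine Set.inter_subset_inter_left _ ?_
    intro u hu
    rw [hG] at hu ⊢
    exact fun j hj => hu j (hab.trans hj)
  have hC := Cl_pos hl
  have key : ∀ j0 : ℕ, ENNReal.ofReal p.2 * volume (G j0 ∩ S) ≤
      ENNReal.ofReal (Cl l) * Measure.mkMetric gm (p.1 '' S) := by
    intro j1
    obtain ⟨j0, hj0⟩ : ∃ j0, j0 = max j1 3 := ⟨_, rfl⟩
    have hj3 : 3 ≤ j0 := by omega
    have h1 : volume (G j1 ∩ S) ≤ volume (G j0 ∩ S) :=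
      measure_mono (hmono (by omega : j1 ≤ j0))
    refine (mul_le_mul_right h1 _).trans ?_
    rw [← ENNReal.inv_mul_le_iff (by rw [Ne, ENNReal.ofReal_eq_zero]; linarith)
      ENNReal.ofReal_ne_top, Measure.mkMetric_apply]
    refine le_trans ?_ (le_iSup₂ (ENNReal.ofReal (((1:ℝ)/2) ^ j0))
      (ENNReal.ofReal_pos.mpr (by positivity)))
    refine le_iInf fun E => le_iInf fun hE => le_iInf fun hdiam => ?_
    rw [ENNReal.inv_mul_le_iff (by rw [Ne, ENNReal.ofReal_eq_zero]; linarith)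
      ENNReal.ofReal_ne_top, ← ENNReal.tsum_mul_left]
    have hsub : G j0 ∩ S ⊆ ⋃ n, (p.1 ⁻¹' E n ∩ G j0) := by
      rintro u ⟨hu1, hu2⟩
      have h2 := hE ⟨u, hu2, rfl⟩
      rw [Set.mem_iUnion] at h2
      obtain ⟨n, hn⟩ := h2
      rw [Set.mem_iUnion]
      exact ⟨n, hn, hu1⟩
    refine (mul_le_mul_right ((measure_mono hsub).trans (measure_iUnion_le _)) _).trans ?_
    rw [← ENNReal.tsum_mul_left]
    refine ENNReal.tsum_le_tsum fun n => ?_
    refine one_set hl hp hj3 (fun t ht => ?_) (hdiam n)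
    rw [hG] at ht
    exact ht
  have hU : volume (⋃ j0, (G j0 ∩ S)) = volume S := by
    refine measure_congr ?_
    filter_upwards [h] with u hu
    rw [eventually_atTop] at hu
    obtain ⟨j0, hj0⟩ := hu
    have : u ∈ (⋃ j0, (G j0 ∩ S)) ↔ u ∈ S := by
      rw [Set.mem_iUnion]
      constructor
      · rintro ⟨_, h1⟩
        exact h1.2
      · intro h1
        refine ⟨j0, ?_, h1⟩
        rw [hG]
        exact hj0
    exact propext this
  have h1 : ENNReal.ofReal p.2 * volume S ≤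
      ENNReal.ofReal (Cl l) * Measure.mkMetric gm (p.1 '' S) := by
    rw [← hU, hmono.measure_iUnion, ENNReal.mul_iSup]
    exact iSup_le key
  rw [← ENNReal.inv_mul_le_iff (by rw [Ne, ENNReal.ofReal_eq_zero]; linarith)
      ENNReal.ofReal_ne_top] at h1
  refine le_trans (le_of_eq ?_) h1
  rw [← mul_assoc, ← ENNReal.ofReal_inv_of_pos hC, ← ENNReal.ofReal_mul (by positivity), one_div]

/-- The Hausdorff measure with the gauge `r ^ (7/4) (log log (1/r)) ^ (1/8)` of the image of every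
set of times is comparable with its natural measure, with universal constants. -/
theorem gauge_sets : ∃ c C : ℝ, 0 < c ∧ 0 < C ∧ ∀ R : Rect,
    (∀ δ : ℕ → ℝ, (∀ i, 0 < δ i) → Tendsto δ atTop (𝓝 0) →
      ∃ φ : ℕ → ℕ, StrictMono φ ∧ ∃ μ : ProbabilityMeasure X,
        Tendsto (fun i => R.law (δ (φ i))) atTop (𝓝 μ)) ∧
    ∀ δ : ℕ → ℝ, (∀ i, 0 < δ i) → Tendsto δ atTop (𝓝 0) → ∀ μ : ProbabilityMeasure X,
      Tendsto (fun i => R.law (δ i)) atTop (𝓝 μ) →
      ∀ᵐ p ∂(μ : Measure X), 0 < p.2 ∧ ∀ S : Set unitInterval,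
        ENNReal.ofReal (c * p.2) * volume S ≤ Measure.mkMetric gm (p.1 '' S) ∧
        Measure.mkMetric gm (p.1 '' S) ≤ ENNReal.ofReal (C * p.2) * volume S := by
  obtain ⟨⟨c, hc, hL⟩, ⟨C, hC, hU⟩, C2, hC2, hA⟩ := Pool.Agent.Y985.ME.inputs
  obtain ⟨Cu, hCu, hup⟩ := up_fin hc hC hL hU hC2 hA
  obtain ⟨l, hl, hlow⟩ := occ_lat hC hU
  refine ⟨1 / Cl l, Cu, by have := Cl_pos hl; positivity, hCu, fun R => ?_⟩
  obtain ⟨-, h2, h3⟩ := final_of hc hC hL hU hC2 hA R
  obtain ⟨A, w0, hA1, hw0, hlat⟩ := hlow R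
  refine ⟨h2, fun δ hδ hlim μ hμ => ?_⟩
  filter_upwards [h3 δ hδ hlim μ hμ, hup R δ hδ hlim μ hμ, go_ae hl hA1 hw0 hlat hδ hlim hμ]
    with p g1 g2 g3
  exact ⟨g1.1, fun S => ⟨low_set hl g1.1 (times_ae hl g1.1 g3) S,
    up_set g2 (by have := g1.1; positivity) S⟩⟩

end Pool.Agent.Y995.HG
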