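import Pool.Agent.Y995.HG.Many
import Pool.Agent.Y995.FS.SlowTr
import Pool.Agent.Y994.MD.ScaleB

/-!
Probability that all long pieces of the path contain many slow places.
-/

set_option autoImplicit false

namespace Pool.Agent.Y995.HG

open H974 Finset H342P H984P H984N TH992.L Y994.MC Y994.MD Pool.Agent.Y995.FS

/-- The number of trials. -/
theorem trials {C η : ℝ} (hC : 0 < C) (hη : 0 < η) : ∃ Γ : ℝ, 1 ≤ Γ ∧ ∀ x : ℝ, 0 ≤ x →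
    ∃ K : ℕ, 2 ≤ K ∧ (K : ℝ) ≤ 3 * Γ * Real.exp (2 * x) ∧
      C * (1710 * (K : ℝ)) ^ 2 * (1 - Real.exp (-x)) ^ (K - 1) ≤ η := by
  obtain ⟨Γ, hΓ⟩ : ∃ Γ : ℝ, Γ = max 1 (C * 5130 ^ 2 * 720 / η) := ⟨_, rfl⟩
  have hΓ1 : 1 ≤ Γ := by rw [hΓ]; exact le_max_left _ _
  have hΓ2 : C * 5130 ^ 2 * 720 ≤ η * Γ := by
    have h1 : C * 5130 ^ 2 * 720 / η ≤ Γ := by rw [hΓ]; exact le_max_right _ _
    rw [div_le_iff₀ hη] at h1
    linarith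
  have hΓ0 : 0 < Γ := by linarith
  refine ⟨Γ, hΓ1, fun x hx => ?_⟩
  obtain ⟨y, hy⟩ : ∃ y : ℝ, y = Real.exp x := ⟨_, rfl⟩
  have hy1 : 1 ≤ y := by rw [hy]; exact Real.one_le_exp hx
  have hy0 : 0 < y := by linarith
  have ey : Real.exp (2 * x) = y ^ 2 := by rw [hy, ← Real.exp_nat_mul]; congr 1
  have ey2 : Real.exp (-x) = y⁻¹ := by rw [hy, Real.exp_neg]
  have hyi : y⁻¹ ≤ 1 := inv_le_one_of_one_le₀ hy1
  have hyi0 : 0 < y⁻¹ := inv_pos.mpr hy0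
  obtain ⟨K, hK⟩ : ∃ K : ℕ, K = ⌈Γ * y ^ 2⌉₊ + 1 := ⟨_, rfl⟩
  have hΓy : 1 ≤ Γ * y ^ 2 := by
    have : 1 ≤ y ^ 2 := one_le_pow₀ hy1
    nlinarith
  have hK0 : 1 ≤ ⌈Γ * y ^ 2⌉₊ := Nat.one_le_ceil_iff.mpr (by linarith)
  have hK1 : Γ * y ^ 2 ≤ ((K - 1 : ℕ) : ℝ) := by
    rw [hK, Nat.add_sub_cancel]; exact Nat.le_ceil _
  have hK2 : (K : ℝ) ≤ 3 * (Γ * y ^ 2) := by
    have h1 : ((⌈Γ * y ^ 2⌉₊ : ℕ) : ℝ) < Γ * y ^ 2 + 1 := Nat.ceil_lt_add_one (by linarith)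
    rw [hK]
    push_cast
    linarith
  refine ⟨K, by omega, by rw [ey]; linarith, ?_⟩
  rw [ey2]
  have h1 : (1 - y⁻¹) ^ (K - 1) ≤ Real.exp (-(Γ * y)) := by
    calc (1 - y⁻¹) ^ (K - 1) ≤ (Real.exp (-y⁻¹)) ^ (K - 1) := by
          refine pow_le_pow_left₀ (by linarith) ?_ _
          have := Real.add_one_le_exp (-y⁻¹)
          linarith
      _ = Real.exp (((K - 1 : ℕ) : ℝ) * (-y⁻¹)) := by rw [← Real.exp_nat_mul]
      _ ≤ Real.exp (-(Γ * y)) := by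
          refine Real.exp_le_exp.mpr ?_
          have h2 : Γ * y ^ 2 * y⁻¹ ≤ ((K - 1 : ℕ) : ℝ) * y⁻¹ :=
            mul_le_mul_of_nonneg_right hK1 hyi0.le
          have h3 : Γ * y ^ 2 * y⁻¹ = Γ * y := by field_simp
          linarith
  have h2 : Real.exp (-(Γ * y)) ≤ 720 / (Γ * y) ^ 6 := by
    have h3 := Real.pow_div_factorial_le_exp (Γ * y) (by positivity) 6
    have h4 : ((Nat.factorial 6 : ℕ) : ℝ) = 720 := by norm_num [Nat.factorial]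
    rw [h4] at h3
    rw [Real.exp_neg, inv_le_comm₀ (Real.exp_pos _) (by positivity), inv_div]
    exact h3
  have h3 : (1710 * (K : ℝ)) ^ 2 ≤ 5130 ^ 2 * Γ ^ 2 * y ^ 4 := by
    have h4 : 1710 * (K : ℝ) ≤ 5130 * (Γ * y ^ 2) := by linarith
    have h5 := pow_le_pow_left₀ (by positivity) h4 2
    calc (1710 * (K : ℝ)) ^ 2 ≤ (5130 * (Γ * y ^ 2)) ^ 2 := h5
      _ = _ := by ring
  calc C * (1710 * (K : ℝ)) ^ 2 * (1 - y⁻¹) ^ (K - 1)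
      ≤ C * (5130 ^ 2 * Γ ^ 2 * y ^ 4) * (720 / (Γ * y) ^ 6) := by
        refine mul_le_mul (mul_le_mul_of_nonneg_left h3 hC.le) (h1.trans h2) ?_ (by positivity)
        exact pow_nonneg (by linarith) _
    _ = C * 5130 ^ 2 * 720 / (Γ ^ 4 * y ^ 2) := by field_simp
    _ ≤ η := by
        rw [div_le_iff₀ (by positivity)]
        refine hΓ2.trans ?_
        refine mul_le_mul_of_nonneg_left ?_ hη.le
        have h5 : Γ ≤ Γ ^ 4 := by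
          calc Γ = Γ ^ 1 := (pow_one _).symm
            _ ≤ Γ ^ 4 := pow_le_pow_right₀ hΓ1 (by norm_num)
        have h6 : 1 ≤ y ^ 2 := one_le_pow₀ hy1
        have h7 : 0 < Γ ^ 4 := by positivity
        nlinarith

/-- A long piece in the bulk with few slow places. -/
def Few (D : Dm) (L : ℤ) (W m N : ℕ) (K1 M : ℝ) (F : Finset Edg) : Prop := by
  classical exact
  ∃ k l : ℕ, k ≤ l ∧ l ≤ D.len F ∧ (∀ t, k ≤ t → t ≤ l → 4 * L ≤ D.bd (D.walk F t).1) ∧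
    (W : ℝ) ^ (7/4 : ℝ) * (K1 * (98 * N)) < ((l - k + 1 : ℕ) : ℝ) ∧
    ¬ ∃ Z : Finset Vtx, N ≤ Z.card ∧ (∀ z ∈ Z, ∀ z' ∈ Z, z ≠ z' → 4 * (W : ℤ) ≤ sd z z') ∧
      ∀ z ∈ Z, M ≤ (((Finset.Icc k l).filter (fun t => sd z (D.walk F t).1 ≤ 5 * m)).card : ℝ)

theorem many_pr {c C : ℝ} (hc : 0 < c) (hC : 0 < C) (hL : LowA c (1/4)) (hU : TwoUp C (1/4)) :
    ∃ K3 A1 K1 : ℝ, 1 ≤ K3 ∧ 1 ≤ A1 ∧ 0 < K1 ∧ ∀ m b kk : ℕ, 1 ≤ b → b * kk ≤ m →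
      m ≤ 2 * b * kk → 20 ≤ kk → 5 ≤ m → ∃ (W : ℕ) (L : ℤ), (W : ℤ) = 2 * L ∧ 60 * (m : ℤ) ≤ L ∧
        (W : ℝ) ≤ A1 * (m * Real.exp (2 * (K3 * (kk:ℝ) ^ 2))) ∧
        ∀ D : Dm, D.Ok → ∀ N : ℕ, 36 ≤ N →
          P D.edges (Few D L W m N K1 (2 * c / 5 * (kk:ℝ) ^ (1/4 : ℝ) * (m : ℝ) ^ (7/4 : ℝ))) ≤
            ((SB D W).card : ℝ) * (20 * (1/2) ^ N) := by
  classical
  obtain ⟨K3, hK3, htr⟩ := slow_tr hc hC hL hU
  obtain ⟨C1, hC1, hlow⟩ := lowG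
  obtain ⟨Γ, hΓ, htri⟩ := trials (η := (1/648) ^ 196) hC1 (by positivity)
  obtain ⟨K1, hK1, hheavy⟩ := heavy_pr hC hU
  refine ⟨K3, 2700 * Γ, K1, hK3, by linarith, hK1, ?_⟩
  intro m b kk hb hbm hm hkk hm5
  obtain ⟨Kt, hKt2, hKt, hbd⟩ := htri (K3 * (kk:ℝ) ^ 2) (by positivity)
  obtain ⟨R, hR⟩ : ∃ R : ℤ, R = 121 * m * Kt + m + 2 := ⟨_, rfl⟩
  obtain ⟨L, hLd⟩ : ∃ L : ℤ, L = 3 * R + 60 * m := ⟨_, rfl⟩
  have hm5z : (5 : ℤ) ≤ m := by exact_mod_cast hm5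
  have hmK : (0 : ℤ) ≤ 121 * m * Kt := by positivity
  have hL0 : 0 < L := by omega
  obtain ⟨W, hWd⟩ : ∃ W : ℕ, W = (2 * L).toNat := ⟨_, rfl⟩
  have hW : (W : ℤ) = 2 * L := by omega
  have hW1 : 1 ≤ W := by omega
  obtain ⟨n, hnd⟩ : ∃ n : ℕ, n = (4 * L).toNat := ⟨_, rfl⟩
  have hn : (n : ℤ) = 4 * L := by omega
  have hm0 : (0 : ℝ) < m := by
    have : 0 < m := by omega
    exact_mod_cast this
  have hm5r : (5 : ℝ) ≤ m := by exact_mod_cast hm5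
  have hKt2r : (2 : ℝ) ≤ Kt := by exact_mod_cast hKt2
  have hmKt : (m : ℝ) * 2 ≤ m * Kt := mul_le_mul_of_nonneg_left hKt2r hm0.le
  have hLr : (L : ℝ) = 363 * (m * Kt) + 63 * m + 6 := by
    rw [hLd, hR]; push_cast; ring
  have hWr : (W : ℝ) = 2 * (L : ℝ) := by exact_mod_cast hW
  have hnr : (n : ℝ) = 4 * (L : ℝ) := by exact_mod_cast hn
  obtain ⟨M, hM⟩ : ∃ M : ℝ, M = 2 * c / 5 * (kk:ℝ) ^ (1/4 : ℝ) * (m : ℝ) ^ (7/4 : ℝ) := ⟨_, rfl⟩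
  have hkk0 : (0 : ℝ) < kk := by
    have : 0 < kk := by omega
    exact_mod_cast this
  have hM0 : 0 < M := by rw [hM]; positivity
  rw [← hM]
  have hg := gS_good (5 * m) M
  have hlw := hlow (Qs m M) (gS (5 * m) M) hg n m Kt (Real.exp (-(K3 * (kk:ℝ) ^ 2))) R hm5
    (by omega) (Real.exp_le_one_iff.mpr (by
      have : 0 ≤ K3 * (kk:ℝ) ^ 2 := by positivity
      linarith)) Qs_loc (Qs_det (by omega))
    (fun b' c' A y0 => by rw [hM]; exact htr m b kk hb hbm hm hkk _ A y0) (by rw [hR])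
  have hsmall : C1 * ((n:ℝ) / m + 1) ^ 2 * (1 - Real.exp (-(K3 * (kk:ℝ) ^ 2))) ^ (Kt - 1) ≤
      (1/648) ^ 196 := by
    refine le_trans ?_ hbd
    have h1 : (n:ℝ) / m + 1 ≤ 1710 * Kt := by
      have h2 : (n:ℝ) / m ≤ 1452 * Kt + 257 := by
        rw [div_le_iff₀ hm0, hnr, hLr]
        nlinarith
      linarith
    have h0 : 0 ≤ (n:ℝ) / m + 1 := by positivity
    have h2 : ((n:ℝ) / m + 1) ^ 2 ≤ (1710 * (Kt : ℝ)) ^ 2 := pow_le_pow_left₀ h0 h1 2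
    have h3 : Real.exp (-(K3 * (kk:ℝ) ^ 2)) ≤ 1 := by
      rw [Real.exp_le_one_iff]
      have : 0 ≤ K3 * (kk:ℝ) ^ 2 := by positivity
      linarith
    exact mul_le_mul_of_nonneg_right (mul_le_mul_of_nonneg_left h2 hC1.le)
      (pow_nonneg (by linarith) _)
  refine ⟨W, L, hW, by omega, ?_, ?_⟩
  · rw [hWr, hLr]
    have h1 : (m : ℝ) * Kt ≤ m * (3 * Γ * Real.exp (2 * (K3 * (kk:ℝ) ^ 2))) :=
      mul_le_mul_of_nonneg_left hKt hm0.le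
    calc 2 * (363 * ((m : ℝ) * Kt) + 63 * m + 6) ≤ 900 * (m * Kt) := by nlinarith
      _ ≤ 900 * (m * (3 * Γ * Real.exp (2 * (K3 * (kk:ℝ) ^ 2)))) :=
          mul_le_mul_of_nonneg_left h1 (by norm_num)
      _ = _ := by ring
  · intro D hD N hN
    have hbf : BF D W 0 (BdG (gS (5 * m) M) R L D) :=
      bdG_BF hg hW hL0 hn hLd (hlw.trans hsmall)
    obtain ⟨Nm, hNm⟩ := len_bdd D
    have hWr0 : (0:ℝ) < (W:ℝ) := by exact_mod_cast hW1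
    have hWp : (0:ℝ) < (W:ℝ) ^ (7/4 : ℝ) := Real.rpow_pos_of_pos hWr0 _
    have hdet : ∀ F ⊆ D.edges, Few D L W m N K1 M F → ∃ q ∈ SB D W,
        Heavy D W K1 N Nm q F ∨ HolesB D W (BdG (gS (5 * m) M) R L D) N Nm q F := by
      intro F hF hfew
      by_contra hcon
      push Not at hcon
      obtain ⟨k, l, hkl, hl, hbulk, hlong, hno⟩ := hfew
      obtain ⟨hn1, hn2⟩ := hcon _ (bk_SB hD hF hW1 k)
      have hNm' := hNm F hF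
      have h1 := up_det hD hF hW1 (K := K1) (N0 := N) hNm' hkl hl hn1
      have h2 : 98 * N < max (vb D W F k l).card N := by
        have h3 := lt_of_lt_of_le hlong h1
        have h4 := lt_of_mul_lt_mul_left h3 hWp.le
        have h5 := lt_of_mul_lt_mul_left h4 hK1.le
        exact_mod_cast h5
      have h3 : 98 * N < (vb D W F k l).card := by omega
      obtain ⟨Z, z1, z2, z3⟩ := many_det hD hF hW (by omega : 1 ≤ R) (by omega) hNm' hkl hl hbulk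
        hn2 (by omega) (by omega) hM0
      exact hno ⟨Z, by omega, z2, z3⟩
    refine (Pr_mono two_ok hdet).trans ?_
    refine (Pr_exists_le two_ok _ _ _).trans ?_
    refine (sum_le_card_nsmul _ _ (20 * (1/2) ^ N) fun q _ => ?_).trans ?_
    · refine (Pr_or_le two_ok _ _ _).trans ?_
      have h1 := hheavy D W hW1 N Nm q
      have h2 := holesB_pr hW1 hbf N Nm q
      unfold P at h1
      linarith
    · rw [nsmul_eq_mul]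

end Pool.Agent.Y995.HG
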