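import Pool.Agent.Y995.HG.UpS

/-!
The `7/4`-dimensional Hausdorff measure is zero.
-/

set_option autoImplicit false
set_option linter.unusedVariables false

namespace Pool.Agent.Y995.HG

open MeasureTheory Filter Topology
open scoped ENNReal

theorem gm_big {ε : ℝ} (hε : 0 < ε) :
    (fun r : ℝ≥0∞ => r ^ (7/4 : ℝ)) ≤ᶠ[𝓝[≥] 0] (ENNReal.ofReal ε • gm) := by
  -- the scale at which the iterated logarithm is large
  obtain ⟨M, hM⟩ : ∃ M : ℝ, M = (1 / ε) ^ (8 : ℕ) + 1 := ⟨_, rfl⟩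
  have hM1 : 1 ≤ M := by rw [hM]; have : 0 ≤ (1 / ε) ^ (8 : ℕ) := by positivity
                         linarith
  obtain ⟨r0, hr0⟩ : ∃ r0 : ℝ, r0 = Real.exp (-Real.exp M) := ⟨_, rfl⟩
  have hr00 : 0 < r0 := by rw [hr0]; exact Real.exp_pos _
  have h1 : ∀ᶠ r : ℝ≥0∞ in 𝓝[≥] 0, r < ENNReal.ofReal r0 := by
    refine mem_nhdsWithin_of_mem_nhds ?_
    exact Iio_mem_nhds (ENNReal.ofReal_pos.mpr hr00)
  filter_upwards [h1] with r hr
  have hfin : r ≠ ⊤ := (hr.trans_le le_top).ne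
  obtain ⟨x, hx⟩ : ∃ x : ℝ, x = r.toReal := ⟨_, rfl⟩
  have hx0 : 0 ≤ x := by rw [hx]; exact ENNReal.toReal_nonneg
  have hxr : x < r0 := by
    rw [hx]
    have := (ENNReal.toReal_lt_toReal hfin ENNReal.ofReal_ne_top).2 hr
    rwa [ENNReal.toReal_ofReal hr00.le] at this
  have e1 : r ^ (7/4 : ℝ) = ENNReal.ofReal (x ^ (7/4 : ℝ)) := by
    rw [← ENNReal.ofReal_rpow_of_nonneg hx0 (by norm_num), hx, ENNReal.ofReal_toReal hfin]
  show r ^ (7/4 : ℝ) ≤ ENNReal.ofReal ε * gm r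
  unfold gm
  rw [e1, ← hx, ← ENNReal.ofReal_mul hε.le]
  refine ENNReal.ofReal_le_ofReal ?_
  unfold ga
  rcases hx0.eq_or_lt with h0 | h0
  · rw [← h0, Real.zero_rpow (by norm_num), zero_mul, mul_zero]
  have h2 : Real.exp M ≤ Real.log (1 / x) := by
    rw [one_div, Real.log_inv, le_neg]
    have := Real.log_le_log h0 hxr.le
    rwa [hr0, Real.log_exp] at this
  have h3 : M ≤ Real.log (Real.log (1 / x)) := by
    have := Real.log_le_log (Real.exp_pos _) h2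
    rwa [Real.log_exp] at this
  have h4 : 1 / ε ≤ Real.log (Real.log (1 / x)) ^ (1/8 : ℝ) := by
    have h5 : ((1 / ε) ^ (8 : ℕ)) ^ (1/8 : ℝ) = 1 / ε := by
      rw [← Real.rpow_natCast, ← Real.rpow_mul (by positivity)]
      norm_num
    rw [← h5]
    exact Real.rpow_le_rpow (by positivity) (by linarith) (by norm_num)
  have h5 : 0 ≤ x ^ (7/4 : ℝ) := by positivity
  calc x ^ (7/4 : ℝ) = ε * (x ^ (7/4 : ℝ) * (1 / ε)) := by field_simp
    _ ≤ ε * (x ^ (7/4 : ℝ) * Real.log (Real.log (1 / x)) ^ (1/8 : ℝ)) :=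
      mul_le_mul_of_nonneg_left (mul_le_mul_of_nonneg_left h4 h5) hε.le

theorem haus_zero {E : Set ℂ} (h : Measure.mkMetric gm E ≠ ⊤) :
    Measure.hausdorffMeasure (7/4) E = 0 := by
  have h1 : ∀ n : ℕ, Measure.hausdorffMeasure (7/4) E ≤
      ENNReal.ofReal (1 / ((n : ℝ) + 1)) * Measure.mkMetric gm E := by
    intro n
    have hn : (0 : ℝ) < 1 / ((n : ℝ) + 1) := by positivity
    have h2 := Measure.mkMetric_mono_smul (X := ℂ) (c := ENNReal.ofReal (1 / ((n : ℝ) + 1)))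
      ENNReal.ofReal_ne_top (by rw [Ne, ENNReal.ofReal_eq_zero]; linarith) (gm_big hn)
    exact h2 E
  have h2 : Tendsto (fun n : ℕ => ENNReal.ofReal (1 / ((n : ℝ) + 1)) * Measure.mkMetric gm E)
      atTop (𝓝 (0 * Measure.mkMetric gm E)) := by
    refine ENNReal.Tendsto.mul_const ?_ (Or.inr h)
    have h3 := ENNReal.tendsto_ofReal tendsto_one_div_add_atTop_nhds_zero_nat
    rwa [ENNReal.ofReal_zero] at h3
  rw [zero_mul] at h2
  exact le_antisymm (ge_of_tendsto' h2 h1) zero_le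

end Pool.Agent.Y995.HG
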