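import Pool.Agent.Y995.HG.Gauge

/-!
Asymptotic facts about the scales.
-/

set_option autoImplicit false
set_option linter.unusedVariables false

namespace Pool.Agent.Y995.HG

open Filter Topology

theorem ev_h {K3 A0 T : ℝ} (hK : 1 ≤ K3) (hA : 0 < A0) (hT : 0 < T) : ∀ᶠ i : ℕ in atTop,
    A0 * ((ww i * Real.exp (2 * (K3 * ((kq K3 i : ℕ) : ℝ) ^ 2))) ^ (7/4 : ℝ) * NN i) <
      T * (1/2) ^ lv i := by
  obtain ⟨i1, hi1⟩ := exists_nat_gt ((A0 / T) ^ 4)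
  filter_upwards [eventually_ge_atTop (max i1 1)] with i hi
  have hi2 : 1 ≤ i := (le_max_right _ _).trans hi
  have hi3 : (A0 / T) ^ 4 < i := by
    have : (i1 : ℝ) ≤ i := by exact_mod_cast (le_max_left _ _).trans hi
    linarith
  have hi0 : (0 : ℝ) < i := by exact_mod_cast hi2
  have hs : (0 : ℝ) < ((Nat.sqrt i : ℕ) : ℝ) + 1 := by positivity
  have h1 := ex_le hK hi2
  have h2 := NN_le i
  have h3 := sq_ge i
  have e1 : (ww i * Real.exp (2 * (K3 * ((kq K3 i : ℕ) : ℝ) ^ 2))) ^ (7/4 : ℝ) =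
      (1/2) ^ (7 * i ^ 2) * Real.exp (2 * (K3 * ((kq K3 i : ℕ) : ℝ) ^ 2)) ^ (7/4 : ℝ) := by
    rw [Real.mul_rpow (ww_pos i).le (Real.exp_nonneg _), ww_pow]
  have h4 : (NN i : ℝ) * Real.sqrt i ≤ 2 ^ i :=
    (mul_le_mul_of_nonneg_left h3 (Nat.cast_nonneg _)).trans h2
  -- A0 < T i^(1/4)
  obtain ⟨y, hy⟩ : ∃ y : ℝ, y = (i : ℝ) ^ (1/4 : ℝ) := ⟨_, rfl⟩
  have hy0 : 0 < y := by rw [hy]; positivity
  have hy4 : y ^ 4 = i := by
    rw [hy, ← Real.rpow_natCast, ← Real.rpow_mul hi0.le]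
    norm_num
  have hy2 : Real.sqrt i = y ^ 2 := by
    rw [← hy4, show y ^ 4 = (y ^ 2) ^ 2 by ring, Real.sqrt_sq (by positivity)]
  have h5 : A0 < T * y := by
    have h6 : A0 / T < y := by
      rw [← hy4] at hi3
      exact lt_of_pow_lt_pow_left₀ 4 hy0.le hi3
    rw [div_lt_iff₀ hT] at h6
    linarith
  rw [e1, lv_pow]
  have hp : (0:ℝ) < (1/2) ^ (7 * i ^ 2) := by positivity
  have h7 : (NN i : ℝ) * y ^ 2 ≤ 2 ^ i := by rw [← hy2]; exact h4
  have hN0 : 0 < (NN i : ℝ) := by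
    have h8 := NN_ge i
    have h9 : (0:ℝ) < 2 ^ i := by positivity
    by_contra hcon
    push Not at hcon
    have : (NN i : ℝ) = 0 := le_antisymm hcon (Nat.cast_nonneg _)
    rw [this] at h8
    linarith
  rw [← hy] at h1
  calc A0 * ((1/2) ^ (7 * i ^ 2) * Real.exp (2 * (K3 * ((kq K3 i : ℕ) : ℝ) ^ 2)) ^ (7/4 : ℝ) *
        NN i) ≤ A0 * ((1/2) ^ (7 * i ^ 2) * y * NN i) := by
        refine mul_le_mul_of_nonneg_left ?_ hA.le
        refine mul_le_mul_of_nonneg_right ?_ hN0.le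
        exact mul_le_mul_of_nonneg_left h1 hp.le
    _ < (T * y) * ((1/2) ^ (7 * i ^ 2) * y * NN i) :=
        mul_lt_mul_of_pos_right h5 (by positivity)
    _ = T * ((1/2) ^ (7 * i ^ 2) * (NN i * y ^ 2)) := by ring
    _ ≤ T * ((1/2) ^ (7 * i ^ 2) * 2 ^ i) :=
        mul_le_mul_of_nonneg_left (mul_le_mul_of_nonneg_left h7 hp.le) hT.le

theorem half_tend : Tendsto (fun i : ℕ => ((1:ℝ)/2) ^ i) atTop (𝓝 0) :=
  tendsto_pow_atTop_nhds_zero_of_lt_one (by norm_num) (by norm_num)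

theorem ww_le {i : ℕ} (hi : 1 ≤ i) : ww i ≤ (1/2) ^ (2 * i) := by
  unfold ww
  exact pow_le_pow_of_le_one (by norm_num) (by norm_num) (by nlinarith)

theorem i_half (i : ℕ) : (i : ℝ) * (1/2) ^ i ≤ 1 := by
  have h1 : (i : ℝ) ≤ 2 ^ i := by
    have : i < 2 ^ i := Nat.lt_two_pow_self
    exact_mod_cast this.le
  calc (i : ℝ) * (1/2) ^ i ≤ 2 ^ i * (1/2) ^ i := mul_le_mul_of_nonneg_right h1 (by positivity)
    _ = 1 := by rw [← mul_pow]; norm_num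

theorem ww_tend : Tendsto ww atTop (𝓝 0) := by
  refine squeeze_zero' (Eventually.of_forall fun i => (ww_pos i).le) ?_ half_tend
  filter_upwards [eventually_ge_atTop 1] with i hi
  exact (ww_le hi).trans (pow_le_pow_of_le_one (by norm_num) (by norm_num) (by omega))

theorem ev_rho {K3 A0 ρ : ℝ} (hK : 1 ≤ K3) (hA : 0 < A0) (hρ : 0 < ρ) : ∀ᶠ i : ℕ in atTop,
    A0 * (ww i * Real.exp (2 * (K3 * ((kq K3 i : ℕ) : ℝ) ^ 2))) ≤ ρ := by
  have h1 : Tendsto (fun i : ℕ => A0 * ((1:ℝ)/2) ^ i) atTop (𝓝 (A0 * 0)) :=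
    half_tend.const_mul A0
  rw [mul_zero] at h1
  filter_upwards [h1.eventually (ge_mem_nhds hρ), eventually_ge_atTop 1] with i h2 hi
  refine le_trans (mul_le_mul_of_nonneg_left ?_ hA.le) h2
  have h3 := ex_le' hK hi
  have h4 := ww_le hi
  calc ww i * Real.exp (2 * (K3 * ((kq K3 i : ℕ) : ℝ) ^ 2)) ≤ (1/2) ^ (2 * i) * i :=
        mul_le_mul h4 h3 (Real.exp_nonneg _) (by positivity)
    _ = (i * (1/2) ^ i) * (1/2) ^ i := by rw [two_mul, pow_add]; ring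
    _ ≤ 1 * (1/2) ^ i := mul_le_mul_of_nonneg_right (i_half i) (by positivity)
    _ = _ := one_mul _

theorem gain_ok {K3 κ T : ℝ} (hκ : 0 < κ) (hT : 0 < T) {i : ℕ} (hk : 1 ≤ kq K3 i) :
    κ / (2 * T * (((Nat.sqrt i : ℕ) : ℝ) + 1)) * (1/2) ^ lv i ≤
      NN i * (κ * ((kq K3 i : ℝ) ^ (1/4 : ℝ) * ww i ^ (7/4 : ℝ))) / T := by
  have hs : (0 : ℝ) < ((Nat.sqrt i : ℕ) : ℝ) + 1 := by positivity
  have h1 := NN_ge i
  have h2 : 1 ≤ (kq K3 i : ℝ) ^ (1/4 : ℝ) :=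
    Real.one_le_rpow (by exact_mod_cast hk) (by norm_num)
  rw [ww_pow, lv_pow]
  have hp : (0:ℝ) < (1/2) ^ (7 * i ^ 2) := by positivity
  rw [div_mul_eq_mul_div, div_le_div_iff₀ (by positivity) hT]
  have h3 : κ * ((1/2) ^ (7 * i ^ 2) * 2 ^ i) ≤
      κ * ((1/2) ^ (7 * i ^ 2) * (2 * ((NN i : ℝ) * (((Nat.sqrt i : ℕ) : ℝ) + 1)))) :=
    mul_le_mul_of_nonneg_left (mul_le_mul_of_nonneg_left h1 hp.le) hκ.le
  have h4 : κ * ((1/2) ^ (7 * i ^ 2) * (2 * ((NN i : ℝ) * (((Nat.sqrt i : ℕ) : ℝ) + 1)))) * 1 ≤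
      κ * ((1/2) ^ (7 * i ^ 2) * (2 * ((NN i : ℝ) * (((Nat.sqrt i : ℕ) : ℝ) + 1)))) *
        (kq K3 i : ℝ) ^ (1/4 : ℝ) :=
    mul_le_mul_of_nonneg_left h2 (by positivity)
  calc κ * ((1/2) ^ (7 * i ^ 2) * 2 ^ i) * T
      ≤ (κ * ((1/2) ^ (7 * i ^ 2) * (2 * ((NN i : ℝ) * (((Nat.sqrt i : ℕ) : ℝ) + 1)))) *
        (kq K3 i : ℝ) ^ (1/4 : ℝ)) * T := mul_le_mul_of_nonneg_right (by linarith) hT.le
    _ = _ := by ring

theorem log_le_kq {K3 : ℝ} (hK : 1 ≤ K3) {i : ℕ} (hk : 1 ≤ kq K3 i) :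
    Real.log i ≤ 56 * K3 * (kq K3 i : ℝ) ^ 2 := by
  obtain ⟨fl, hfl⟩ : ∃ fl, fl = ⌊Real.log i / (14 * K3)⌋₊ := ⟨_, rfl⟩
  have h1 : Real.log i / (14 * K3) < fl + 1 := by rw [hfl]; exact Nat.lt_floor_add_one _
  have h2 : fl < (kq K3 i + 1) * (kq K3 i + 1) := by
    unfold kq
    rw [← hfl]
    exact Nat.lt_succ_sqrt fl
  have h3 : fl + 1 ≤ 4 * (kq K3 i * kq K3 i) := by nlinarith
  have h4 : (fl : ℝ) + 1 ≤ 4 * (kq K3 i : ℝ) ^ 2 := by
    rw [sq]; exact_mod_cast h3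
  rw [div_lt_iff₀ (by positivity)] at h1
  nlinarith

theorem ev_ball {K3 κ : ℝ} (hK : 1 ≤ K3) (hκ : 0 < κ) : ∀ᶠ i : ℕ in atTop,
    6 * ww i ≤ Real.exp (-Real.exp 1) ∧ ga (6 * ww i) ≤
      (6 ^ (7/4 : ℝ) * (224 * K3) ^ (1/8 : ℝ) / κ) *
        (κ * ((kq K3 i : ℝ) ^ (1/4 : ℝ) * ww i ^ (7/4 : ℝ))) := by
  have h1 : Tendsto (fun i : ℕ => 6 * ww i) atTop (𝓝 (6 * 0)) := ww_tend.const_mul 6
  rw [mul_zero] at h1
  filter_upwards [h1.eventually (ge_mem_nhds (Real.exp_pos (-Real.exp 1))),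
    eventually_ge_atTop 2, (kq_tend hK).eventually (eventually_ge_atTop 1)] with i h2 hi hk
  refine ⟨h2, ?_⟩
  have hw := ww_pos i
  have hi' : (2:ℝ) ≤ i := by exact_mod_cast hi
  have hli : Real.log 2 ≤ Real.log i := Real.log_le_log (by norm_num) hi'
  have hl2 : 0 < Real.log 2 := Real.log_pos (by norm_num)
  obtain ⟨a1, a2⟩ := ll_ge (by positivity) h2
  have h3 : Real.log (1 / (6 * ww i)) ≤ 4 * (i : ℝ) ^ 2 := by
    have h4 : Real.log (1 / (6 * ww i)) ≤ Real.log (1 / ww i) :=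
      Real.log_le_log (by positivity) (one_div_le_one_div_of_le hw (by linarith))
    have h5 : Real.log (1 / ww i) = 4 * (i : ℝ) ^ 2 * Real.log 2 := by
      unfold ww
      rw [one_div, ← inv_pow, Real.log_pow]
      push_cast
      norm_num
    have h6 : Real.log 2 ≤ 1 := by
      have := Real.log_two_lt_d9
      linarith
    have h7 : 4 * (i : ℝ) ^ 2 * Real.log 2 ≤ 4 * (i : ℝ) ^ 2 * 1 :=
      mul_le_mul_of_nonneg_left h6 (by positivity)
    linarith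
  have h4 : Real.log (Real.log (1 / (6 * ww i))) ≤ 224 * K3 * (kq K3 i : ℝ) ^ 2 := by
    have he := Real.exp_pos 1
    have h5 : Real.log (Real.log (1 / (6 * ww i))) ≤ Real.log (4 * (i : ℝ) ^ 2) :=
      Real.log_le_log (by linarith) h3
    have h6 : Real.log (4 * (i : ℝ) ^ 2) = 2 * Real.log 2 + 2 * Real.log i := by
      rw [Real.log_mul (by norm_num) (by positivity), Real.log_pow,
        show (4:ℝ) = 2 ^ 2 by norm_num, Real.log_pow]
      push_cast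
      ring
    have h7 := log_le_kq hK hk
    linarith
  have h5 : Real.log (Real.log (1 / (6 * ww i))) ^ (1/8 : ℝ) ≤
      (224 * K3) ^ (1/8 : ℝ) * (kq K3 i : ℝ) ^ (1/4 : ℝ) := by
    calc Real.log (Real.log (1 / (6 * ww i))) ^ (1/8 : ℝ)
        ≤ (224 * K3 * (kq K3 i : ℝ) ^ 2) ^ (1/8 : ℝ) :=
          Real.rpow_le_rpow (by linarith) h4 (by norm_num)
      _ = _ := by
          rw [Real.mul_rpow (by positivity) (by positivity), ← Real.rpow_natCast,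
            ← Real.rpow_mul (Nat.cast_nonneg _)]
          norm_num
  unfold ga
  rw [Real.mul_rpow (by norm_num) hw.le]
  calc (6:ℝ) ^ (7/4 : ℝ) * ww i ^ (7/4 : ℝ) * Real.log (Real.log (1 / (6 * ww i))) ^ (1/8 : ℝ)
      ≤ (6:ℝ) ^ (7/4 : ℝ) * ww i ^ (7/4 : ℝ) *
        ((224 * K3) ^ (1/8 : ℝ) * (kq K3 i : ℝ) ^ (1/4 : ℝ)) :=
        mul_le_mul_of_nonneg_left h5 (by positivity)
    _ = _ := by field_simp

/-! ### The modulus -/

/-- `log (1 / h)` for the dyadic intervals -/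
theorem log_h {T : ℝ} (hT : 0 < T) (i : ℕ) :
    Real.log (1 / (T * (1/2) ^ lv i)) ≤ (7 + |Real.log T|) * ((i : ℝ) + 1) ^ 2 := by
  have e : Real.log (1 / (T * (1/2) ^ lv i)) = (lv i : ℝ) * Real.log 2 - Real.log T := by
    rw [one_div, Real.log_inv, Real.log_mul hT.ne' (by positivity), Real.log_pow, one_div,
      Real.log_inv]
    ring
  rw [e]
  have h1 : (lv i : ℝ) ≤ 7 * (i : ℝ) ^ 2 := by
    have : lv i ≤ 7 * i ^ 2 := by unfold lv; omega
    exact_mod_cast this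
  have h2 : Real.log 2 ≤ 1 := by
    have := Real.log_two_lt_d9
    linarith
  have h3 : 0 ≤ Real.log 2 := Real.log_nonneg (by norm_num)
  have h4 : (lv i : ℝ) * Real.log 2 ≤ 7 * (i : ℝ) ^ 2 * 1 :=
    mul_le_mul h1 h2 h3 (by positivity)
  have h5 : -Real.log T ≤ |Real.log T| := neg_le_abs _
  have h6 := abs_nonneg (Real.log T)
  have h7 : (1:ℝ) ≤ ((i : ℝ) + 1) ^ 2 := one_le_pow₀ (by
    have : (0:ℝ) ≤ i := Nat.cast_nonneg _
    linarith)
  have h8 : (i : ℝ) ^ 2 ≤ ((i : ℝ) + 1) ^ 2 := pow_le_pow_left₀ (Nat.cast_nonneg _) (by linarith) 2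
  nlinarith

theorem h_tend (T : ℝ) : Tendsto (fun i : ℕ => T * (1/2) ^ lv i) atTop (𝓝 0) := by
  have h1 : Tendsto lv atTop atTop := by
    refine tendsto_atTop.2 fun b => ?_
    filter_upwards [eventually_ge_atTop b] with n hn
    have := lv_eq n
    nlinarith [Nat.le_self_pow (n := 2) (by norm_num) n]
  have h2 : Tendsto (fun i : ℕ => T * ((1:ℝ)/2) ^ lv i) atTop (𝓝 (T * 0)) :=
    (half_tend.comp h1).const_mul T
  rwa [mul_zero] at h2

/-- the bound for the diameters -/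
noncomputable def Dm' (Cm h : ℝ) : ℝ := Cm * (h ^ (4/7 : ℝ) * Real.log (1 / h) ^ (3/7 : ℝ))

theorem ev_h1 {T : ℝ} (hT : 0 < T) : ∀ᶠ i : ℕ in atTop,
    1 ≤ Real.log (1 / (T * (1/2) ^ lv i)) ∧ T * (1/2) ^ lv i ≤ 1 := by
  filter_upwards [(h_tend T).eventually (ge_mem_nhds (Real.exp_pos (-1)))] with i h1
  have h0 : 0 < T * (1/2) ^ lv i := by positivity
  constructor
  · rw [one_div, Real.log_inv, le_neg]
    have := Real.log_le_log h0 h1
    rwa [Real.log_exp] at this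
  · exact h1.trans (Real.exp_le_one_iff.mpr (by norm_num))

theorem ev_diam {Cm T : ℝ} (hC : 0 < Cm) (hT : 0 < T) : ∀ᶠ i : ℕ in atTop,
    Dm' Cm (T * (1/2) ^ lv (i + 1)) ≤ ww i := by
  obtain ⟨B, hB⟩ : ∃ B : ℝ, B = Cm * T ^ (4/7 : ℝ) * (7 + |Real.log T|) := ⟨_, rfl⟩
  have hB0 : 0 < B := by rw [hB]; positivity
  have hlim : Tendsto (fun i : ℕ => B * (((i : ℝ) + 2) ^ 2 * (1/2) ^ i)) atTop (𝓝 (B * 0)) := by
    refine Tendsto.const_mul B ?_
    have h1 : Tendsto (fun n : ℕ => (n : ℝ) ^ 2 * ((1:ℝ)/2) ^ n) atTop (𝓝 0) :=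
      tendsto_pow_const_mul_const_pow_of_lt_one 2 (by norm_num) (by norm_num)
    have h2 := (h1.comp (tendsto_add_atTop_nat 2)).const_mul 4
    rw [mul_zero] at h2
    refine h2.congr fun n => ?_
    simp only [Function.comp_apply]
    rw [pow_add]
    push_cast
    ring
  rw [mul_zero] at hlim
  filter_upwards [hlim.eventually (ge_mem_nhds one_pos),
    (tendsto_add_atTop_nat 1).eventually (ev_h1 hT)] with i h1 h2
  obtain ⟨h2a, h2b⟩ := h2
  have h3 : Real.log (1 / (T * (1/2) ^ lv (i + 1))) ^ (3/7 : ℝ) ≤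
      (7 + |Real.log T|) * ((i : ℝ) + 2) ^ 2 := by
    have h4 := log_h hT (i + 1)
    push_cast at h4
    have h5 : Real.log (1 / (T * (1/2) ^ lv (i + 1))) ^ (3/7 : ℝ) ≤
        Real.log (1 / (T * (1/2) ^ lv (i + 1))) ^ (1 : ℝ) :=
      Real.rpow_le_rpow_of_exponent_le h2a (by norm_num)
    rw [Real.rpow_one] at h5
    have e : (i : ℝ) + 1 + 1 = i + 2 := by ring
    rw [e] at h4
    exact h5.trans h4
  have h4 : (T * (1/2) ^ lv (i + 1)) ^ (4/7 : ℝ) ≤ T ^ (4/7 : ℝ) * (ww i * (1/2) ^ i) := by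
    rw [Real.mul_rpow hT.le (by positivity)]
    refine mul_le_mul_of_nonneg_left ?_ (by positivity)
    have e : ww i * (1/2) ^ i = ((1:ℝ)/2) ^ (4 * i ^ 2 + i) := by unfold ww; rw [← pow_add]
    rw [e, ← Real.rpow_natCast, ← Real.rpow_natCast, ← Real.rpow_mul (by norm_num)]
    refine Real.rpow_le_rpow_of_exponent_ge (by norm_num) (by norm_num) ?_
    have h5 : lv (i + 1) = 7 * i ^ 2 + 13 * i + 6 := by
      have h6 := lv_eq (i + 1)
      have h7 : 7 * (i + 1) ^ 2 = 7 * i ^ 2 + 14 * i + 7 := by ring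
      omega
    rw [h5]
    push_cast
    nlinarith [(Nat.cast_nonneg i : (0:ℝ) ≤ i)]
  unfold Dm'
  calc Cm * ((T * (1/2) ^ lv (i + 1)) ^ (4/7 : ℝ) *
        Real.log (1 / (T * (1/2) ^ lv (i + 1))) ^ (3/7 : ℝ))
      ≤ Cm * ((T ^ (4/7 : ℝ) * (ww i * (1/2) ^ i)) * ((7 + |Real.log T|) * ((i : ℝ) + 2) ^ 2)) := by
        refine mul_le_mul_of_nonneg_left (mul_le_mul h4 h3 (Real.rpow_nonneg (by linarith) _) ?_)
          hC.le
        have := ww_pos i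
        positivity
    _ = ww i * (B * (((i : ℝ) + 2) ^ 2 * (1/2) ^ i)) := by rw [hB]; ring
    _ ≤ ww i * 1 := mul_le_mul_of_nonneg_left h1 (ww_pos i).le
    _ = _ := mul_one _

/-- a priori bound for the cost -/
theorem ev_V {Cm T : ℝ} (hC : 0 < Cm) (hT : 0 < T) : ∃ B : ℝ, 0 < B ∧ ∀ᶠ i : ℕ in atTop,
    Dm' Cm (T * (1/2) ^ lv i) ≤ Real.exp (-Real.exp 1) ∧ 0 ≤ Dm' Cm (T * (1/2) ^ lv i) ∧
    ga (Dm' Cm (T * (1/2) ^ lv i)) ≤ B * ((i : ℝ) + 1) ^ 4 * (1/2) ^ lv i := by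
  obtain ⟨B1, hB1⟩ : ∃ B : ℝ, B = 7 + |Real.log T| := ⟨_, rfl⟩
  obtain ⟨B2, hB2⟩ : ∃ B : ℝ, B = B1 + |Real.log Cm| := ⟨_, rfl⟩
  have hB10 : 7 ≤ B1 := by rw [hB1]; have := abs_nonneg (Real.log T); linarith
  have hB20 : 7 ≤ B2 := by rw [hB2]; have := abs_nonneg (Real.log Cm); linarith
  refine ⟨Cm ^ (7/4 : ℝ) * T * B1 * B2, by positivity, ?_⟩
  have h0 : ∀ᶠ i : ℕ in atTop, Dm' Cm (T * (1/2) ^ lv i) ≤ Real.exp (-Real.exp 1) := by
    have h1 : ∀ᶠ i : ℕ in atTop, Dm' Cm (T * (1/2) ^ lv (i + 1)) ≤ Real.exp (-Real.exp 1) := by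
      filter_upwards [ev_diam hC hT, ww_tend.eventually
        (ge_mem_nhds (Real.exp_pos (-Real.exp 1)))] with i h2 h3
      exact h2.trans h3
    obtain ⟨i0, hi0⟩ := eventually_atTop.1 h1
    filter_upwards [eventually_ge_atTop (i0 + 1)] with i hi
    have := hi0 (i - 1) (by omega)
    rwa [show i - 1 + 1 = i by omega] at this
  filter_upwards [h0, ev_h1 hT] with i h1 h2
  obtain ⟨h2a, h2b⟩ := h2
  obtain ⟨h, hh⟩ : ∃ h, h = T * (1/2) ^ lv i := ⟨_, rfl⟩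
  have hh0 : 0 < h := by rw [hh]; positivity
  rw [← hh] at h1 h2a h2b ⊢
  obtain ⟨D, hD⟩ : ∃ D, D = Dm' Cm h := ⟨_, rfl⟩
  rw [← hD] at h1 ⊢
  have hi1 : (1:ℝ) ≤ ((i : ℝ) + 1) ^ 2 := one_le_pow₀ (by
    have : (0:ℝ) ≤ i := Nat.cast_nonneg _
    linarith)
  have hD1 : Cm * h ≤ D := by
    have h3 : h ≤ h ^ (4/7 : ℝ) := by
      have := Real.rpow_le_rpow_of_exponent_ge hh0 h2b (show (4/7 : ℝ) ≤ 1 by norm_num)
      rwa [Real.rpow_one] at this
    have h4 : 1 ≤ Real.log (1 / h) ^ (3/7 : ℝ) := Real.one_le_rpow h2a (by norm_num)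
    rw [hD]
    unfold Dm'
    refine mul_le_mul_of_nonneg_left ?_ hC.le
    calc h = h * 1 := (mul_one _).symm
      _ ≤ _ := mul_le_mul h3 h4 (by norm_num) (by positivity)
  have hD0 : 0 < D := lt_of_lt_of_le (by positivity) hD1
  refine ⟨h1, hD0.le, ?_⟩
  obtain ⟨a1, a2⟩ := ll_ge hD0 h1
  have hlog : Real.log (1 / h) ≤ B1 * ((i : ℝ) + 1) ^ 2 := by
    rw [hh, hB1]; exact log_h hT i
  have h3 : Real.log (1 / D) ≤ B2 * ((i : ℝ) + 1) ^ 2 := by
    have h4 : Real.log (1 / D) ≤ Real.log (1 / (Cm * h)) :=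
      Real.log_le_log (by positivity) (one_div_le_one_div_of_le (by positivity) hD1)
    have h5 : Real.log (1 / (Cm * h)) = Real.log (1 / h) - Real.log Cm := by
      rw [one_div, one_div, Real.log_inv, Real.log_inv, Real.log_mul hC.ne' hh0.ne']
      ring
    have h6 : -Real.log Cm ≤ |Real.log Cm| := neg_le_abs _
    have h7 : |Real.log Cm| ≤ |Real.log Cm| * ((i : ℝ) + 1) ^ 2 := by
      nlinarith [abs_nonneg (Real.log Cm)]
    rw [hB2]
    nlinarith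
  have h4 : Real.log (Real.log (1 / D)) ^ (1/8 : ℝ) ≤ B2 * ((i : ℝ) + 1) ^ 2 := by
    have h5 : Real.log (Real.log (1 / D)) ^ (1/8 : ℝ) ≤ Real.log (Real.log (1 / D)) ^ (1 : ℝ) :=
      Real.rpow_le_rpow_of_exponent_le a2 (by norm_num)
    rw [Real.rpow_one] at h5
    have he := Real.exp_pos 1
    have h6 : Real.log (Real.log (1 / D)) ≤ Real.log (1 / D) - 1 :=
      Real.log_le_sub_one_of_pos (by linarith)
    linarith
  have h5 : D ^ (7/4 : ℝ) ≤ Cm ^ (7/4 : ℝ) * h * (B1 * ((i : ℝ) + 1) ^ 2) := by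
    rw [hD]
    unfold Dm'
    have hl0 : 0 ≤ Real.log (1 / h) := by linarith
    rw [Real.mul_rpow hC.le (by positivity), Real.mul_rpow (by positivity) (by positivity),
      ← Real.rpow_mul hh0.le, ← Real.rpow_mul hl0]
    norm_num
    have h6 : Real.log (1 / h) ^ (3/4 : ℝ) ≤ Real.log (1 / h) ^ (1 : ℝ) :=
      Real.rpow_le_rpow_of_exponent_le h2a (by norm_num)
    rw [Real.rpow_one] at h6
    have h7 : Real.log (1 / h) ^ (3/4 : ℝ) ≤ B1 * ((i : ℝ) + 1) ^ 2 := h6.trans hlog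
    have e : Real.log (1 / h) = -Real.log h := by rw [one_div, Real.log_inv]
    rw [e] at h7
    calc Cm ^ (7/4 : ℝ) * (h * (-Real.log h) ^ (3/4 : ℝ))
        ≤ Cm ^ (7/4 : ℝ) * (h * (B1 * ((i : ℝ) + 1) ^ 2)) := by
          exact mul_le_mul_of_nonneg_left (mul_le_mul_of_nonneg_left h7 hh0.le) (by positivity)
      _ = _ := by ring
  unfold ga
  calc D ^ (7/4 : ℝ) * Real.log (Real.log (1 / D)) ^ (1/8 : ℝ)
      ≤ (Cm ^ (7/4 : ℝ) * h * (B1 * ((i : ℝ) + 1) ^ 2)) * (B2 * ((i : ℝ) + 1) ^ 2) :=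
        mul_le_mul h5 h4 (Real.rpow_nonneg (by linarith) _) (by positivity)
    _ = _ := by rw [hh]; ring

/-- The product tends to zero faster than the a priori bound grows. -/
theorem prod_lim {a B : ℝ} (ha : 0 < a) (hB : 0 < B) {q V : ℕ → ℝ}
    (hq : ∀ i, q i = a / (((Nat.sqrt i : ℕ) : ℝ) + 1)) {i : ℕ} (hq1 : ∀ j, i ≤ j → q j ≤ 1)
    (hV0 : ∀ j, 0 ≤ V j) (hV : ∀ j : ℕ, V j ≤ B * ((j : ℝ) + 1) ^ 4) :
    Tendsto (fun m => (∏ j ∈ Finset.range m, (1 - q (i + j))) * V (i + m)) atTop (𝓝 0) := by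
  -- the bound
  have h1 : ∀ m : ℕ, ∏ j ∈ Finset.range m, (1 - q (i + j)) ≤
      Real.exp (-(m * (a / (Real.sqrt ((i : ℝ) + m) + 1)))) := by
    intro m
    have h2 : ∀ j ∈ Finset.range m, (1 - q (i + j)) ≤
        Real.exp (-(a / (Real.sqrt ((i : ℝ) + m) + 1))) := by
      intro j hj
      have hj' := Finset.mem_range.mp hj
      have h3 : a / (Real.sqrt ((i : ℝ) + m) + 1) ≤ q (i + j) := by
        rw [hq]
        refine div_le_div_of_nonneg_left ha.le (by positivity) ?_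
        have h4 := sq_le (i + j)
        have h5 : Real.sqrt ((i + j : ℕ) : ℝ) ≤ Real.sqrt ((i : ℝ) + m) := by
          refine Real.sqrt_le_sqrt ?_
          have : (j : ℝ) ≤ m := by exact_mod_cast hj'.le
          push_cast
          linarith
        linarith
      have h6 := Real.add_one_le_exp (-(a / (Real.sqrt ((i : ℝ) + m) + 1)))
      linarith
    refine (Finset.prod_le_prod (fun j _ => ?_) h2).trans (le_of_eq ?_)
    · have := hq1 (i + j) (by omega)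
      linarith
    · rw [Finset.prod_const, Finset.card_range, ← Real.exp_nat_mul]
      congr 1
      ring
  have hP0 : ∀ m : ℕ, 0 ≤ ∏ j ∈ Finset.range m, (1 - q (i + j)) := fun m =>
    Finset.prod_nonneg fun j _ => by
      have := hq1 (i + j) (by omega)
      linarith
  -- comparison
  obtain ⟨b, hb⟩ : ∃ b : ℝ, b = a / 4 := ⟨_, rfl⟩
  have hb0 : 0 < b := by rw [hb]; positivity
  have hlim : Tendsto (fun m : ℕ => B * (81 / b ^ 8) *
      ((b * Real.sqrt m) ^ 8 * Real.exp (-(b * Real.sqrt m)))) atTop (𝓝 0) := by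
    have h2 : Tendsto (fun m : ℕ => b * Real.sqrt m) atTop atTop :=
      (Real.tendsto_sqrt_atTop.comp tendsto_natCast_atTop_atTop).const_mul_atTop hb0
    have h3 := ((Real.tendsto_pow_mul_exp_neg_atTop_nhds_zero 8).comp h2).const_mul
      (B * (81 / b ^ 8))
    rw [mul_zero] at h3
    exact h3
  refine squeeze_zero' (Eventually.of_forall fun m => mul_nonneg (hP0 m) (hV0 _)) ?_ hlim
  filter_upwards [eventually_ge_atTop (i + 1)] with m hm
  have hm0 : (0:ℝ) < m := by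
    have : 0 < m := by omega
    exact_mod_cast this
  have hm1 : (1:ℝ) ≤ m := by
    have : 1 ≤ m := by omega
    exact_mod_cast this
  have hmi : (i : ℝ) + 1 ≤ m := by exact_mod_cast hm
  obtain ⟨s, hs⟩ : ∃ s : ℝ, s = Real.sqrt m := ⟨_, rfl⟩
  have hs1 : 1 ≤ s := by
    rw [hs, show (1:ℝ) = Real.sqrt 1 by simp]
    exact Real.sqrt_le_sqrt hm1
  have hss : s ^ 2 = m := by rw [hs]; exact Real.sq_sqrt hm0.le
  have h2 : Real.sqrt ((i : ℝ) + m) + 1 ≤ 4 * s := by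
    have h3 : Real.sqrt ((i : ℝ) + m) ≤ 2 * s := by
      refine Real.sqrt_le_iff.mpr ⟨by linarith, ?_⟩
      nlinarith
    linarith
  have h3 : b * s ≤ m * (a / (Real.sqrt ((i : ℝ) + m) + 1)) := by
    have hsq : 0 < Real.sqrt ((i : ℝ) + m) + 1 := by positivity
    have h4 : a / (4 * s) ≤ a / (Real.sqrt ((i : ℝ) + m) + 1) :=
      div_le_div_of_nonneg_left ha.le hsq h2
    have h5 : (m : ℝ) * (a / (4 * s)) ≤ m * (a / (Real.sqrt ((i : ℝ) + m) + 1)) :=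
      mul_le_mul_of_nonneg_left h4 hm0.le
    refine le_trans (le_of_eq ?_) h5
    rw [hb, ← hss]
    field_simp
  have h4 : ((i : ℝ) + m + 1) ^ 4 ≤ 81 * s ^ 8 := by
    have h5 : (i : ℝ) + m + 1 ≤ 3 * s ^ 2 := by rw [hss]; linarith
    have h6 := pow_le_pow_left₀ (by positivity) h5 4
    calc ((i : ℝ) + m + 1) ^ 4 ≤ (3 * s ^ 2) ^ 4 := h6
      _ = _ := by ring
  have h5 := hV (i + m)
  push_cast at h5
  calc (∏ j ∈ Finset.range m, (1 - q (i + j))) * V (i + m)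
      ≤ Real.exp (-(b * s)) * (B * (81 * s ^ 8)) := by
        refine mul_le_mul ((h1 m).trans (Real.exp_le_exp.mpr (by linarith))) ?_ (hV0 _)
          (Real.exp_nonneg _)
        exact h5.trans (mul_le_mul_of_nonneg_left h4 hB.le)
    _ = _ := by
        rw [← hs]
        field_simp

end Pool.Agent.Y995.HG
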