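import Pool.Agent.Y985.ME.Top
import Pool.Agent.Y985.ME.Lln
import Pool.Agent.Y994.MC.UpP
import Pool.Agent.Y337.ME.Occ

/-!
First moment of the number of the times near which the path spends much time.
-/

set_option autoImplicit false
set_option linter.unusedVariables false

namespace Pool.Agent.Y995.HG

open H974 Finset H342P H984P H984N TH992.T Pool.Agent.Y985.ME

theorem trunc {p : Edg → ℝ} (hp : Ok p) {S : Finset Edg} {Z : Finset Edg → ℝ} (hZ : ∀ F, 0 ≤ Z F)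
    {M b u : ℝ} (hM : Ex p S (fun F => Real.exp (Z F / 2)) ≤ M) (hb : 0 < b)
    (hPr : Pr p S (fun F => u ≤ Z F) ≤ 9 * b ^ 2) :
    Ex p S (fun F => Z F * ind (u ≤ Z F)) ≤ (8 * M + 9) / 2 * b := by
  have h1 : Ex p S (fun F => Z F * ind (u ≤ Z F)) ≤
      Ex p S (fun F => (4 * b) * Real.exp (Z F / 2) + (b⁻¹ / 2) * ind (u ≤ Z F)) := by
    refine Ex_mono hp fun F _ => ?_
    have h2 : (Z F) ^ 2 ≤ 8 * Real.exp (Z F / 2) := by
      have := Real.quadratic_le_exp_of_nonneg (x := Z F / 2) (by have := hZ F; positivity)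
      have h0 := hZ F
      nlinarith
    by_cases hu : u ≤ Z F
    · rw [ind_of hu]
      have h3 : 2 * Z F ≤ b * (Z F) ^ 2 + b⁻¹ := by
        have h4 : 0 ≤ (b * Z F - 1) ^ 2 := sq_nonneg _
        have h5 : b * (2 * Z F) ≤ b * (b * (Z F) ^ 2 + b⁻¹) := by
          rw [mul_add, mul_inv_cancel₀ hb.ne']
          nlinarith
        exact le_of_mul_le_mul_left h5 hb
      nlinarith
    · rw [ind_not_of hu]
      have := Real.exp_pos (Z F / 2)
      simp only [mul_zero, add_zero]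
      positivity
  refine h1.trans ?_
  rw [Ex_add, Ex_mul_left, Ex_mul_left]
  have h2 : (4 * b) * Ex p S (fun F => Real.exp (Z F / 2)) ≤ (4 * b) * M :=
    mul_le_mul_of_nonneg_left hM (by positivity)
  have h3 : (b⁻¹ / 2) * Ex p S (fun F => ind (u ≤ Z F)) ≤ (b⁻¹ / 2) * (9 * b ^ 2) :=
    mul_le_mul_of_nonneg_left hPr (by positivity)
  have h4 : (b⁻¹ / 2) * (9 * b ^ 2) = 9 / 2 * b := by
    field_simp
  rw [h4] at h3
  linarith

theorem tch_mul {D : Dm} (hD : D.Ok) {W : ℤ} (hW : 1 ≤ W) {q : Vtx} {Y : Finset Edg → ℝ}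
    (hY : ∀ F ⊆ D.edges, Y F = Y (F ∩ Lam D W q)) :
    E D.edges (fun F => ind (Tch D W q F) * Y F) = P D.edges (Tch D W q) * E D.edges Y := by
  have h := Ex_mul_indep (p := fun _ : Edg => (1/2:ℝ)) (U := D.edges)
    (S := D.edges \ Lam D W q) (T := Lam D W q)
    (f := fun F => ind (Ar D W ((Bks D W).card + 1) q F))
    (g := Y) sdiff_subset (Lam_sub D W q) sdiff_disjoint
    (fun F hF => ind_congr (Ar_inter hD hW hF))
    (fun F hF => hY F hF)
  have e1 : E D.edges (fun F => ind (Tch D W q F) * Y F) =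
      E D.edges (fun F => ind (Ar D W ((Bks D W).card + 1) q F) * Y F) := by
    refine Ex_congr fun F _ => ?_
    rw [ind_congr Ar_top]
  have e2 : P D.edges (Tch D W q) =
      Ex (fun _ : Edg => (1/2:ℝ)) D.edges (fun F => ind (Ar D W ((Bks D W).card + 1) q F)) := by
    show Ex _ _ _ = _
    refine Ex_congr fun F _ => ?_
    rw [ind_congr Ar_top]
  rw [e1, e2]
  exact h

theorem blk_mem {D : Dm} (hD : D.Ok) {F : Finset Edg} (hF : F ⊆ D.edges) {W : ℤ} (hW : 1 ≤ W)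
    (t : ℕ) : blk W (D.walk F t).1 ∈ Bks D W := by
  obtain ⟨⟨b1, b2⟩, b3, b4⟩ := walk_in hD hF t
  unfold Bks blk
  rw [mem_product, mem_Icc, mem_Icc]
  refine ⟨⟨Int.ediv_le_ediv (by omega) b1, Int.ediv_le_ediv (by omega) b2⟩, ?_,
    Int.ediv_le_ediv (by omega) b4⟩
  exact Int.ediv_nonneg b3 (by omega)

open Classical in
/-- number of times near which the path spends the time `K` -/
noncomputable def Heavy (D : Dm) (F : Finset Edg) (m : ℕ) (K : ℝ) : ℕ :=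
  ((Finset.range (D.len F + 1)).filter (fun t => K ≤
    (((Finset.range (D.len F + 1)).filter
      (fun s => ((sd (D.walk F s).1 (D.walk F t).1 : ℤ) : ℝ) ≤ m)).card : ℝ))).card

/-- the number in the box around a block of side `4 m` -/
noncomputable def Zq (D : Dm) (m : ℕ) (q : Vtx) (F : Finset Edg) : ℝ :=
  Nb (xs D) (6 * m) (q.1 * (4 * m : ℤ) - m) (q.2 * (4 * m : ℤ) - m) F

theorem Zq_local {C : ℝ} (hC : 0 < C) (hU : TwoUp C (1/4)) {D : Dm} {m : ℕ} (hm : 1 ≤ m) {q : Vtx}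
    {F : Finset Edg} (hF : F ⊆ D.edges) : Zq D m q F = Zq D m q (F ∩ Lam D (4 * m) q) := by
  unfold Zq
  rw [Nb_local (xs_fam hC hU D) _ _ _ F hF,
    Nb_local (xs_fam hC hU D) _ _ _ (F ∩ Lam D (4 * m) q) (inter_subset_left.trans hF)]
  congr 1
  rw [inter_assoc]
  congr 1
  symm
  rw [inter_eq_right]
  intro e he
  unfold Tb at he
  rw [mem_inter] at he
  obtain ⟨h1, h2⟩ := he
  have hm' : (1 : ℤ) ≤ m := by exact_mod_cast hm
  obtain ⟨x, y, _ | _⟩ := e
  · unfold Dm.edges at h2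
    unfold Pool.Agent.Y985.ME.Lam
    rw [mem_RE_false] at h1 h2 ⊢
    push_cast at h1
    refine ⟨max_le h2.1 (by linarith [h1.1]), le_min h2.2.1 (by linarith [h1.2.1]),
      max_le h2.2.2.1 (by linarith [h1.2.2.1]), lt_min h2.2.2.2 (by linarith [h1.2.2.2])⟩
  · unfold Dm.edges at h2
    unfold Pool.Agent.Y985.ME.Lam
    rw [mem_RE_true] at h1 h2 ⊢
    push_cast at h1
    refine ⟨max_le h2.1 (by linarith [h1.1]), lt_min h2.2.1 (by linarith [h1.2.1]),
      max_le h2.2.2.1 (by linarith [h1.2.2.1]), le_min h2.2.2.2 (by linarith [h1.2.2.2])⟩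

theorem blk_ball {m : ℕ} (hm : 1 ≤ m) {v q : Vtx} (h : blk (4 * m) v = q) :
    (q.1 * (4 * m : ℤ) ≤ v.1 ∧ v.1 < q.1 * (4 * m : ℤ) + 4 * m) ∧
    (q.2 * (4 * m : ℤ) ≤ v.2 ∧ v.2 < q.2 * (4 * m : ℤ) + 4 * m) := by
  have hm' : (0 : ℤ) < 4 * m := by omega
  unfold blk at h
  rw [← h]
  have key : ∀ x : ℤ, x / (4 * m) * (4 * m : ℤ) ≤ x ∧ x < x / (4 * m) * (4 * m : ℤ) + 4 * m := by
    intro x
    refine ⟨Int.ediv_mul_le x hm'.ne', ?_⟩
    have := Int.lt_ediv_add_one_mul_self x hm'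
    linarith
  exact ⟨key _, key _⟩

theorem heavy_det {D : Dm} (hD : D.Ok) {F : Finset Edg} (hF : F ⊆ D.edges) {m : ℕ} (hm : 1 ≤ m)
    (K : ℝ) (hK : 0 ≤ K) : (Heavy D F m K : ℝ) ≤
      ∑ q ∈ Bks D (4 * m), ind (Tch D (4 * m) q F) * (Zq D m q F * ind (K ≤ Zq D m q F)) := by
  classical
  have hm' : (1 : ℤ) ≤ m := by exact_mod_cast hm
  unfold Heavy
  obtain ⟨T, hT⟩ : ∃ T : Finset ℕ, T = (Finset.range (D.len F + 1)).filter (fun t => K ≤
    (((Finset.range (D.len F + 1)).filter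
      (fun s => ((sd (D.walk F s).1 (D.walk F t).1 : ℤ) : ℝ) ≤ m)).card : ℝ)) := ⟨_, rfl⟩
  have hTm : ∀ t ∈ T, t ≤ D.len F ∧ K ≤ (((Finset.range (D.len F + 1)).filter
      (fun s => ((sd (D.walk F s).1 (D.walk F t).1 : ℤ) : ℝ) ≤ m)).card : ℝ) := by
    intro t ht
    rw [hT, mem_filter, mem_range] at ht
    exact ⟨by omega, ht.2⟩
  have hc : (T.card : ℝ) = ∑ q ∈ Bks D (4 * m),
      (((T.filter (fun t => blk (4 * m) (D.walk F t).1 = q)).card : ℕ) : ℝ) := by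
    rw [← Nat.cast_sum]
    congr 1
    exact card_eq_sum_card_fiberwise fun t _ => blk_mem hD hF (by omega) t
  have hgoal : (T.card : ℝ) ≤
      ∑ q ∈ Bks D (4 * m), ind (Tch D (4 * m) q F) * (Zq D m q F * ind (K ≤ Zq D m q F)) := by
    rw [hc]
    refine sum_le_sum fun q _ => ?_
    have hZ0 : 0 ≤ Zq D m q F := by
      unfold Zq Nb xs
      refine sum_nonneg fun v _ => sum_nonneg fun q _ => ?_
      split_ifs
      · exact ind_nonneg _
      · exact le_refl _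
    rcases (T.filter (fun t => blk (4 * m) (D.walk F t).1 = q)).eq_empty_or_nonempty with h0 | h0
    · rw [h0, card_empty, Nat.cast_zero]
      exact mul_nonneg (ind_nonneg _) (mul_nonneg hZ0 (ind_nonneg _))
    · obtain ⟨t, ht⟩ := h0
      rw [mem_filter] at ht
      obtain ⟨ht1, ht2⟩ := ht
      obtain ⟨ht3, ht4⟩ := hTm t ht1
      have hb := blk_ball hm ht2
      have hK1 : K ≤ Zq D m q F := by
        refine ht4.trans (Pool.Agent.Y337.ME.loc_le hD hF fun w hw => ?_)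
        obtain ⟨⟨c1, c2⟩, c3, c4⟩ := Pool.Agent.Y337.ME.sd_le_iff (m := m) le_rfl hw
        rw [mem_Bq]
        push_cast
        refine ⟨⟨?_, ?_⟩, ?_, ?_⟩
        · linarith [hb.1.1]
        · linarith [hb.1.2]
        · linarith [hb.2.1]
        · linarith [hb.2.2]
      have hTch : Tch D (4 * m) q F := by
        refine ⟨t, ht3, ?_⟩
        rw [ht2, det_sd_eq]
        simp
      rw [ind_of hK1, ind_of hTch, one_mul, mul_one]
      refine le_trans ?_ (Pool.Agent.Y337.ME.loc_le hD hF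
        (v := (q.1 * (4 * m : ℤ) + 2 * m, q.2 * (4 * m : ℤ) + 2 * m)) (r := ((2 * m : ℕ) : ℝ))
        fun w hw => ?_)
      · have hsub : T.filter (fun t => blk (4 * m) (D.walk F t).1 = q) ⊆
            (Finset.range (D.len F + 1)).filter (fun t => ((sd (D.walk F t).1
              (q.1 * (4 * m : ℤ) + 2 * m, q.2 * (4 * m : ℤ) + 2 * m) : ℤ) : ℝ) ≤
              ((2 * m : ℕ) : ℝ)) := by
          intro s hs
          rw [mem_filter] at hs
          rw [mem_filter, mem_range]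
          refine ⟨by have := (hTm s hs.1).1; omega, ?_⟩
          have hb' := blk_ball hm hs.2
          have h5 : sd (D.walk F s).1
              (q.1 * (4 * m : ℤ) + 2 * m, q.2 * (4 * m : ℤ) + 2 * m) ≤ ((2 * m : ℕ) : ℤ) := by
            rw [det_sd_eq]
            push_cast
            omega
          exact_mod_cast h5
        exact_mod_cast card_le_card hsub
      · obtain ⟨⟨c1, c2⟩, c3, c4⟩ := Pool.Agent.Y337.ME.sd_le_iff (m := 2 * m) le_rfl hw
        rw [mem_Bq]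
        simp only at c1 c2 c3 c4
        push_cast at c1 c2 c3 c4 ⊢
        refine ⟨⟨?_, ?_⟩, ?_, ?_⟩
        · linarith
        · linarith
        · linarith
        · linarith
  rw [hT] at hgoal
  exact hgoal

/-- The first moment. -/
theorem heavy_exp {C : ℝ} (hC : 0 < C) (hU : TwoUp C (1/4)) : ∃ l : ℝ, 0 < l ∧ ∀ κ : ℝ, 0 < κ →
    ∃ C1 : ℝ, 0 < C1 ∧ ∀ (D : Dm) (n : ℝ) (m : ℕ) (u : ℝ), D.Shape κ n → 1 ≤ m → 4 * (m : ℝ) ≤ n →
      0 ≤ u → E D.edges (fun F => (Heavy D F m (u * (m : ℝ) ^ (7/4 : ℝ)) : ℝ)) ≤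
        C1 * n ^ (7/4 : ℝ) * Real.exp (-(u / l) ^ 8) := by
  classical
  obtain ⟨l0, hl0, htail⟩ := tail1 (a := 1/4) (C0 := 4 * (C + 1) * (1 + 8 * (1 + 1 / (1 - 1/4))))
    (by norm_num) (by norm_num) 4 (by positivity)
  obtain ⟨M, hM1, hM⟩ := Y994.MC.expY (a := 1/4)
    (C0 := 4 * (C + 1) * (1 + 8 * (1 + 1 / (1 - 1/4))))
    (by norm_num) (by norm_num) 4 (by positivity)
  refine ⟨128 * l0, by positivity, fun κ hκ => ?_⟩
  obtain ⟨C2, hC2, hfm⟩ := s_fm κ hκ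
  refine ⟨(8 * M + 9) / 2 * (C2 * 4), by positivity, fun D n m u hD hm hmn hu => ?_⟩
  have hm0 : (0 : ℝ) < m := by exact_mod_cast hm
  have hm1 : (1 : ℝ) ≤ m := by exact_mod_cast hm
  have hn0 : 0 < n := by linarith
  have hs0 : (0 : ℝ) < ((6 * m : ℕ) : ℝ) := by positivity
  obtain ⟨S, hS⟩ : ∃ S : ℝ, S = ((6 * m : ℕ) : ℝ) ^ (7/4 : ℝ) := ⟨_, rfl⟩
  have hS0 : 0 < S := by rw [hS]; positivity
  obtain ⟨K, hK⟩ : ∃ K : ℝ, K = u / 64 * S := ⟨_, rfl⟩
  have hK0 : 0 ≤ K := by rw [hK]; positivity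
  have hKle : K ≤ u * (m : ℝ) ^ (7/4 : ℝ) := by
    rw [hK, hS]
    have h1 : ((6 * m : ℕ) : ℝ) ^ (7/4 : ℝ) ≤ 64 * (m : ℝ) ^ (7/4 : ℝ) := by
      push_cast
      rw [Real.mul_rpow (by norm_num) hm0.le]
      refine mul_le_mul_of_nonneg_right ?_ (by positivity)
      calc (6 : ℝ) ^ (7/4 : ℝ) ≤ 6 ^ (2 : ℝ) :=
            Real.rpow_le_rpow_of_exponent_le (by norm_num) (by norm_num)
        _ = 36 := by norm_num
        _ ≤ 64 := by norm_num
    calc u / 64 * ((6 * m : ℕ) : ℝ) ^ (7/4 : ℝ) ≤ u / 64 * (64 * (m : ℝ) ^ (7/4 : ℝ)) :=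
          mul_le_mul_of_nonneg_left h1 (by positivity)
      _ = _ := by ring
  obtain ⟨b, hb⟩ : ∃ b : ℝ, b = Real.exp (-(u / 64 / l0) ^ 8 / 2) := ⟨_, rfl⟩
  have hb0 : 0 < b := by rw [hb]; exact Real.exp_pos _
  have hble : b ≤ Real.exp (-(u / (128 * l0)) ^ 8) := by
    rw [hb]
    refine Real.exp_le_exp.mpr ?_
    have e : u / (128 * l0) = (u / 64 / l0) / 2 := by field_simp; ring
    rw [e, div_pow (u / 64 / l0) 2 8, show (2:ℝ) ^ 8 = 256 by norm_num]
    have : 0 ≤ (u / 64 / l0) ^ 8 := by positivity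
    linarith
  have hY : ∀ q, E D.edges (fun F => Zq D m q F * ind (K ≤ Zq D m q F)) ≤
      S * ((8 * M + 9) / 2 * b) := by
    intro q
    have hfam := xs_fam hC hU D
    have e2 : (2 - 1/4 : ℝ) = 7/4 := by norm_num
    have hZ : ∀ F, Zq D m q F = S * Yb (1/4) (xs D) (6 * m) (q.1 * (4 * m : ℤ) - m)
        (q.2 * (4 * m : ℤ) - m) F := by
      intro F
      unfold Yb Zq
      rw [e2, ← hS]
      field_simp
    have h1 := trunc two_ok (S := D.edges) (Z := fun F => Yb (1/4) (xs D) (6 * m)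
      (q.1 * (4 * m : ℤ) - m) (q.2 * (4 * m : ℤ) - m) F) (fun F => Yb_nonneg hfam _ _ _ _)
      (M := M) (b := b) (u := u / 64)
      (hM _ _ _ hfam (6 * m) _ _ (by omega)) hb0 (by
        refine (htail _ _ _ hfam (6 * m) _ _ (u / 64) (by omega) (by positivity)).trans
          (le_of_eq ?_)
        rw [hb, ← Real.exp_nat_mul]
        congr 2
        rw [show (2 / (1/4) : ℝ) = ((8 : ℕ) : ℝ) by norm_num, Real.rpow_natCast]
        push_cast
        ring)
    have h2 : E D.edges (fun F => Zq D m q F * ind (K ≤ Zq D m q F)) =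
        E D.edges (fun F => S * (Yb (1/4) (xs D) (6 * m)
      (q.1 * (4 * m : ℤ) - m) (q.2 * (4 * m : ℤ) - m) F * ind (u / 64 ≤ Yb (1/4) (xs D) (6 * m)
      (q.1 * (4 * m : ℤ) - m) (q.2 * (4 * m : ℤ) - m) F))) := by
      refine Ex_congr fun F _ => ?_
      rw [hZ F, hK, mul_assoc]
      congr 2
      refine ind_congr ?_
      rw [mul_comm (u / 64) S]
      exact mul_le_mul_iff_right₀ hS0
    rw [h2]
    show Ex _ _ _ ≤ _
    rw [Ex_mul_left]
    exact mul_le_mul_of_nonneg_left h1 hS0.le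
  have hW : (1 : ℤ) ≤ 4 * m := by omega
  have h1 : E D.edges (fun F => (Heavy D F m (u * (m : ℝ) ^ (7/4 : ℝ)) : ℝ)) ≤
      E D.edges (fun F => ∑ q ∈ Bks D (4 * m),
        ind (Tch D (4 * m) q F) * (Zq D m q F * ind (K ≤ Zq D m q F))) := by
    refine Ex_mono two_ok fun F hF => ?_
    refine le_trans ?_ (heavy_det hD.ok hF hm K hK0)
    unfold Heavy
    have : ((Finset.range (D.len F + 1)).filter (fun t => u * (m : ℝ) ^ (7/4 : ℝ) ≤
      (((Finset.range (D.len F + 1)).filter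
        (fun s => ((sd (D.walk F s).1 (D.walk F t).1 : ℤ) : ℝ) ≤ m)).card : ℝ))) ⊆
      ((Finset.range (D.len F + 1)).filter (fun t => K ≤
      (((Finset.range (D.len F + 1)).filter
        (fun s => ((sd (D.walk F s).1 (D.walk F t).1 : ℤ) : ℝ) ≤ m)).card : ℝ))) :=
      fun t ht => by
        rw [mem_filter] at ht ⊢
        exact ⟨ht.1, hKle.trans ht.2⟩
    exact_mod_cast card_le_card this
  refine h1.trans ?_
  show Ex _ _ _ ≤ _
  rw [Ex_sum]
  have h2 : ∀ q ∈ Bks D (4 * m), Ex (fun _ : Edg => (1/2:ℝ)) D.edges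
      (fun F => ind (Tch D (4 * m) q F) * (Zq D m q F * ind (K ≤ Zq D m q F))) ≤
      P D.edges (Tch D (4 * m) q) * (S * ((8 * M + 9) / 2 * b)) := by
    intro q _
    have h3 := tch_mul hD.ok hW (q := q) (Y := fun F => Zq D m q F * ind (K ≤ Zq D m q F))
      (fun F hF => by rw [Zq_local hC hU hm hF])
    refine (le_of_eq h3).trans (mul_le_mul_of_nonneg_left (hY q) (Pr_nonneg two_ok _ _))
  refine (sum_le_sum h2).trans ?_
  rw [← sum_mul]
  have h4 := hfm D n n (4 * m : ℤ) hD hW (by push_cast; linarith) le_rfl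
  have h5 : (Bks D (4 * m)).filter
      (fun q => ((D.bd (q.1 * (4 * m : ℤ), q.2 * (4 * m : ℤ)) : ℤ) : ℝ) ≤ n) = Bks D (4 * m) := by
    refine filter_true_of_mem fun q _ => ?_
    have h6 : 2 * D.bd (q.1 * (4 * m : ℤ), q.2 * (4 * m : ℤ)) ≤ D.r - D.l := by
      unfold Dm.bd
      simp only
      omega
    have h7 : ((2 * D.bd (q.1 * (4 * m : ℤ), q.2 * (4 * m : ℤ)) : ℤ) : ℝ) ≤ n :=
      (by exact_mod_cast h6 : ((2 * D.bd (q.1 * (4 * m : ℤ), q.2 * (4 * m : ℤ)) : ℤ) : ℝ) ≤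
        ((D.r - D.l : ℤ) : ℝ)).trans hD.w_le
    push_cast at h7
    linarith
  rw [h5] at h4
  have h6 : (n / n) ^ (3/4 : ℝ) = 1 := by
    rw [div_self hn0.ne', Real.one_rpow]
  rw [h6, mul_one] at h4
  have h7 : S * (n / ((4 * m : ℤ) : ℝ)) ^ (7/4 : ℝ) ≤ 4 * n ^ (7/4 : ℝ) := by
    rw [hS, ← Real.mul_rpow (by positivity) (by positivity)]
    have e : ((6 * m : ℕ) : ℝ) * (n / ((4 * m : ℤ) : ℝ)) = (3/2) * n := by
      push_cast
      field_simp
      norm_num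
    rw [e, Real.mul_rpow (by norm_num) hn0.le]
    refine mul_le_mul_of_nonneg_right ?_ (by positivity)
    calc (3/2 : ℝ) ^ (7/4 : ℝ) ≤ (3/2) ^ (2 : ℝ) :=
          Real.rpow_le_rpow_of_exponent_le (by norm_num) (by norm_num)
      _ ≤ 4 := by norm_num
  have hSP : (∑ q ∈ Bks D (4 * m), P D.edges (Tch D (4 * m) q)) * (S * ((8 * M + 9) / 2 * b)) ≤
      (C2 * (n / ((4 * m : ℤ) : ℝ)) ^ (7/4 : ℝ)) * (S * ((8 * M + 9) / 2 * b)) :=
    mul_le_mul_of_nonneg_right h4 (by positivity)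
  refine hSP.trans ?_
  calc (C2 * (n / ((4 * m : ℤ) : ℝ)) ^ (7/4 : ℝ)) * (S * ((8 * M + 9) / 2 * b)) =
        ((8 * M + 9) / 2 * C2 * b) * (S * (n / ((4 * m : ℤ) : ℝ)) ^ (7/4 : ℝ)) := by ring
    _ ≤ ((8 * M + 9) / 2 * C2 * b) * (4 * n ^ (7/4 : ℝ)) :=
        mul_le_mul_of_nonneg_left h7 (by positivity)
    _ = ((8 * M + 9) / 2 * C2 * (4 * n ^ (7/4 : ℝ))) * b := by ring
    _ ≤ ((8 * M + 9) / 2 * C2 * (4 * n ^ (7/4 : ℝ))) * Real.exp (-(u / (128 * l0)) ^ 8) :=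
        mul_le_mul_of_nonneg_left hble (by positivity)
    _ = _ := by ring

end Pool.Agent.Y995.HG
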