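import Pool.Agent.Y995.HG.Blk
import Pool.Agent.Y995.FS.SlowDet

/-!
A long piece of the path contains many slow places.
-/

set_option autoImplicit false

namespace Pool.Agent.Y995.HG

open H974 Finset H342P H984P H984N TH992.L Y994.MC Y994.MD Pool.Agent.Y995.FS

theorem sd_eq (u v : Vtx) : sd u v = max |u.1 - v.1| |u.2 - v.2| := rfl

theorem far_of_sd {u v : Vtx} {R W : ℤ} (h : W ≤ sd u v) (hRW : R < W) : Far u R v := by
  have e : sd u v = H984H.sd u v := rfl
  rw [e, H984H.det_sd_eq] at h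
  unfold Far
  omega

theorem blocks_far {L : ℤ} (hL0 : 0 < L) {u v q q' : Vtx} (h1 : Y994.MC.bk (2 * L) u = q)
    (h2 : Y994.MC.bk (2 * L) v = q') (h : 7 ≤ sd q q') : 12 * L ≤ sd u v := by
  obtain ⟨⟨a1, a2⟩, a3, a4⟩ := bk_div hL0 h1
  obtain ⟨⟨b1, b2⟩, b3, b4⟩ := bk_div hL0 h2
  have e1 : sd q q' = H984H.sd q q' := rfl
  have e2 : sd u v = H984H.sd u v := rfl
  rw [e1, H984H.det_sd_eq] at h
  rw [e2, H984H.det_sd_eq]
  have key : ∀ s t : ℤ, 7 ≤ s - t → t * (2 * L) + 14 * L ≤ s * (2 * L) := by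
    intro s t hst
    have : (t + 7) * (2 * L) ≤ s * (2 * L) := mul_le_mul_of_nonneg_right (by omega) (by omega)
    have e : (t + 7) * (2 * L) = t * (2 * L) + 14 * L := by ring
    omega
  have k1 := key q.1 q'.1
  have k2 := key q'.1 q.1
  have k3 := key q.2 q'.2
  have k4 := key q'.2 q.2
  omega

open Classical in
/-- Outside the exceptional events a piece of the path contains many slow places. -/
theorem many_det {M : ℝ} {m : ℕ} {D : Dm} (hD : D.Ok) {F : Finset Edg} (hF : F ⊆ D.edges)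
    {R L : ℤ} {W : ℕ} (hW : (W : ℤ) = 2 * L) (hR : 1 ≤ R) (hRL : 3 * R + 60 * m ≤ L)
    {N0 Nm : ℕ} (hNm : D.len F + 1 ≤ Nm) {k l : ℕ} (hkl : k ≤ l) (hl : l ≤ D.len F)
    (hbd : ∀ t, k ≤ t → t ≤ l → 4 * L ≤ D.bd (D.walk F t).1)
    (hn : ¬ HolesB D W (BdG (gS (5 * m) M) R L D) N0 Nm (Y994.MC.bk W (D.walk F k).1) F)
    (hA : 36 ≤ (vb D W F k l).card) (hA2 : N0 ≤ (vb D W F k l).card) (hM : 0 < M) :
    ∃ Z : Finset Vtx, (vb D W F k l).card ≤ 98 * Z.card ∧
      (∀ z ∈ Z, ∀ z' ∈ Z, z ≠ z' → 4 * (W : ℤ) ≤ sd z z') ∧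
      ∀ z ∈ Z, M ≤
        (((Finset.Icc k l).filter (fun t => sd z (D.walk F t).1 ≤ 5 * m)).card : ℝ) := by
  have hL0 : 0 < L := by omega
  have hW1 : 1 ≤ W := by
    have : (0 : ℤ) < W := by omega
    exact_mod_cast this
  have hW' : (1 : ℤ) ≤ W := by exact_mod_cast hW1
  have hg := gS_good (5 * m) M
  set g := gS (5 * m) M with hgdef
  set A := vb D W F k l with hAdef
  set Bb := A.filter (fun q => BdG g R L D q F) with hBd
  set G := A.filter (fun q => ¬ BdG g R L D q F) with hG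
  have c2 : Bb.card + G.card = A.card := card_filter_add_card_filter_not _
  have c4 : 4 * Bb.card ≤ max A.card N0 := by
    obtain ⟨c, hc⟩ := pigeon (le_refl Bb.card)
    by_contra hcon
    push Not at hcon
    apply hn
    obtain ⟨h2, h3⟩ := vb_AS (D := D) (F := F) hW1 hkl
    have h4 := vb_card (D := D) (F := F) (W := W) (k := k) hl
    rw [← hAdef] at h2 h3 h4
    refine ⟨A.card, mem_range.mpr ?_, A, h3, rfl, Bb.filter (fun q => cls q = c), ?_, ⟨?_, ?_, ?_⟩, ?_⟩
    · omega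
    · rw [mem_powerset]
      intro q hq
      exact (mem_filter.mp (mem_filter.mp hq).1).1
    · intro q hq r hr
      rw [(mem_filter.mp hq).2, (mem_filter.mp hr).2]
    · intro q hq
      exact vb_Bks hD hF hW1 (mem_filter.mp (mem_filter.mp hq).1).1
    · omega
    · intro q hq
      exact (mem_filter.mp (mem_filter.mp hq).1).2
  set ql := Y994.MC.bk W (D.walk F l).1 with hql
  set G1 := G \ nb9 ql with hG1
  have c5 : G.card ≤ G1.card + 9 := by
    have h1 := card_le_card_sdiff_add_card (s := G) (t := nb9 ql)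
    rw [card_nb9] at h1
    exact h1
  have c6 : A.card ≤ 2 * G1.card := by omega
  obtain ⟨c, hc⟩ := pigeon (le_refl G1.card)
  set G2 := G1.filter (fun q => cls q = c) with hG2
  -- the centres
  have hz : ∀ q ∈ G2, ∃ z : Vtx, (∃ u : Vtx, Y994.MC.bk (2 * L) u = q ∧ sd u z ≤ R + 1 + 5 * m) ∧
      M ≤ (((Finset.Icc k l).filter (fun t => sd z (D.walk F t).1 ≤ 5 * m)).card : ℝ) := by
    intro q hq
    have hq1 := (mem_filter.mp hq).1
    rw [hG1, mem_sdiff, hG, mem_filter] at hq1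
    obtain ⟨⟨hqA, hqB⟩, hqn⟩ := hq1
    rw [hAdef] at hqA
    unfold vb at hqA
    rw [mem_vset] at hqA
    obtain ⟨τ, t1, t2, t3⟩ := hqA
    have hfar : (W:ℤ) ≤ sd (D.walk F τ).1 (D.walk F l).1 := by
      by_contra hcon
      push Not at hcon
      apply hqn
      rw [mem_nb9]
      have h5 := bk_step hW' hcon.le
      rw [t3, ← hql] at h5
      refine le_trans (le_of_eq (H984H.det_sd_comm _ _)) h5
    rw [hW] at t3
    obtain ⟨t, ht, ⟨z, hzM⟩, hin⟩ := good_block hg hR (by omega) (F := F) t2 (hbd τ t1 t2) t3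
      (far_of_sd hfar (by omega)) hqB
    refine ⟨z, ⟨(D.walk F τ).1, t3, ?_⟩, hzM.trans ?_⟩
    · have hne : ((Finset.range (t + 1)).filter
          (fun s => sd z (D.walk F (τ + s)).1 ≤ 5 * m)).Nonempty := by
        rw [← Finset.card_pos]
        have : (0 : ℝ) < _ := lt_of_lt_of_le hM hzM
        exact_mod_cast this
      obtain ⟨s, hs⟩ := hne
      rw [mem_filter, mem_range] at hs
      have h6 := hin s (by omega)
      have h7 := hs.2
      have e1 : sd (D.walk F τ).1 z ≤ sd (D.walk F τ).1 (D.walk F (τ + s)).1 +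
        sd (D.walk F (τ + s)).1 z := H984H.det_sd_tri _ _ _
      have e2 : sd (D.walk F (τ + s)).1 z = sd z (D.walk F (τ + s)).1 := H984H.det_sd_comm _ _
      linarith
    · have h8 : ((Finset.range (t + 1)).filter
          (fun s => sd z (D.walk F (τ + s)).1 ≤ 5 * m)).card ≤
          ((Finset.Icc k l).filter (fun t => sd z (D.walk F t).1 ≤ 5 * m)).card := by
        refine card_le_card_of_injOn (fun s => τ + s) ?_ ?_
        · intro s hs
          have hs' := hs
          simp only [coe_filter, mem_range, Set.mem_ofPred_eq] at hs'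
          simp only [coe_filter, mem_Icc, Set.mem_ofPred_eq]
          exact ⟨⟨by omega, by omega⟩, hs'.2⟩
        · intro s _ s' _ h
          simp only at h
          omega
      exact_mod_cast h8
  choose! zf hzf using hz
  have hsep : ∀ q ∈ G2, ∀ q' ∈ G2, q ≠ q' → 4 * (W : ℤ) ≤ sd (zf q) (zf q') := by
    intro q hq q' hq' hne
    obtain ⟨⟨u, hu1, hu2⟩, -⟩ := hzf q hq
    obtain ⟨⟨u', hu1', hu2'⟩, -⟩ := hzf q' hq'
    have h7 : (7 : ℤ) ≤ sd q q' := cls_far (by
      rw [(mem_filter.mp hq).2, (mem_filter.mp hq').2]) hne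
    have h8 := blocks_far hL0 hu1 hu1' h7
    have t1 : sd u u' ≤ sd u (zf q) + sd (zf q) u' := H984H.det_sd_tri _ _ _
    have t2 : sd (zf q) u' ≤ sd (zf q) (zf q') + sd (zf q') u' := H984H.det_sd_tri _ _ _
    have t3 : sd (zf q') u' = sd u' (zf q') := H984H.det_sd_comm _ _
    rw [hW]
    generalize sd u u' = x1 at *
    generalize sd (zf q) u' = x2 at *
    generalize sd (zf q) (zf q') = x3 at *
    clear hn hbd hc c6 c5 c4 c2 hA hA2 hNm
    omega
  refine ⟨G2.image zf, ?_, ?_, ?_⟩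
  · rw [card_image_of_injOn]
    · omega
    · intro q hq q' hq' h
      by_contra hne
      have h1 := hsep q hq q' hq' hne
      rw [h] at h1
      have e4 : sd (zf q') (zf q') = 0 := H984H.det_sd_self _
      rw [e4] at h1
      linarith
  · intro z hz z' hz' hne
    rw [mem_image] at hz hz'
    obtain ⟨q, hq, rfl⟩ := hz
    obtain ⟨q', hq', rfl⟩ := hz'
    exact hsep q hq q' hq' (fun h => hne (by rw [h]))
  · intro z hz
    rw [mem_image] at hz
    obtain ⟨q, hq, rfl⟩ := hz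
    exact (hzf q hq).2

end Pool.Agent.Y995.HG
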