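import Mathlib

/-!
The gauge function `r ^ (7/4) (log log (1/r)) ^ (1/8)` and the scales.
-/

set_option autoImplicit false
set_option linter.unusedVariables false

namespace Pool.Agent.Y995.HG

open Filter Topology

/-- the gauge -/
noncomputable def ga (r : ℝ) : ℝ := r ^ (7/4 : ℝ) * Real.log (Real.log (1 / r)) ^ (1/8 : ℝ)

theorem ga_zero : ga 0 = 0 := by
  unfold ga
  rw [Real.zero_rpow (by norm_num), zero_mul]

theorem ll_ge {r : ℝ} (hr : 0 < r) (h : r ≤ Real.exp (-Real.exp 1)) :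
    Real.exp 1 ≤ Real.log (1 / r) ∧ 1 ≤ Real.log (Real.log (1 / r)) := by
  have h1 : Real.exp 1 ≤ Real.log (1 / r) := by
    rw [one_div, Real.log_inv, le_neg]
    have := Real.log_le_log hr h
    rwa [Real.log_exp] at this
  refine ⟨h1, ?_⟩
  rw [Real.le_log_iff_exp_le (lt_of_lt_of_le (Real.exp_pos _) h1)]
  exact h1

theorem ga_nonneg {r : ℝ} (hr : 0 ≤ r) (h : r ≤ Real.exp (-Real.exp 1)) : 0 ≤ ga r := by
  rcases hr.eq_or_lt with h0 | h0
  · rw [← h0, ga_zero]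
  · have := (ll_ge h0 h).2
    unfold ga
    have h1 : 0 ≤ Real.log (Real.log (1 / r)) := by linarith
    positivity

theorem ga_mono {d r : ℝ} (hd : 0 ≤ d) (hdr : d ≤ r) (h : r ≤ Real.exp (-Real.exp 1)) :
    ga d ≤ ga r := by
  rcases hd.eq_or_lt with h0 | h0
  · rw [← h0, ga_zero]
    exact ga_nonneg (h0 ▸ hdr) h
  have hr0 : 0 < r := lt_of_lt_of_le h0 hdr
  obtain ⟨hy1, hy2⟩ := ll_ge hr0 h
  obtain ⟨hx1, hx2⟩ := ll_ge h0 (hdr.trans h)
  obtain ⟨x, hx⟩ : ∃ x, x = Real.log (1 / d) := ⟨_, rfl⟩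
  obtain ⟨y, hy⟩ : ∃ y, y = Real.log (1 / r) := ⟨_, rfl⟩
  rw [← hx] at hx1 hx2
  rw [← hy] at hy1 hy2
  have he : 1 ≤ Real.exp 1 := Real.one_le_exp (by norm_num)
  have hy0 : 1 ≤ y := he.trans hy1
  have hxy : y ≤ x := by
    rw [hx, hy]
    exact Real.log_le_log (by positivity) (one_div_le_one_div_of_le h0 hdr)
  have ed : d = Real.exp (-x) := by rw [hx, one_div, Real.log_inv, neg_neg, Real.exp_log h0]
  have er : r = Real.exp (-y) := by rw [hy, one_div, Real.log_inv, neg_neg, Real.exp_log hr0]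
  have h1 : Real.log x ≤ Real.log y * (1 + (x - y)) := by
    have h2 : Real.log x = Real.log y + Real.log (x / y) := by
      rw [Real.log_div (by linarith) (by linarith)]; ring
    have h3 : Real.log (x / y) ≤ x / y - 1 :=
      Real.log_le_sub_one_of_pos (div_pos (by linarith) (by linarith))
    have h4 : x / y - 1 ≤ x - y := by
      rw [div_sub_one (by linarith), div_le_iff₀ (by linarith)]
      nlinarith
    have h5 : x - y ≤ Real.log y * (x - y) := by nlinarith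
    linarith
  have h6 : Real.log x ^ (1/8 : ℝ) ≤ Real.log y ^ (1/8 : ℝ) * Real.exp (7/4 * (x - y)) := by
    have h7 : 1 + (x - y) ≤ Real.exp (x - y) := by
      have := Real.add_one_le_exp (x - y)
      linarith
    calc Real.log x ^ (1/8 : ℝ) ≤ (Real.log y * Real.exp (x - y)) ^ (1/8 : ℝ) := by
          refine Real.rpow_le_rpow (by linarith) (h1.trans ?_) (by norm_num)
          exact mul_le_mul_of_nonneg_left h7 (by linarith)
      _ = Real.log y ^ (1/8 : ℝ) * Real.exp (1/8 * (x - y)) := by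
          rw [Real.mul_rpow (by linarith) (Real.exp_nonneg _), ← Real.exp_mul]
          congr 2
          ring
      _ ≤ _ := by
          refine mul_le_mul_of_nonneg_left (Real.exp_le_exp.mpr ?_)
            (Real.rpow_nonneg (by linarith) _)
          nlinarith
  unfold ga
  rw [← hx, ← hy, ed, er, ← Real.exp_mul, ← Real.exp_mul]
  calc Real.exp (-x * (7/4)) * Real.log x ^ (1/8 : ℝ)
      ≤ Real.exp (-x * (7/4)) * (Real.log y ^ (1/8 : ℝ) * Real.exp (7/4 * (x - y))) :=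
        mul_le_mul_of_nonneg_left h6 (Real.exp_nonneg _)
    _ = (Real.exp (-x * (7/4)) * Real.exp (7/4 * (x - y))) * Real.log y ^ (1/8 : ℝ) := by ring
    _ = Real.exp (-y * (7/4)) * Real.log y ^ (1/8 : ℝ) := by
        rw [← Real.exp_add]
        congr 2
        ring

/-! ### The scales -/

/-- radius -/
noncomputable def ww (i : ℕ) : ℝ := (1/2) ^ (4 * i ^ 2)

/-- level -/
def lv (i : ℕ) : ℕ := 7 * i ^ 2 - i

/-- number of slow places -/
def NN (i : ℕ) : ℕ := 2 ^ i / (Nat.sqrt i + 1)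

/-- number of teeth of the combs -/
noncomputable def kq (K3 : ℝ) (i : ℕ) : ℕ := Nat.sqrt ⌊Real.log i / (14 * K3)⌋₊

theorem lv_eq (i : ℕ) : lv i + i = 7 * i ^ 2 := by
  unfold lv
  have : i ≤ 7 * i ^ 2 := by nlinarith [Nat.zero_le i, Nat.le_self_pow (n := 2) (by norm_num) i]
  omega

theorem lv_succ (i : ℕ) : lv (i + 1) = lv i + (14 * i + 6) := by
  have h1 := lv_eq i
  have h2 := lv_eq (i + 1)
  have h3 : 7 * (i + 1) ^ 2 = 7 * i ^ 2 + 14 * i + 7 := by ring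
  omega

theorem ww_pos (i : ℕ) : 0 < ww i := by unfold ww; positivity

theorem ww_pow (i : ℕ) : ww i ^ (7/4 : ℝ) = (1/2) ^ (7 * i ^ 2) := by
  unfold ww
  rw [← Real.rpow_natCast, ← Real.rpow_natCast, ← Real.rpow_mul (by norm_num)]
  congr 1
  push_cast
  ring

theorem lv_pow (i : ℕ) : ((1:ℝ)/2) ^ lv i = (1/2) ^ (7 * i ^ 2) * 2 ^ i := by
  rw [← lv_eq i, pow_add, mul_assoc, ← mul_pow]
  norm_num

theorem sq_le (i : ℕ) : ((Nat.sqrt i : ℕ) : ℝ) ≤ Real.sqrt i := by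
  refine Real.le_sqrt_of_sq_le ?_
  have : Nat.sqrt i * Nat.sqrt i ≤ i := Nat.sqrt_le i
  have h : (((Nat.sqrt i * Nat.sqrt i : ℕ)) : ℝ) ≤ i := by exact_mod_cast this
  push_cast at h
  rw [sq]
  exact h

theorem sq_ge (i : ℕ) : Real.sqrt i ≤ ((Nat.sqrt i : ℕ) : ℝ) + 1 := by
  refine Real.sqrt_le_iff.mpr ⟨by positivity, ?_⟩
  have : i < (Nat.sqrt i + 1) * (Nat.sqrt i + 1) := Nat.lt_succ_sqrt i
  have h : (i : ℝ) < (((Nat.sqrt i + 1) * (Nat.sqrt i + 1) : ℕ) : ℝ) := by exact_mod_cast this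
  push_cast at h
  nlinarith

theorem NN_le (i : ℕ) : (NN i : ℝ) * (((Nat.sqrt i : ℕ) : ℝ) + 1) ≤ 2 ^ i := by
  have h : NN i * (Nat.sqrt i + 1) ≤ 2 ^ i := Nat.div_mul_le_self _ _
  exact_mod_cast h

theorem NN_ge (i : ℕ) : (2:ℝ) ^ i ≤ 2 * ((NN i : ℝ) * (((Nat.sqrt i : ℕ) : ℝ) + 1)) := by
  have h1 : 2 ^ i < (NN i + 1) * (Nat.sqrt i + 1) := by
    have := Nat.lt_mul_div_succ (2 ^ i) (show 0 < Nat.sqrt i + 1 by omega)
    unfold NN
    rw [mul_comm]
    exact this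
  have h3 : Nat.sqrt i + 1 ≤ 2 ^ i := by
    have h4 : Nat.sqrt i ≤ i := Nat.sqrt_le_self i
    have h5 : i < 2 ^ i := Nat.lt_two_pow_self
    omega
  have h2 : 1 ≤ NN i := by
    unfold NN
    rw [Nat.le_div_iff_mul_le (by omega)]
    omega
  have h6 : 2 ^ i ≤ 2 * (NN i * (Nat.sqrt i + 1)) := by
    have : (NN i + 1) * (Nat.sqrt i + 1) ≤ (2 * NN i) * (Nat.sqrt i + 1) :=
      Nat.mul_le_mul_right _ (by omega)
    have e : (2 * NN i) * (Nat.sqrt i + 1) = 2 * (NN i * (Nat.sqrt i + 1)) := by ring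
    omega
  exact_mod_cast h6

theorem pow_big : ∀ i : ℕ, 20 ≤ i → (i + 1) * (8 * i ^ 2 + 3 * i + 36) ≤ 2 ^ i := by
  intro i hi
  induction i, hi using Nat.le_induction with
  | base => norm_num
  | succ n hn ih =>
    have e1 : 20 * n ^ 2 ≤ n ^ 3 := by
      have : n ^ 3 = n * n ^ 2 := by ring
      rw [this]
      exact Nat.mul_le_mul_right _ hn
    have e2 : 20 * n ≤ n ^ 2 := by
      rw [sq]
      exact Nat.mul_le_mul_right _ hn
    have e3 : (n + 1 + 1) * (8 * (n + 1) ^ 2 + 3 * (n + 1) + 36) =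
        8 * n ^ 3 + 35 * n ^ 2 + 85 * n + 94 := by ring
    have e4 : 2 * ((n + 1) * (8 * n ^ 2 + 3 * n + 36)) =
        16 * n ^ 3 + 22 * n ^ 2 + 78 * n + 72 := by ring
    have e5 : 2 ^ (n + 1) = 2 * 2 ^ n := by ring
    rw [e3, e5]
    omega

theorem NN_big {i : ℕ} (hi : 20 ≤ i) : 8 * i ^ 2 + 3 * i + 36 ≤ NN i := by
  unfold NN
  rw [Nat.le_div_iff_mul_le (by omega)]
  refine le_trans ?_ (pow_big i hi)
  rw [mul_comm]
  exact Nat.mul_le_mul_right _ (by have := Nat.sqrt_le_self i; omega)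

/-- probability bound -/
theorem pr_bound {A : ℝ} (hA : 0 < A) {i : ℕ} (hi : 20 ≤ i) :
    A / ww i ^ 2 * (1/2) ^ NN i ≤ A * Real.exp (-2 * (1 * (i : ℝ))) := by
  have h1 : ((1:ℝ)/2) ^ NN i ≤ (1/2) ^ (8 * i ^ 2 + 3 * i) :=
    pow_le_pow_of_le_one (by norm_num) (by norm_num) (by have := NN_big hi; omega)
  have h2 : ((1:ℝ)/2) ^ (8 * i ^ 2 + 3 * i) = ww i ^ 2 * (1/2) ^ (3 * i) := by
    unfold ww
    rw [← pow_mul, ← pow_add]
    congr 1
    ring
  have h3 : ((1:ℝ)/2) ^ (3 * i) ≤ Real.exp (-2 * (1 * (i : ℝ))) := by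
    have e : Real.exp (-2 * (1 * (i : ℝ))) = (Real.exp (-2)) ^ i := by
      rw [← Real.exp_nat_mul]; congr 1; ring
    rw [e, pow_mul]
    refine pow_le_pow_left₀ (by norm_num) ?_ _
    have h4 : Real.exp 2 ≤ 8 := by
      have h5 : Real.exp 2 = Real.exp 1 ^ 2 := by rw [← Real.exp_nat_mul]; norm_num
      rw [h5]
      have := Real.exp_one_lt_d9
      have h6 := Real.exp_pos 1
      nlinarith
    rw [Real.exp_neg]
    have h7 : (8:ℝ)⁻¹ ≤ (Real.exp 2)⁻¹ := inv_anti₀ (Real.exp_pos _) h4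
    norm_num at h7 ⊢
    exact h7
  have hw := ww_pos i
  calc A / ww i ^ 2 * (1/2) ^ NN i ≤ A / ww i ^ 2 * (ww i ^ 2 * (1/2) ^ (3 * i)) := by
        rw [← h2]
        exact mul_le_mul_of_nonneg_left h1 (by positivity)
    _ = A * (1/2) ^ (3 * i) := by field_simp
    _ ≤ _ := mul_le_mul_of_nonneg_left h3 hA.le

theorem kq_sq {K3 : ℝ} (hK : 1 ≤ K3) {i : ℕ} (hi : 1 ≤ i) :
    14 * K3 * ((kq K3 i : ℕ) : ℝ) ^ 2 ≤ Real.log i := by
  have hi' : (1:ℝ) ≤ i := by exact_mod_cast hi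
  have hl : 0 ≤ Real.log i := Real.log_nonneg hi'
  have h1 : kq K3 i * kq K3 i ≤ ⌊Real.log i / (14 * K3)⌋₊ := Nat.sqrt_le _
  have h2 : ((⌊Real.log i / (14 * K3)⌋₊ : ℕ) : ℝ) ≤ Real.log i / (14 * K3) :=
    Nat.floor_le (by positivity)
  have h3 : (((kq K3 i * kq K3 i : ℕ)) : ℝ) ≤ Real.log i / (14 * K3) :=
    le_trans (by exact_mod_cast h1) h2
  rw [le_div_iff₀ (by positivity)] at h3
  push_cast at h3
  nlinarith

theorem kq_tend {K3 : ℝ} (hK : 1 ≤ K3) : Tendsto (kq K3) atTop atTop := by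
  have h1 : Tendsto (fun i : ℕ => Real.log i / (14 * K3)) atTop atTop :=
    (Real.tendsto_log_atTop.comp tendsto_natCast_atTop_atTop).atTop_div_const (by linarith)
  have h2 := tendsto_nat_floor_atTop.comp h1
  have h3 : Tendsto Nat.sqrt atTop atTop := by
    refine tendsto_atTop.2 fun b => ?_
    filter_upwards [eventually_ge_atTop (b * b)] with n hn
    exact Nat.le_sqrt.mpr hn
  exact h3.comp h2

/-- `exp (2 K3 kk²)` is a small power -/
theorem ex_le {K3 : ℝ} (hK : 1 ≤ K3) {i : ℕ} (hi : 1 ≤ i) :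
    Real.exp (2 * (K3 * ((kq K3 i : ℕ) : ℝ) ^ 2)) ^ (7/4 : ℝ) ≤ (i : ℝ) ^ (1/4 : ℝ) := by
  have hi' : (1:ℝ) ≤ i := by exact_mod_cast hi
  rw [← Real.exp_mul, Real.rpow_def_of_pos (by linarith)]
  refine Real.exp_le_exp.mpr ?_
  have := kq_sq hK hi
  linarith

theorem ex_le' {K3 : ℝ} (hK : 1 ≤ K3) {i : ℕ} (hi : 1 ≤ i) :
    Real.exp (2 * (K3 * ((kq K3 i : ℕ) : ℝ) ^ 2)) ≤ i := by
  have hi' : (1:ℝ) ≤ i := by exact_mod_cast hi
  have h1 := kq_sq hK hi
  have h2 : 2 * (K3 * ((kq K3 i : ℕ) : ℝ) ^ 2) ≤ Real.log i := by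
    have : 0 ≤ K3 * ((kq K3 i : ℕ) : ℝ) ^ 2 := by positivity
    linarith
  calc _ ≤ Real.exp (Real.log i) := Real.exp_le_exp.mpr h2
    _ = i := Real.exp_log (by linarith)

end Pool.Agent.Y995.HG
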