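import Pool.Agent.Y995.FS.BulkG
import Pool.Agent.Y994.MD.LowB

/-!
Block events for general properties of strands.
-/

set_option autoImplicit false

namespace Pool.Agent.Y995.HG

open H974 Finset H342P H984P H984N TH992.L Y994.MC Y994.MD Pool.Agent.Y995.FS

/-- The bad event of the block `q` of side `2 L`. -/
def BdG (g : (ℕ → Vtx) → ℕ → Prop) (R L : ℤ) (D : Dm) (q : Vtx) (F : Finset Edg) : Prop :=
  RE (q.1 * (2 * L) - L) (q.1 * (2 * L) - L + 4 * L) (q.2 * (2 * L) - L)
    (q.2 * (2 * L) - L + 4 * L) ⊆ D.edges ∧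
  sqG g R L (q.1 * (2 * L) - L) (q.2 * (2 * L) - L) F

theorem box_Lam {D : Dm} {L : ℤ} {W : ℕ} (hW : (W : ℤ) = 2 * L) (hL0 : 0 < L) {q : Vtx}
    (h : RE (q.1 * (2 * L) - L) (q.1 * (2 * L) - L + 4 * L) (q.2 * (2 * L) - L)
      (q.2 * (2 * L) - L + 4 * L) ⊆ D.edges) :
    RE (q.1 * (2 * L) - L) (q.1 * (2 * L) - L + 4 * L) (q.2 * (2 * L) - L)
      (q.2 * (2 * L) - L + 4 * L) ⊆ Pool.Agent.Y985.ME.Lam D W q := by
  intro e he
  have h1 := h he
  unfold Dm.edges at h1
  unfold Pool.Agent.Y985.ME.Lam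
  rw [hW]
  obtain ⟨x, y, b⟩ := e
  obtain ⟨a1, ha1⟩ : ∃ a1, a1 = q.1 * (2 * L) := ⟨_, rfl⟩
  obtain ⟨a2, ha2⟩ : ∃ a2, a2 = q.2 * (2 * L) := ⟨_, rfl⟩
  rw [← ha1, ← ha2] at he
  rw [← ha1, ← ha2]
  cases b
  · rw [mem_RE_false] at he h1 ⊢
    omega
  · rw [mem_RE_true] at he h1 ⊢
    omega

theorem bdG_BF {g : (ℕ → Vtx) → ℕ → Prop} (hg : PGood g) {D : Dm} {R L : ℤ} {W m n : ℕ}
    (hW : (W : ℤ) = 2 * L) (hL0 : 0 < L) (hn : (n : ℤ) = 4 * L) (hL : L = 3 * R + 60 * m)
    (hpr : Pr (fun _ => (1/2:ℝ)) (RE 0 n 0 n) (fun F => ∃ (σ : St) (t : ℕ),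
      inR (3 * R + 60 * m) (n - 3 * R - 60 * m) (3 * R + 60 * m) (n - 3 * R - 60 * m) σ.1 ∧
      Far σ.1 R (orb (↑F) σ t).1 ∧ ¬ g (fun s => (orb (↑F) σ s).1) t) ≤ (1/648) ^ 196) :
    BF D W 0 (BdG g R L D) := by
  classical
  refine ⟨?_, ?_, ?_⟩
  · intro q F
    unfold BdG
    refine and_congr_right fun h => ?_
    unfold sqG
    rw [inter_assoc, inter_eq_right.mpr (box_Lam hW hL0 h)]
  · intro q _
    by_cases h : RE (q.1 * (2 * L) - L) (q.1 * (2 * L) - L + 4 * L) (q.2 * (2 * L) - L)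
      (q.2 * (2 * L) - L + 4 * L) ⊆ D.edges
    · refine le_trans (Pr_mono (okq (by norm_num) (by norm_num)) (B := sqG g R L
        (q.1 * (2 * L) - L) (q.2 * (2 * L) - L)) (fun F _ h => h.2)) ?_
      exact (sqG_pr hg hn hL h).trans hpr
    · have h0 : Pr (fun _ => (1/2:ℝ)) D.edges (BdG g R L D q) = 0 := by
        unfold Pr
        rw [Ex_congr (g := fun _ => 0) (fun F _ => ind_not_of (fun hh => h hh.1)), Ex_const]
      rw [h0]
      positivity
  · intro F _ q _ k l _ _ _ _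
    exact Nat.zero_le _

theorem bk_div {L : ℤ} (hL0 : 0 < L) {v q : Vtx} (h : Y994.MC.bk (2 * L) v = q) :
    (q.1 * (2 * L) ≤ v.1 ∧ v.1 < q.1 * (2 * L) + 2 * L) ∧
      (q.2 * (2 * L) ≤ v.2 ∧ v.2 < q.2 * (2 * L) + 2 * L) := by
  subst h
  unfold Y994.MC.bk
  simp only
  have a1 : 2 * L * (v.1 / (2 * L)) ≤ v.1 := Int.mul_ediv_self_le (by omega)
  have a2 : v.1 < 2 * L * (v.1 / (2 * L)) + 2 * L := Int.lt_mul_ediv_self_add (by omega)
  have b1 : 2 * L * (v.2 / (2 * L)) ≤ v.2 := Int.mul_ediv_self_le (by omega)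
  have b2 : v.2 < 2 * L * (v.2 / (2 * L)) + 2 * L := Int.lt_mul_ediv_self_add (by omega)
  rw [mul_comm (v.1 / (2 * L)), mul_comm (v.2 / (2 * L))]
  exact ⟨⟨a1, a2⟩, b1, b2⟩

/-- Near a block which is not bad the strands are good. -/
theorem good_block {g : (ℕ → Vtx) → ℕ → Prop} (hg : PGood g) {D : Dm} {R L : ℤ} (hR : 1 ≤ R)
    (hRL : 3 * R ≤ L) {F : Finset Edg} {q : Vtx} {k l0 : ℕ} (hkl : k ≤ l0)
    (hbd : 4 * L ≤ D.bd (D.walk F k).1)
    (hq : Y994.MC.bk (2 * L) (D.walk F k).1 = q) (hfar : Far (D.walk F k).1 R (D.walk F l0).1)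
    (hB : ¬ BdG g R L D q F) :
    ∃ t, t ≤ l0 - k ∧ g (fun s => (D.walk F (k + s)).1) t ∧
      ∀ s ≤ t, sd (D.walk F k).1 (D.walk F (k + s)).1 ≤ R + 1 := by
  classical
  have hL : 0 < L := by omega
  have hqv := bk_div hL hq
  set v := (D.walk F k).1 with hv
  unfold Dm.bd at hbd
  rw [le_min_iff, le_min_iff, le_min_iff] at hbd
  obtain ⟨⟨b1, b2⟩, b3, b4⟩ := hbd
  set b := q.1 * (2 * L) - L with hb
  set c := q.2 * (2 * L) - L with hc
  have hbox : RE b (b + 4 * L) c (c + 4 * L) ⊆ D.edges := by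
    unfold Dm.edges
    exact RE_subset (by omega) (by omega) (by omega) (by omega)
  have hnsq : ¬ sqG g R L b c F := fun h => hB ⟨hbox, h⟩
  have hex : ∃ t, Far v R (orb (D.cfg F) (D.walk F k) t).1 := by
    refine ⟨l0 - k, ?_⟩
    rw [← bulk_walk, Nat.add_sub_cancel' hkl]
    exact hfar
  have ht0 : Nat.find hex ≤ l0 - k := by
    apply Nat.find_min' hex
    rw [← bulk_walk, Nat.add_sub_cancel' hkl]
    exact hfar
  have hcong : ∀ s ≤ Nat.find hex, orb (↑(F ∩ RE b (b + 4 * L) c (c + 4 * L)) : Set Edg)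
      (D.walk F k) s = orb (D.cfg F) (D.walk F k) s := by
    intro s0 hs0
    refine orb_congr (T := Nat.find hex) ?_ hs0
    intro e he
    rw [mem_Exm] at he
    obtain ⟨s, hs, rfl⟩ := he
    have hnf := Nat.find_min hex hs
    generalize orb (D.cfg F) (D.walk F k) s = w at hnf ⊢
    unfold Far at hnf
    push Not at hnf
    have hin : ae w ∈ RE b (b + 4 * L) c (c + 4 * L) := by
      obtain ⟨⟨x, y⟩, q⟩ := w
      cases q
      · rw [ae_ne, mem_RE_true]; simp only at hnf; omega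
      · rw [ae_nw, mem_RE_false]; simp only at hnf; omega
      · rw [ae_sw, mem_RE_true]; simp only at hnf; omega
      · rw [ae_se, mem_RE_false]; simp only at hnf; omega
    have hnw : ae w ∉ D.wir := by
      intro hw
      unfold Dm.wir at hw
      obtain ⟨⟨x, y⟩, q⟩ := w
      simp only at hnf
      cases q
      · rw [ae_ne] at hw
        rcases hw with ⟨-, h2, -⟩ | ⟨h1, -⟩ | ⟨-, h2, -⟩
        · simp only at h2; omega
        · simp at h1
        · simp only at h2; omega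
      · rw [ae_nw] at hw
        rcases hw with ⟨h1, -⟩ | ⟨-, h2, -⟩ | ⟨h1, -⟩
        · simp at h1
        · simp only at h2; omega
        · simp at h1
      · rw [ae_sw] at hw
        rcases hw with ⟨-, h2, -⟩ | ⟨h1, -⟩ | ⟨-, h2, -⟩
        · simp only at h2; omega
        · simp at h1
        · simp only at h2; omega
      · rw [ae_se] at hw
        rcases hw with ⟨h1, -⟩ | ⟨-, h2, -⟩ | ⟨h1, -⟩
        · simp at h1
        · simp only at h2; omega
        · simp at h1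
    unfold Dm.cfg
    rw [Finset.coe_inter]
    constructor
    · rintro (h | h)
      · exact ⟨h, hin⟩
      · exact absurd h hnw
    · rintro ⟨h, -⟩
      exact Or.inl h
  refine ⟨Nat.find hex, ht0, ?_, ?_⟩
  · by_contra hcon
    apply hnsq
    refine ⟨D.walk F k, Nat.find hex, ?_, ?_, ?_⟩
    · unfold inR
      rw [← hv]
      omega
    · rw [hcong _ le_rfl, ← hv]
      exact Nat.find_spec hex
    · intro hh
      apply hcon
      refine hg.congr _ _ _ ?_ hh
      intro s hs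
      rw [hcong s hs, ← bulk_walk]
  · intro s hs
    have hstep : ∀ s : ℕ, s < Nat.find hex → sd v (D.walk F (k + s)).1 ≤ R := by
      intro s hs
      have hnf := Nat.find_min hex hs
      rw [← bulk_walk] at hnf
      generalize D.walk F (k + s) = w at hnf ⊢
      unfold Far at hnf
      push Not at hnf
      have e : sd v w.1 = H984H.sd v w.1 := rfl
      rw [e, H984H.det_sd_eq]
      omega
    rcases Nat.lt_or_ge s (Nat.find hex) with h | h
    · have := hstep s h; omega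
    · have hs' : s = Nat.find hex := le_antisymm hs h
      rcases Nat.eq_zero_or_pos s with h0 | h0
      · subst h0
        have e : sd v (D.walk F (k + 0)).1 = H984H.sd v (D.walk F (k + 0)).1 := rfl
        rw [e, H984H.det_sd_eq, Nat.add_zero, ← hv]
        omega
      · have h1 := hstep (s - 1) (by omega)
        have h2 := walk_step D F (k + (s - 1))
        rw [show k + (s - 1) + 1 = k + s by omega] at h2
        have e1 : sd v (D.walk F (k + (s - 1))).1 = H984H.sd v (D.walk F (k + (s - 1))).1 := rfl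
        have e2 : sd v (D.walk F (k + s)).1 = H984H.sd v (D.walk F (k + s)).1 := rfl
        have e3 : sd (D.walk F (k + (s - 1))).1 (D.walk F (k + s)).1 =
          H984H.sd (D.walk F (k + (s - 1))).1 (D.walk F (k + s)).1 := rfl
        rw [e1, H984H.det_sd_eq] at h1
        rw [e3, H984H.det_sd_eq] at h2
        rw [e2, H984H.det_sd_eq]
        omega

end Pool.Agent.Y995.HG
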