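import Pool.Agent.Y995.HG.Up2
import Pool.Agent.Y995.FS.LimF2
import Pool.Agent.Y985.ME.Top

/-!
Upper bound for the gauge measure of the arcs of the limits.
-/

set_option autoImplicit false
set_option linter.unusedVariables false

namespace Pool.Agent.Y995.HG

open H974 Finset H342P H984P H984N Pool.Agent.Y995.FS MeasureTheory Filter Topology
open scoped ENNReal NNReal

/-- Upper bound: all arcs of all limits, universal constant. -/
theorem up_fin {c C C2 : ℝ} (hc : 0 < c) (hC : 0 < C) (hL : LowA c (1/4)) (hU : TwoUp C (1/4))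
    (hC2 : 0 < C2) (hA : AnnUp C2) : ∃ Cu : ℝ, 0 < Cu ∧ ∀ R : Rect,
    ∀ δ : ℕ → ℝ, (∀ i, 0 < δ i) → Tendsto δ atTop (𝓝 0) → ∀ μ : ProbabilityMeasure X,
      Tendsto (fun i => R.law (δ i)) atTop (𝓝 μ) →
      ∀ᵐ p ∂(μ : Measure X), ∀ s t : unitInterval, s ≤ t →
        Measure.mkMetric gm (p.1 '' Set.Icc s t) ≤ ENNReal.ofReal (Cu * p.2 * ((t : ℝ) - s)) := by
  obtain ⟨κ, K3, A0, hκ, hK3, hA0, hml⟩ := many_lat hc hC hL hU
  refine ⟨6 ^ (7/4 : ℝ) * (224 * K3) ^ (1/8 : ℝ) / κ, by positivity, fun R => ?_⟩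
  intro δ hδ hlim μ hμ
  obtain ⟨A, hA1, hb⟩ := hml R
  obtain ⟨-, -, h3⟩ := final_of hc hC hL hU hC2 hA R
  obtain ⟨C1, hC1, hup⟩ := Pool.Agent.Y985.ME.mod_up R
  have hbc := bc R (K := 1) le_rfl (B := fun ρ j => BadI κ K3 A0 R ρ j)
    (fun ρ j => badN_open R _ _ _ _ _)
    (fun ρ hρ => by
      have h1 : ∀ᶠ i : ℕ in atTop, 20 ≤ i ∧ 20 ≤ kq K3 i ∧
          A0 * (ww i * Real.exp (2 * (K3 * ((kq K3 i : ℕ) : ℝ) ^ 2))) ≤ ρ :=
        (eventually_ge_atTop 20).and (((kq_tend hK3).eventually (eventually_ge_atTop 20)).and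
          (ev_rho hK3 (by linarith) hρ))
      rw [eventually_atTop] at h1
      obtain ⟨j1, hj1⟩ := h1
      refine ⟨A, j1, hA1, fun j hj => ?_⟩
      obtain ⟨g1, g2, g3⟩ := hj1 j hj
      obtain ⟨δ1, hδ1, h4⟩ := hb (kq K3 j) (NN j) (ww j) ρ g2
        (by have := NN_big g1; omega) (ww_pos j)
        ((ww_le (by omega)).trans (by
          have : ((1:ℝ)/2) ^ (2 * j) ≤ (1/2) ^ 1 :=
            pow_le_pow_of_le_one (by norm_num) (by norm_num) (by omega)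
          simpa using this)) g3
      refine ⟨δ1, hδ1, fun δ hδ hδ' => ?_⟩
      exact (h4 δ hδ hδ').trans (pr_bound hA1 g1))
    hδ hlim hμ
  filter_upwards [h3 δ hδ hlim μ hμ, hbc, hup δ hδ hlim μ hμ] with p g1 g2 g3 s t hst
  obtain ⟨h0, hh0, g4⟩ := g3
  exact up_all hκ hK3 (by linarith) g1.1 hC1 hh0 g4 g2 (fun s => g1.2.2.2.1 s) hst

end Pool.Agent.Y995.HG
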