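import Pool.Agent.Y995.HG.LowMD
import Pool.Agent.Y995.HG.UpFin

/-!
Exact Hausdorff gauge of the limits of the exploration path.
-/

set_option autoImplicit false
set_option linter.unusedVariables false

namespace Pool.Agent.Y995.HG

open H974 Finset H342P H984P H984N Pool.Agent.Y995.FS MeasureTheory Filter Topology
open scoped ENNReal

/-- The Hausdorff measure with the gauge `r ^ (7/4) (log log (1/r)) ^ (1/8)` of all arcs is
comparable with the natural time, with universal constants. -/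
theorem gauge_exact : ∃ c C : ℝ, 0 < c ∧ 0 < C ∧ ∀ R : Rect,
    (∀ δ : ℕ → ℝ, (∀ i, 0 < δ i) → Tendsto δ atTop (𝓝 0) →
      ∃ φ : ℕ → ℕ, StrictMono φ ∧ ∃ μ : ProbabilityMeasure X,
        Tendsto (fun i => R.law (δ (φ i))) atTop (𝓝 μ)) ∧
    ∀ δ : ℕ → ℝ, (∀ i, 0 < δ i) → Tendsto δ atTop (𝓝 0) → ∀ μ : ProbabilityMeasure X,
      Tendsto (fun i => R.law (δ i)) atTop (𝓝 μ) →
      ∀ᵐ p ∂(μ : Measure X), 0 < p.2 ∧ ∀ s t : unitInterval, s ≤ t →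
        ENNReal.ofReal (c * p.2 * ((t : ℝ) - s)) ≤ Measure.mkMetric gm (p.1 '' Set.Icc s t) ∧
        Measure.mkMetric gm (p.1 '' Set.Icc s t) ≤ ENNReal.ofReal (C * p.2 * ((t : ℝ) - s)) := by
  obtain ⟨⟨c, hc, hL⟩, ⟨C, hC, hU⟩, C2, hC2, hA⟩ := Pool.Agent.Y985.ME.inputs
  obtain ⟨Cu, hCu, hup⟩ := up_fin hc hC hL hU hC2 hA
  obtain ⟨l, hl, hlow⟩ := occ_lat hC hU
  refine ⟨1 / Cl l, Cu, by have := Cl_pos hl; positivity, hCu, fun R => ?_⟩
  obtain ⟨-, h2, h3⟩ := final_of hc hC hL hU hC2 hA R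
  obtain ⟨A, w0, hA1, hw0, hlat⟩ := hlow R
  refine ⟨h2, fun δ hδ hlim μ hμ => ?_⟩
  filter_upwards [h3 δ hδ hlim μ hμ, hup R δ hδ hlim μ hμ, go_ae hl hA1 hw0 hlat hδ hlim hμ]
    with p g1 g2 g3
  exact ⟨g1.1, fun s t hst => ⟨low_all hl g1.1 (times_ae hl g1.1 g3) hst, g2 s t hst⟩⟩

end Pool.Agent.Y995.HG
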