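import Pool.Agent.Y995.HG.LimM

/-!
Long pieces contain many slow places: probability at mesh `δ`.
-/

set_option autoImplicit false
set_option linter.unusedVariables false

namespace Pool.Agent.Y995.HG

open H974 Finset H342P H984P H984N TH992.L Y994.MC Pool.Agent.Y995.FS MeasureTheory Filter Topology

theorem many_lat {c C : ℝ} (hc : 0 < c) (hC : 0 < C) (hL : LowA c (1/4)) (hU : TwoUp C (1/4)) :
    ∃ κ K3 A0 : ℝ, 0 < κ ∧ 1 ≤ K3 ∧ 1 ≤ A0 ∧ ∀ R : Rect, ∃ A : ℝ, 0 < A ∧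
      ∀ (kk N : ℕ) (w ρ : ℝ), 20 ≤ kk → 36 ≤ N → 0 < w → w ≤ 1/2 →
        A0 * (w * Real.exp (2 * (K3 * (kk:ℝ) ^ 2))) ≤ ρ → ∃ δ1 : ℝ, 0 < δ1 ∧
        ∀ δ : ℝ, 0 < δ → δ ≤ δ1 →
          R.prob δ (fun F => (R.curve δ F, R.time δ F) ∈ BadN R ρ w
            (κ * ((kk : ℝ) ^ (1/4 : ℝ) * w ^ (7/4 : ℝ)))
            (A0 * ((w * Real.exp (2 * (K3 * (kk:ℝ) ^ 2))) ^ (7/4 : ℝ) * N)) N) ≤
            A / w ^ 2 * (1/2) ^ N := by
  obtain ⟨K3, A1, K1, hK3, hA1, hK1, hpr⟩ := many_pr hc hC hL hU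
  obtain ⟨κ, hκ⟩ : ∃ κ : ℝ, κ = c / 5 * (1 / 24) ^ (7/4 : ℝ) := ⟨_, rfl⟩
  have hκ0 : 0 < κ := by rw [hκ]; positivity
  obtain ⟨A0, hA0⟩ : ∃ A0 : ℝ, A0 = max A1 (A1 ^ (7/4 : ℝ) * K1 * 98 + 2) := ⟨_, rfl⟩
  have hA01 : A1 ≤ A0 := by rw [hA0]; exact le_max_left _ _
  have hA02 : A1 ^ (7/4 : ℝ) * K1 * 98 + 2 ≤ A0 := by rw [hA0]; exact le_max_right _ _
  refine ⟨κ, K3, A0, hκ0, hK3, hA1.trans hA01, fun R => ?_⟩
  obtain ⟨κs, S, δs, -, hS, hδs, -, hsh⟩ := R.shape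
  refine ⟨20 * (S + 1) ^ 2, by positivity, ?_⟩
  intro kk N w ρ hkk20 hN hw0 hw1 hρ
  obtain ⟨EE, hEE⟩ : ∃ EE : ℝ, EE = Real.exp (2 * (K3 * (kk:ℝ) ^ 2)) := ⟨_, rfl⟩
  have hEE1 : 1 ≤ EE := by rw [hEE]; exact Real.one_le_exp (by positivity)
  have hEE0 : 0 < EE := by linarith
  rw [← hEE] at hρ ⊢
  have hkR : (20 : ℝ) ≤ kk := by exact_mod_cast hkk20
  have hk0 : (0 : ℝ) < kk := by linarith
  have hNR : (36 : ℝ) ≤ N := by exact_mod_cast hN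
  obtain ⟨η, hη⟩ : ∃ η : ℝ, η = c / 5 * (w / 24) ^ (7/4 : ℝ) := ⟨_, rfl⟩
  have hη0 : 0 < η := by rw [hη]; positivity
  obtain ⟨δ2, hδ2, hδ2'⟩ : ∃ δ2 : ℝ, 0 < δ2 ∧ ∀ δ : ℝ, 0 < δ → δ ≤ δ2 → δ ^ (7/4 : ℝ) ≤ η := by
    refine ⟨η ^ (4/7 : ℝ), by positivity, fun δ hδ hle => ?_⟩
    have h2 := Real.rpow_le_rpow hδ.le hle (show (0 : ℝ) ≤ 7/4 by norm_num)
    rw [← Real.rpow_mul hη0.le] at h2
    norm_num at h2
    exact h2
  refine ⟨min (min δs δ2) (w / (240 * kk)), lt_min (lt_min hδs hδ2) (by positivity),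
    fun δ hδ hδ' => ?_⟩
  have hδa : δ ≤ δs := hδ'.trans ((min_le_left _ _).trans (min_le_left _ _))
  have hδb : δ ≤ δ2 := hδ'.trans ((min_le_left _ _).trans (min_le_right _ _))
  have hδc : δ ≤ w / (240 * kk) := hδ'.trans (min_le_right _ _)
  have hδ3 : 240 * kk * δ ≤ w := by
    rw [le_div_iff₀ (by positivity)] at hδc
    linarith
  have hδ4 : 4800 * δ ≤ w := by nlinarith
  have hη2 := hδ2' δ hδ hδb
  obtain ⟨b, hb⟩ : ∃ b : ℕ, b = ⌊w / (12 * δ * kk)⌋₊ := ⟨_, rfl⟩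
  have hb1 : (b : ℝ) ≤ w / (12 * δ * kk) := by rw [hb]; exact Nat.floor_le (by positivity)
  have hb2 : w / (12 * δ * kk) < b + 1 := by rw [hb]; exact Nat.lt_floor_add_one _
  have hb3 : 20 ≤ w / (12 * δ * kk) := by rw [le_div_iff₀ (by positivity)]; linarith
  have hb4 : (19 : ℝ) < b := by linarith
  have hb5 : 1 ≤ b := by
    have : (1 : ℝ) ≤ b := by linarith
    exact_mod_cast this
  rw [le_div_iff₀ (by positivity)] at hb1
  rw [div_lt_iff₀ (by positivity)] at hb2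
  obtain ⟨m, hm⟩ : ∃ m : ℕ, m = b * kk := ⟨_, rfl⟩
  have hmR : (m : ℝ) = b * kk := by rw [hm]; push_cast; ring
  have hm1 : 12 * (m * δ) ≤ w := by rw [hmR]; linarith
  have hm2 : w ≤ 24 * (m * δ) := by
    rw [hmR]
    have : (b : ℝ) + 1 ≤ 2 * b := by linarith
    have h2 : ((b : ℝ) + 1) * (12 * δ * kk) ≤ (2 * b) * (12 * δ * kk) :=
      mul_le_mul_of_nonneg_right this (by positivity)
    linarith
  have hm5 : 5 ≤ m := by
    rw [hm]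
    calc 5 ≤ 1 * 20 := by norm_num
      _ ≤ b * kk := Nat.mul_le_mul hb5 hkk20
  have hm0 : (0 : ℝ) < m := by
    have : 0 < m := by omega
    exact_mod_cast this
  have hmb1 : b * kk ≤ m := by rw [hm]
  have hmb2 : m ≤ 2 * b * kk := by
    rw [hm, mul_assoc]
    omega
  obtain ⟨M, hM⟩ : ∃ M : ℝ, M = 2 * c / 5 * (kk : ℝ) ^ (1/4 : ℝ) * (m : ℝ) ^ (7/4 : ℝ) := ⟨_, rfl⟩
  have hkk4 : 1 ≤ (kk : ℝ) ^ (1/4 : ℝ) := Real.one_le_rpow (by linarith) (by norm_num)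
  have hδ7 : 0 < δ ^ (7/4 : ℝ) := Real.rpow_pos_of_pos hδ _
  have hMδ : 2 * ((kk : ℝ) ^ (1/4 : ℝ) * η) ≤ M * δ ^ (7/4 : ℝ) := by
    have h2 : (w / 24) ^ (7/4 : ℝ) ≤ (m : ℝ) ^ (7/4 : ℝ) * δ ^ (7/4 : ℝ) := by
      rw [← Real.mul_rpow hm0.le hδ.le]
      exact Real.rpow_le_rpow (by positivity) (by linarith) (by norm_num)
    rw [hM, hη]
    have h3 : 0 ≤ 2 * c / 5 * (kk : ℝ) ^ (1/4 : ℝ) := by positivity
    calc 2 * ((kk : ℝ) ^ (1/4 : ℝ) * (c / 5 * (w / 24) ^ (7/4 : ℝ)))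
        = (2 * c / 5 * (kk : ℝ) ^ (1/4 : ℝ)) * (w / 24) ^ (7/4 : ℝ) := by ring
      _ ≤ (2 * c / 5 * (kk : ℝ) ^ (1/4 : ℝ)) * ((m : ℝ) ^ (7/4 : ℝ) * δ ^ (7/4 : ℝ)) :=
          mul_le_mul_of_nonneg_left h2 h3
      _ = _ := by ring
  have hkη : η ≤ (kk : ℝ) ^ (1/4 : ℝ) * η := by nlinarith
  have hM1 : 1 < M := by
    have h2 : 1 * δ ^ (7/4 : ℝ) < M * δ ^ (7/4 : ℝ) := by linarith
    exact lt_of_mul_lt_mul_right h2 hδ7.le
  have hτ : κ * ((kk : ℝ) ^ (1/4 : ℝ) * w ^ (7/4 : ℝ)) ≤ (M - 1) * δ ^ (7/4 : ℝ) := by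
    have e : κ * ((kk : ℝ) ^ (1/4 : ℝ) * w ^ (7/4 : ℝ)) = (kk : ℝ) ^ (1/4 : ℝ) * η := by
      rw [hκ, hη, show w / 24 = 1 / 24 * w by ring, Real.mul_rpow (by norm_num) hw0.le]
      ring
    rw [e]
    linarith
  obtain ⟨W, L, hW, hLm, hWA, hpr2⟩ := hpr m b kk hb5 hmb1 hmb2 hkk20 hm5
  have hWm : 120 * m ≤ W := by
    have h2 : (120 : ℤ) * m ≤ W := by omega
    exact_mod_cast h2
  have hW1 : 1 ≤ W := by omega
  have hW0 : (0 : ℝ) < W := by exact_mod_cast hW1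
  have hWL : (W : ℝ) = 2 * (L : ℝ) := by exact_mod_cast hW
  rw [← hEE] at hWA
  have hshape := hsh δ hδ hδa
  have hok := hshape.ok
  have hbd := hpr2 (R.dm δ) hok N hN
  rw [← hM] at hbd
  have hWδ : (W : ℝ) * δ ≤ A1 * (w * EE) / 12 := by
    have h2 : (W : ℝ) * δ ≤ A1 * (m * EE) * δ := mul_le_mul_of_nonneg_right hWA hδ.le
    have h3 : A1 * (m * EE) * δ = (A1 * EE) * (m * δ) := by ring
    have h4 : (A1 * EE) * (m * δ) ≤ (A1 * EE) * (w / 12) :=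
      mul_le_mul_of_nonneg_left (by linarith) (by positivity)
    calc (W : ℝ) * δ ≤ (A1 * EE) * (m * δ) := by linarith
      _ ≤ (A1 * EE) * (w / 12) := h4
      _ = _ := by ring
  have hwE : w ≤ w * EE := by nlinarith
  have hwE0 : 0 < w * EE := by positivity
  have hAw : w * EE ≤ A1 * (w * EE) := by nlinarith
  have hAw2 : A1 * (w * EE) ≤ A0 * (w * EE) := mul_le_mul_of_nonneg_right hA01 hwE0.le
  refine le_trans (Pr_mono (okq (by norm_num) (by norm_num)) (B := Few (R.dm δ) L W m N K1 M)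
    (fun F hFs hF => ?_)) (hbd.trans ?_)
  · have hmδ : 0 < m * δ := by positivity
    refine badN_mesh hδ (by linarith) hw1 (by omega) (by linarith) hm2 hWm hM1 hτ hK1 ?_ ?_ hok
      hFs hF
    · have e : δ * (4 * (L : ℝ)) = 2 * (W * δ) := by rw [hWL]; ring
      rw [e]
      linarith
    · have h2 : (W : ℝ) ^ (7/4 : ℝ) * δ ^ (7/4 : ℝ) ≤ A1 ^ (7/4 : ℝ) * (w * EE) ^ (7/4 : ℝ) := by
        rw [← Real.mul_rpow hW0.le hδ.le, ← Real.mul_rpow (by linarith) hwE0.le]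
        exact Real.rpow_le_rpow (by positivity) (by linarith) (by norm_num)
      have h3 : δ ^ (7/4 : ℝ) ≤ (w * EE) ^ (7/4 : ℝ) :=
        Real.rpow_le_rpow hδ.le (by linarith) (by norm_num)
      have h5 : 0 < (w * EE) ^ (7/4 : ℝ) := by positivity
      calc ((W : ℝ) ^ (7/4 : ℝ) * (K1 * (98 * N)) + 2) * δ ^ (7/4 : ℝ)
          = (W : ℝ) ^ (7/4 : ℝ) * δ ^ (7/4 : ℝ) * (K1 * (98 * N)) + 2 * δ ^ (7/4 : ℝ) := by ring
        _ ≤ A1 ^ (7/4 : ℝ) * (w * EE) ^ (7/4 : ℝ) * (K1 * (98 * N)) +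
            2 * (w * EE) ^ (7/4 : ℝ) :=
            add_le_add (mul_le_mul_of_nonneg_right h2 (by positivity)) (by linarith)
        _ ≤ A1 ^ (7/4 : ℝ) * (w * EE) ^ (7/4 : ℝ) * (K1 * (98 * N)) +
            2 * (w * EE) ^ (7/4 : ℝ) * N := by nlinarith
        _ = (A1 ^ (7/4 : ℝ) * K1 * 98 + 2) * ((w * EE) ^ (7/4 : ℝ) * N) := by ring
        _ ≤ A0 * ((w * EE) ^ (7/4 : ℝ) * N) := mul_le_mul_of_nonneg_right hA02 (by positivity)
  · have h2 := (SB_card hok hW1 hshape.w_le hshape.h_le).1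
    have h3 : S / δ / W + 2 ≤ (S + 1) / w := by
      have h4 : S / δ / W ≤ S / (5 * w) := by
        rw [div_div]
        refine div_le_div_of_nonneg_left hS.le (by positivity) ?_
        have h5 : 120 * (m : ℝ) ≤ W := by exact_mod_cast hWm
        have h6 : δ * (120 * (m : ℝ)) ≤ δ * W := mul_le_mul_of_nonneg_left h5 hδ.le
        linarith
      have h5 : S / (5 * w) ≤ S / w :=
        div_le_div_of_nonneg_left hS.le hw0 (by linarith)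
      have h6 : 2 ≤ 1 / w := by rw [le_div_iff₀ hw0]; linarith
      have e : (S + 1) / w = S / w + 1 / w := add_div _ _ _
      linarith
    have h7 : (0:ℝ) ≤ S / δ / W + 2 := by positivity
    have h4 : ((SB (R.dm δ) W).card : ℝ) ≤ ((S + 1) / w) ^ 2 :=
      h2.trans (pow_le_pow_left₀ h7 h3 2)
    calc ((SB (R.dm δ) W).card : ℝ) * (20 * (1/2) ^ N) ≤ ((S + 1) / w) ^ 2 * (20 * (1/2) ^ N) :=
          mul_le_mul_of_nonneg_right h4 (by positivity)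
      _ = 20 * (S + 1) ^ 2 / w ^ 2 * (1/2) ^ N := by rw [div_pow]; ring

end Pool.Agent.Y995.HG
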