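import Pool.Agent.Y995.HG.ManyPr
import Pool.Agent.Y995.FS.LimS2

/-!
Passage to the limit: long pieces contain many slow places.
-/

set_option autoImplicit false
set_option linter.unusedVariables false

namespace Pool.Agent.Y995.HG

open H974 Finset H342P H984P H984N TH992.L Pool.Agent.Y995.FS MeasureTheory Filter Topology

/-- Curves with a long piece in the bulk with few slow places. -/
def BadN (R : Rect) (ρ w τ h : ℝ) (N : ℕ) : Set X :=
  {p | ∃ s t : unitInterval, (∀ u : unitInterval, s ≤ u → u ≤ t → ρ < dep R (p.1 u)) ∧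
    h < p.2 * ((t : ℝ) - s) ∧
    ¬ ∃ z : Fin N → ℂ, (∀ a, ‖z a‖ ≤ rad R) ∧ (∀ a b, a ≠ b → 8 * w ≤ dist (z a) (z b)) ∧
      ∀ a, τ ≤ p.2 * Jo w s t p.1 (z a)}

theorem badN_open (R : Rect) (ρ w τ h : ℝ) (N : ℕ) : IsOpen (BadN R ρ w τ h N) := by
  obtain ⟨BB, hBB⟩ : ∃ BB : Set ℂ, BB = Metric.closedBall 0 (rad R) := ⟨_, rfl⟩
  have hBc : IsCompact BB := by rw [hBB]; exact isCompact_closedBall _ _
  have : CompactSpace BB := isCompact_iff_compactSpace.1 hBc
  have hmem : ∀ z : ℂ, z ∈ BB ↔ ‖z‖ ≤ rad R := by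
    intro z; rw [hBB, mem_closedBall_zero_iff]
  have e : BadN R ρ w τ h N = ⋃ s : unitInterval, ⋃ t : unitInterval,
      (((Prod.fst '' {x : X × unitInterval | (s ≤ x.2 ∧ x.2 ≤ t) ∧ dep R (x.1.1 x.2) ≤ ρ})ᶜ ∩
        {p : X | h < p.2 * ((t : ℝ) - s)}) ∩
        (Prod.fst '' {x : X × (Fin N → BB) | (∀ a b, a ≠ b → 8 * w ≤ dist (x.2 a : ℂ) (x.2 b)) ∧
          ∀ a, τ ≤ x.1.2 * Jo w s t x.1.1 (x.2 a)})ᶜ) := by
    ext p
    simp only [BadN, Set.mem_ofPred_eq, Set.mem_iUnion, Set.mem_inter_iff, Set.mem_compl_iff,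
      Set.mem_image]
    constructor
    · rintro ⟨s, t, h1, h2, h3⟩
      refine ⟨s, t, ⟨?_, h2⟩, ?_⟩
      · rintro ⟨⟨p', u⟩, ⟨⟨a1, a2⟩, a3⟩, rfl⟩
        exact absurd a3 (not_le.2 (h1 u a1 a2))
      · rintro ⟨⟨p', z⟩, ⟨a1, a2⟩, rfl⟩
        exact h3 ⟨fun a => (z a : ℂ), fun a => (hmem _).1 (z a).2, a1, a2⟩
    · rintro ⟨s, t, ⟨h1, h2⟩, h3⟩
      refine ⟨s, t, ?_, h2, ?_⟩
      · intro u a1 a2
        by_contra hcon
        push Not at hcon
        exact h1 ⟨(p, u), ⟨⟨a1, a2⟩, hcon⟩, rfl⟩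
      · rintro ⟨z, z1, z2, z3⟩
        exact h3 ⟨(p, fun a => ⟨z a, (hmem _).2 (z1 a)⟩), ⟨z2, z3⟩, rfl⟩
  rw [e]
  refine isOpen_iUnion fun s => isOpen_iUnion fun t => ?_
  refine IsOpen.inter (IsOpen.inter ?_ ?_) ?_
  · rw [isOpen_compl_iff]
    refine isClosedMap_fst_of_compactSpace _ ?_
    have c0 : Continuous (fun x : X × unitInterval => x.1.1 x.2) := by fun_prop
    have c1 : Continuous (fun x : X × unitInterval => x.2) := by fun_prop
    exact ((isClosed_le continuous_const c1).inter (isClosed_le c1 continuous_const)).inter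
      (isClosed_le ((dep_cont R).comp c0) continuous_const)
  · have c0 : Continuous (fun p : X => p.2 * ((t : ℝ) - s)) := by fun_prop
    exact isOpen_lt continuous_const c0
  · rw [isOpen_compl_iff]
    refine isClosedMap_fst_of_compactSpace _ ?_
    rw [Set.setOf_and]
    refine IsClosed.inter ?_ ?_
    · have e2 : {x : X × (Fin N → BB) | ∀ a b, a ≠ b → 8 * w ≤ dist (x.2 a : ℂ) (x.2 b)} =
          ⋂ a : Fin N, ⋂ b : Fin N, ⋂ _ : a ≠ b,
            {x : X × (Fin N → BB) | 8 * w ≤ dist (x.2 a : ℂ) (x.2 b)} := by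
        ext x
        simp only [Set.mem_iInter, Set.mem_ofPred_eq]
      rw [e2]
      refine isClosed_iInter fun a => isClosed_iInter fun b => isClosed_iInter fun _ => ?_
      have c0 : Continuous (fun x : X × (Fin N → BB) => (x.2 a : ℂ)) := by fun_prop
      have c1 : Continuous (fun x : X × (Fin N → BB) => (x.2 b : ℂ)) := by fun_prop
      exact isClosed_le continuous_const (c0.dist c1)
    · have e2 : {x : X × (Fin N → BB) | ∀ a, τ ≤ x.1.2 * Jo w s t x.1.1 (x.2 a)} =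
          ⋂ a : Fin N, {x : X × (Fin N → BB) | τ ≤ x.1.2 * Jo w s t x.1.1 (x.2 a)} := by
        ext x
        simp only [Set.mem_iInter, Set.mem_ofPred_eq]
      rw [e2]
      refine isClosed_iInter fun a => ?_
      have c0 : Continuous (fun x : X × (Fin N → BB) => x.1.2) := by fun_prop
      have c1 : Continuous (fun x : X × (Fin N → BB) => Jo w s t x.1.1 (x.2 a)) :=
        Jo_cont w s t (by fun_prop) (by fun_prop)
      exact isClosed_le continuous_const (c0.mul c1)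

theorem pos_far {δ : ℝ} (hδ : 0 < δ) (u v : Vtx) :
    δ * ((sd u v : ℤ) : ℝ) ≤ dist (pos δ (u, Q4.ne)) (pos δ (v, Q4.ne)) := by
  have h1 := ML.le_dist_re (pos δ (u, Q4.ne)) (pos δ (v, Q4.ne))
  have h2 := ML.le_dist_im (pos δ (u, Q4.ne)) (pos δ (v, Q4.ne))
  have e1 : (pos δ (u, Q4.ne)).re - (pos δ (v, Q4.ne)).re = δ * ((u.1 : ℝ) - v.1) := by
    simp only [pos]; ring
  have e2 : (pos δ (u, Q4.ne)).im - (pos δ (v, Q4.ne)).im = δ * ((u.2 : ℝ) - v.2) := by
    simp only [pos]; ring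
  rw [e1, abs_mul, abs_of_pos hδ] at h1
  rw [e2, abs_mul, abs_of_pos hδ] at h2
  have e3 : ((sd u v : ℤ) : ℝ) = max |(u.1 : ℝ) - v.1| |(u.2 : ℝ) - v.2| := by
    rw [sd_eq]; push_cast; rfl
  rw [e3, mul_max_of_nonneg _ _ hδ.le]
  exact max_le h1 h2

/-- Bad curves at mesh `δ` come from bad pieces of the path. -/
theorem badN_mesh {R : Rect} {δ ρ w τ h M K1 : ℝ} {m N W : ℕ} {L : ℤ} (hδ : 0 < δ)
    (hδ2 : δ ≤ 1/2) (hw2 : w ≤ 1/2) (hm : 2 ≤ m) (hw : 11 * (m * δ) ≤ w)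
    (hw' : w ≤ 24 * (m * δ)) (hWm : 120 * m ≤ W) (hM : 1 < M)
    (hτ : τ ≤ (M - 1) * δ ^ (7/4 : ℝ)) (hK1 : 0 < K1)
    (hL : δ * (4 * (L : ℝ)) + 2 * δ ≤ ρ)
    (hh : ((W : ℝ) ^ (7/4 : ℝ) * (K1 * (98 * N)) + 2) * δ ^ (7/4 : ℝ) ≤ h)
    {F : Finset Edg} (hok : (R.dm δ).Ok) (hF : F ⊆ (R.dm δ).edges)
    (hbad : (R.curve δ F, R.time δ F) ∈ BadN R ρ w τ h N) : Few (R.dm δ) L W m N K1 M F := by
  classical
  obtain ⟨s, t, h1, h2, h3⟩ := hbad
  obtain ⟨n, hn⟩ : ∃ n, n = (R.dm δ).len F := ⟨_, rfl⟩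
  obtain ⟨p, hp⟩ : ∃ p : ℕ → ℂ, p = fun k => pos δ ((R.dm δ).walk F k) := ⟨_, rfl⟩
  have hc : R.curve δ F = pl n p := by unfold Rect.curve; rw [hn, hp]
  have h10 : R.time δ F = δ ^ (7/4 : ℝ) * n := by unfold Rect.time; rw [hn]
  simp only [hc, h10] at h1 h2 h3
  have hδ7 : 0 < δ ^ (7/4 : ℝ) := Real.rpow_pos_of_pos hδ _
  have hstep : ∀ k < n, dist (p k) (p (k + 1)) ≤ δ / 2 := fun k _ => by
    have := pos_nxt hδ.le ((R.dm δ).cfg F) ((R.dm δ).walk F k)
    rw [hp]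
    rwa [← walk_succ] at this
  have hm' : (2 : ℝ) ≤ m := by exact_mod_cast hm
  have hw0 : 0 < w := by nlinarith
  have hWp : 0 ≤ (W : ℝ) ^ (7/4 : ℝ) * (K1 * (98 * N)) := by positivity
  -- the nodes
  have hlong : (W : ℝ) ^ (7/4 : ℝ) * (K1 * (98 * N)) + 2 < (n : ℝ) * ((t : ℝ) - s) := by
    have h4 : ((W : ℝ) ^ (7/4 : ℝ) * (K1 * (98 * N)) + 2) * δ ^ (7/4 : ℝ) <
        (n * ((t : ℝ) - s)) * δ ^ (7/4 : ℝ) := by
      refine lt_of_le_of_lt hh (h2.trans_le (le_of_eq ?_))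
      ring
    exact lt_of_mul_lt_mul_right h4 hδ7.le
  have ht1 : (t : ℝ) ≤ 1 := t.2.2
  have ht0 : 0 ≤ (t : ℝ) := t.2.1
  have hs0 : 0 ≤ (s : ℝ) := s.2.1
  have hn0 : 0 < n := by
    rcases Nat.eq_zero_or_pos n with h | h
    · rw [h] at hlong
      simp only [CharP.cast_eq_zero, zero_mul] at hlong
      linarith
    · exact h
  have hn' : (0 : ℝ) < n := by exact_mod_cast hn0
  obtain ⟨k, hk⟩ : ∃ k, k = ⌈(s : ℝ) * n⌉₊ := ⟨_, rfl⟩
  obtain ⟨l, hl⟩ : ∃ l, l = ⌊(t : ℝ) * n⌋₊ := ⟨_, rfl⟩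
  have hk1 : (s : ℝ) * n ≤ k := by rw [hk]; exact Nat.le_ceil _
  have hk2 : (k : ℝ) < s * n + 1 := by rw [hk]; exact Nat.ceil_lt_add_one (by positivity)
  have hl1 : (l : ℝ) ≤ t * n := by rw [hl]; exact Nat.floor_le (by positivity)
  have hl2 : (t : ℝ) * n < l + 1 := by rw [hl]; exact Nat.lt_floor_add_one _
  have hkl : k ≤ l := by
    have : (k : ℝ) < l + 1 := by linarith
    have h5 : k < l + 1 := by exact_mod_cast this
    omega
  have hln : l ≤ n := by
    have : (l : ℝ) ≤ n := hl1.trans (by nlinarith)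
    exact_mod_cast this
  have hnode : ∀ i, k ≤ i → i ≤ l → ρ < dep R (p i) := by
    intro i hi1 hi2
    have hin : i ≤ n := by omega
    have h5 := h1 (nodeT n i hin) ?_ ?_
    · rwa [pl_nodeT hin hn0] at h5
    · change (s : ℝ) ≤ (i : ℝ) / n
      rw [le_div_iff₀ hn']
      have : (k : ℝ) ≤ i := by exact_mod_cast hi1
      linarith
    · change (i : ℝ) / n ≤ (t : ℝ)
      rw [div_le_iff₀ hn']
      have : (i : ℝ) ≤ l := by exact_mod_cast hi2
      linarith
  unfold Few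
  refine ⟨k, l, hkl, by rw [← hn]; exact hln, ?_, ?_, ?_⟩
  · intro i hi1 hi2
    have h5 := hnode i hi1 hi2
    have h6 := bd_ge (R := R) hδ ((R.dm δ).walk F i)
    have h7 : p i = pos δ ((R.dm δ).walk F i) := by rw [hp]
    rw [h7] at h5
    have h8 : δ * ((4 * L : ℤ) : ℝ) ≤ δ * (((R.dm δ).bd ((R.dm δ).walk F i).1 : ℤ) : ℝ) := by
      push_cast
      linarith
    exact_mod_cast le_of_mul_le_mul_left h8 hδ
  · rw [Nat.cast_add, Nat.cast_sub hkl]
    push_cast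
    have : (n : ℝ) * ((t : ℝ) - s) = t * n - s * n := by ring
    linarith
  · rintro ⟨Z, z1, z2, z3⟩
    apply h3
    obtain ⟨Z', hZ', hZc⟩ := Finset.exists_subset_card_eq z1
    have eqv := Z'.equivFinOfCardEq hZc
    have hne : ∀ a b : Fin N, a ≠ b → (eqv.symm a : Vtx) ≠ (eqv.symm b : Vtx) := by
      intro a b hab h
      exact hab (eqv.symm.injective (Subtype.ext h))
    -- occupation
    have hocc : ∀ v ∈ Z, ‖pos δ (v, Q4.ne)‖ ≤ rad R ∧
        τ ≤ δ ^ (7/4 : ℝ) * n * Jo w s t (pl n p) (pos δ (v, Q4.ne)) := by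
      intro v hv
      have hzM := z3 v hv
      obtain ⟨G0, hG0⟩ : ∃ G0 : Finset ℕ, G0 = (Finset.range (l - k + 1)).filter
        (fun s => sd v ((R.dm δ).walk F (k + s)).1 ≤ 5 * m) := ⟨_, rfl⟩
      have hG0c : ((Finset.Icc k l).filter (fun t => sd v ((R.dm δ).walk F t).1 ≤ 5 * m)).card ≤
          G0.card := by
        rw [hG0]
        refine card_le_card_of_injOn (fun t => t - k) ?_ ?_
        · intro i hi
          simp only [coe_filter, mem_Icc, Set.mem_ofPred_eq] at hi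
          simp only [coe_filter, mem_range, Set.mem_ofPred_eq]
          refine ⟨by omega, ?_⟩
          rw [show k + (i - k) = i by omega]
          exact hi.2
        · intro i hi j hj hij
          simp only [coe_filter, mem_Icc, Set.mem_ofPred_eq] at hi hj hij
          omega
      have hz' : M ≤ (G0.card : ℝ) := hzM.trans (by exact_mod_cast hG0c)
      obtain ⟨G, hG⟩ : ∃ G : Finset ℕ, G = G0.erase (l - k) := ⟨_, rfl⟩
      have hcard : (G0.card : ℝ) - 1 ≤ (G.card : ℝ) := by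
        have h4 : G0.card - 1 ≤ G.card := by rw [hG]; exact Finset.pred_card_le_card_erase
        have h5 : G0.card ≤ G.card + 1 := by omega
        have h6 : (G0.card : ℝ) ≤ (G.card : ℝ) + 1 := by exact_mod_cast h5
        linarith
      obtain ⟨z', hz'2⟩ : ∃ z' : ℂ, z' = pos δ (v, Q4.ne) := ⟨_, rfl⟩
      have hGG : ∀ i ∈ G, k + i < l ∧ dist (p (k + i)) z' + δ / 2 ≤ w := by
        intro i hi
        rw [hG, mem_erase, hG0, mem_filter, mem_range] at hi
        refine ⟨by omega, ?_⟩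
        have h4 := dist_pos_le hδ.le (v, Q4.ne) ((R.dm δ).walk F (k + i))
        rw [dist_comm, ← hz'2] at h4
        have h5 : ((sd (v, Q4.ne).1 ((R.dm δ).walk F (k + i)).1 : ℤ) : ℝ) ≤
            ((5 * m : ℤ) : ℝ) := by
          exact_mod_cast hi.2.2
        push_cast at h5
        have h6 : p (k + i) = pos δ ((R.dm δ).walk F (k + i)) := by rw [hp]
        rw [h6]
        have h7 : δ * (2 * ((sd (v, Q4.ne).1 ((R.dm δ).walk F (k + i)).1 : ℤ) : ℝ) + 1) ≤
            δ * (2 * (5 * m) + 1) := mul_le_mul_of_nonneg_left (by linarith) hδ.le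
        nlinarith
      have hne : G.Nonempty := by
        rw [← Finset.card_pos]
        have : (0 : ℝ) < G.card := by linarith
        exact_mod_cast this
      obtain ⟨i0, hi0⟩ := hne
      rw [← hz'2]
      have hzball : ‖z'‖ ≤ rad R := by
        obtain ⟨-, h4⟩ := hGG i0 hi0
        obtain ⟨y, hy, hy2⟩ := R.pos_near hδ (walk_in hok hF (k + i0))
        have h5 : p (k + i0) = pos δ ((R.dm δ).walk F (k + i0)) := by rw [hp]
        rw [← h5] at hy2
        have h6 := norm_D hy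
        have h7 : ‖z'‖ ≤ dist (p (k + i0)) z' + (dist (p (k + i0)) y + ‖y‖) := by
          have e1 : ‖z'‖ = dist z' 0 := (dist_zero_right z').symm
          have e2 : ‖y‖ = dist y 0 := (dist_zero_right y).symm
          rw [e1, e2]
          have a1 := dist_triangle z' (p (k + i0)) 0
          have a2 := dist_triangle (p (k + i0)) y 0
          rw [dist_comm z' (p (k + i0))] at a1
          linarith
        unfold rad
        linarith
      refine ⟨hzball, ?_⟩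
      have h9 := Jo_ge hw0 (by positivity) hn0 hstep hk1 hl1 hln hGG
      have h11 : δ ^ (7/4 : ℝ) * (G.card : ℝ) ≤ δ ^ (7/4 : ℝ) * n * Jo w s t (pl n p) z' := by
        have h12 : (G.card : ℝ) ≤ n * Jo w s t (pl n p) z' := by
          rw [div_le_iff₀ hn'] at h9
          linarith
        rw [mul_assoc]
        exact mul_le_mul_of_nonneg_left h12 hδ7.le
      have h12 : (M - 1) * δ ^ (7/4 : ℝ) ≤ δ ^ (7/4 : ℝ) * (G.card : ℝ) := by
        rw [mul_comm]
        exact mul_le_mul_of_nonneg_left (by linarith) hδ7.le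
      linarith
    refine ⟨fun a => pos δ ((eqv.symm a : Vtx), Q4.ne), ?_, ?_, ?_⟩
    · intro a
      exact (hocc _ (hZ' (eqv.symm a).2)).1
    · intro a b hab
      have h4 := z2 _ (hZ' (eqv.symm a).2) _ (hZ' (eqv.symm b).2) (hne a b hab)
      have h5 := pos_far hδ (eqv.symm a : Vtx) (eqv.symm b : Vtx)
      have h6 : 4 * (W : ℝ) ≤ ((sd (eqv.symm a : Vtx) (eqv.symm b : Vtx) : ℤ) : ℝ) := by
        exact_mod_cast h4
      have h7 : 120 * (m : ℝ) ≤ W := by exact_mod_cast hWm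
      have h8 : δ * (4 * (W : ℝ)) ≤
          δ * ((sd (eqv.symm a : Vtx) (eqv.symm b : Vtx) : ℤ) : ℝ) :=
        mul_le_mul_of_nonneg_left h6 hδ.le
      have h9 : δ * (120 * (m : ℝ)) ≤ δ * W := mul_le_mul_of_nonneg_left h7 hδ.le
      refine le_trans ?_ h5
      linarith
    · intro a
      exact (hocc _ (hZ' (eqv.symm a).2)).2

end Pool.Agent.Y995.HG
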