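import Pool.Agent.Y995.HG.LowP
import Pool.Agent.Y995.HG.Gauge

/-!
The time spent near typical points: Borel–Cantelli and the mass distribution principle.
-/

set_option autoImplicit false
set_option linter.unusedVariables false

namespace Pool.Agent.Y995.HG

open H974 Finset H342P H984P H984N Pool.Agent.Y995.FS MeasureTheory Filter Topology
open scoped ENNReal

/-- Borel–Cantelli for the limits, polynomial bound. -/
theorem bc2 (R : Rect) {B : ℕ → Set X} (hB : ∀ j, IsOpen (B j)) {C1 : ℝ} {j1 : ℕ}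
    (hC1 : 0 < C1) (h1 : ∀ j : ℕ, j1 ≤ j → ∃ δ1 : ℝ, 0 < δ1 ∧ ∀ δ : ℝ, 0 < δ → δ ≤ δ1 →
        R.prob δ (fun F => (R.curve δ F, R.time δ F) ∈ B j) ≤ C1 * (1 / (j : ℝ) ^ 2))
    {δ : ℕ → ℝ} (hδ : ∀ i, 0 < δ i) (hlim : Tendsto δ atTop (𝓝 0))
    {μ : ProbabilityMeasure X} (hμ : Tendsto (fun i => R.law (δ i)) atTop (𝓝 μ)) :
    ∀ᵐ p ∂(μ : Measure X), ∀ᶠ j in atTop, p ∉ B j := by
  have h2 : ∀ j : ℕ, (μ : Measure X) (B (j + j1)) ≤
      ENNReal.ofReal (C1 * (1 / ((j + j1 : ℕ) : ℝ) ^ 2)) := by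
    intro j
    obtain ⟨δ1, hδ1, h3⟩ := h1 (j + j1) (by omega)
    have h4 := limit_closed R hδ hlim hμ (G := (B (j + j1))ᶜ)
      (hB _).isClosed_compl (ε := C1 * (1 / ((j + j1 : ℕ) : ℝ) ^ 2))
      (by positivity) hδ1 (fun d hd hd' => by
        have := h3 d hd hd'
        simpa only [Set.mem_compl_iff, not_not] using this)
    rwa [compl_compl] at h4
  have h3 : ∑' j : ℕ, (μ : Measure X) (B (j + j1)) ≠ ⊤ := by
    have h4 : Summable (fun j : ℕ => C1 * (1 / ((j + j1 : ℕ) : ℝ) ^ 2)) := by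
      have h5 : Summable (fun j : ℕ => 1 / (j : ℝ) ^ 2) :=
        Real.summable_one_div_nat_pow.mpr (by norm_num)
      exact ((summable_nat_add_iff j1).2 h5).mul_left C1
    refine ne_top_of_le_ne_top ?_ (ENNReal.tsum_le_tsum h2)
    rw [← ENNReal.ofReal_tsum_of_nonneg (fun j => by positivity) h4]
    exact ENNReal.ofReal_ne_top
  filter_upwards [ae_eventually_notMem h3] with p hp
  rw [eventually_atTop] at hp ⊢
  obtain ⟨a, ha⟩ := hp
  refine ⟨a + j1, fun j hj => ?_⟩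
  have := ha (j - j1) (by omega)
  rwa [Nat.sub_add_cancel (by omega)] at this

/-- levels of the occupation time -/
noncomputable def av (l : ℝ) (j : ℕ) : ℝ :=
  2 * l * ((((1:ℝ)/2) ^ j) ^ (7/4 : ℝ) * Real.log j ^ (1/8 : ℝ))

theorem av_pos {l : ℝ} (hl : 0 < l) {j : ℕ} (hj : 2 ≤ j) : 0 < av l j := by
  have h1 : 0 < Real.log j := Real.log_pos (by exact_mod_cast (by omega : 1 < j))
  unfold av
  positivity

theorem av_bound {A l : ℝ} (hA : 0 < A) (hl : 0 < l) {j : ℕ} (hj : 2 ≤ j) :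
    A / (1 / (j : ℝ) ^ 3) * Real.exp (-(av l j / (((1:ℝ)/2) ^ j) ^ (7/4 : ℝ) / l) ^ 8) ≤
      A * (1 / (j : ℝ) ^ 2) := by
  have hj0 : (0 : ℝ) < j := by exact_mod_cast (by omega : 0 < j)
  have hlog : 0 < Real.log j := Real.log_pos (by exact_mod_cast (by omega : 1 < j))
  have h0 : 0 < (((1:ℝ)/2) ^ j) ^ (7/4 : ℝ) := by positivity
  have e1 : av l j / (((1:ℝ)/2) ^ j) ^ (7/4 : ℝ) / l = 2 * Real.log j ^ (1/8 : ℝ) := by
    unfold av
    field_simp
  have e2 : (2 * Real.log j ^ (1/8 : ℝ)) ^ 8 = 256 * Real.log j := by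
    rw [mul_pow, ← Real.rpow_natCast (Real.log j ^ (1/8 : ℝ)) 8, ← Real.rpow_mul hlog.le]
    norm_num
  rw [e1, e2]
  have h1 : Real.exp (-(256 * Real.log j)) ≤ Real.exp (-(5 * Real.log j)) :=
    Real.exp_le_exp.mpr (by linarith)
  have e3 : Real.exp (-(5 * Real.log j)) = 1 / (j : ℝ) ^ 5 := by
    rw [Real.exp_neg, ← Real.log_rpow hj0, Real.exp_log (by positivity), one_div]
    congr 1
    exact_mod_cast Real.rpow_natCast (j : ℝ) 5
  rw [e3] at h1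
  calc A / (1 / (j : ℝ) ^ 3) * Real.exp (-(256 * Real.log j)) ≤
        A / (1 / (j : ℝ) ^ 3) * (1 / (j : ℝ) ^ 5) := mul_le_mul_of_nonneg_left h1 (by positivity)
    _ = A * (1 / (j : ℝ) ^ 2) := by field_simp

/-- for almost every curve the times near which it spends much time are few -/
theorem go_ae {l : ℝ} (hl : 0 < l) {R : Rect} {A w0 : ℝ} (hA : 0 < A) (hw0 : 0 < w0)
    (h : ∀ w a b : ℝ, 0 < w → w ≤ w0 → 0 < a → 0 < b →
      ∃ δ1 : ℝ, 0 < δ1 ∧ ∀ δ : ℝ, 0 < δ → δ ≤ δ1 →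
        R.prob δ (fun F => (R.curve δ F, R.time δ F) ∈ {p : X | b < Go w a p}) ≤
          A / b * Real.exp (-(a / w ^ (7/4 : ℝ) / l) ^ 8))
    {δ : ℕ → ℝ} (hδ : ∀ i, 0 < δ i) (hlim : Tendsto δ atTop (𝓝 0))
    {μ : ProbabilityMeasure X} (hμ : Tendsto (fun i => R.law (δ i)) atTop (𝓝 μ)) :
    ∀ᵐ p ∂(μ : Measure X), ∀ᶠ j : ℕ in atTop,
      Go (((1:ℝ)/2) ^ j) (av l j) p ≤ 1 / (j : ℝ) ^ 3 := by
  have h0 : Tendsto (fun i : ℕ => ((1:ℝ)/2) ^ i) atTop (𝓝 0) :=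
    tendsto_pow_atTop_nhds_zero_of_lt_one (by norm_num) (by norm_num)
  have h1 := (h0.eventually (ge_mem_nhds hw0)).and (eventually_ge_atTop 2)
  rw [eventually_atTop] at h1
  obtain ⟨j1, hj1⟩ := h1
  have h2 := bc2 R (B := fun j : ℕ => {p : X | 1 / (j : ℝ) ^ 3 < Go (((1:ℝ)/2) ^ j) (av l j) p})
    (fun j => isOpen_lt continuous_const (Go_cont _ _)) (C1 := A) (j1 := j1) hA
    (fun j hj => by
      obtain ⟨g1, g2⟩ := hj1 j hj
      have hj0 : (0 : ℝ) < j := by exact_mod_cast (by omega : 0 < j)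
      obtain ⟨δ1, hδ1, h3⟩ := h (((1:ℝ)/2) ^ j) (av l j) (1 / (j : ℝ) ^ 3) (by positivity) g1
        (av_pos hl g2) (by positivity)
      exact ⟨δ1, hδ1, fun δ hδ hδ' => (h3 δ hδ hδ').trans (av_bound hA hl g2)⟩) hδ hlim hμ
  filter_upwards [h2] with p hp
  filter_upwards [hp] with j hj
  exact not_lt.mp hj

/-- for almost every time the time spent near the point is of the order of the gauge -/
theorem times_ae {l : ℝ} (hl : 0 < l) {p : X} (hp : 0 < p.2)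
    (h : ∀ᶠ j : ℕ in atTop, Go (((1:ℝ)/2) ^ j) (av l j) p ≤ 1 / (j : ℝ) ^ 3) :
    ∀ᵐ t : unitInterval, ∀ᶠ j : ℕ in atTop, p.2 *
      (volume {u : unitInterval | dist (p.1 u) (p.1 t) ≤ ((1:ℝ)/2) ^ j}).toReal <
        2 * av l j := by
  obtain ⟨V, hV⟩ : ∃ V : ℕ → Set unitInterval, V = fun j => {t : unitInterval | 2 * av l j ≤ p.2 *
      (volume {u : unitInterval | dist (p.1 u) (p.1 t) ≤ ((1:ℝ)/2) ^ j}).toReal} := ⟨_, rfl⟩
  have h1 := h.and (eventually_ge_atTop 2)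
  rw [eventually_atTop] at h1
  obtain ⟨j1, hj1⟩ := h1
  have h2 : ∀ j : ℕ, volume (V (j + j1)) ≤
      ENNReal.ofReal (1 / p.2 * (1 / ((j + j1 : ℕ) : ℝ) ^ 3)) := by
    intro j
    obtain ⟨g1, g2⟩ := hj1 (j + j1) (by omega)
    have g3 := (Go_ge (w := ((1:ℝ)/2) ^ (j + j1)) (by positivity) (av_pos hl g2) hp.le).trans g1
    have g4 : (volume (V (j + j1))).toReal ≤ 1 / p.2 * (1 / ((j + j1 : ℕ) : ℝ) ^ 3) := by
      rw [hV, one_div_mul_eq_div, le_div_iff₀ hp, mul_comm]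
      exact g3
    rw [← ENNReal.ofReal_toReal (measure_ne_top volume (V (j + j1)))]
    exact ENNReal.ofReal_le_ofReal g4
  have h3 : ∑' j : ℕ, volume (V (j + j1)) ≠ ⊤ := by
    have h4 : Summable (fun j : ℕ => 1 / p.2 * (1 / ((j + j1 : ℕ) : ℝ) ^ 3)) := by
      have h5 : Summable (fun j : ℕ => 1 / (j : ℝ) ^ 3) :=
        Real.summable_one_div_nat_pow.mpr (by norm_num)
      exact ((summable_nat_add_iff j1).2 h5).mul_left (1 / p.2)
    refine ne_top_of_le_ne_top ?_ (ENNReal.tsum_le_tsum h2)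
    rw [← ENNReal.ofReal_tsum_of_nonneg (fun j => by positivity) h4]
    exact ENNReal.ofReal_ne_top
  filter_upwards [ae_eventually_notMem h3] with t ht
  rw [eventually_atTop] at ht ⊢
  obtain ⟨a, ha⟩ := ht
  refine ⟨a + j1, fun j hj => ?_⟩
  have h4 := ha (j - j1) (by omega)
  rw [Nat.sub_add_cancel (by omega), hV] at h4
  exact not_le.mp h4

end Pool.Agent.Y995.HG
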