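import Pool.Agent.Y995.HG.OccE
import Pool.Agent.Y995.FS.LimS

/-!
Passage to the limit: the time spent near the typical points of the curve.
-/

set_option autoImplicit false
set_option linter.unusedVariables false

namespace Pool.Agent.Y995.HG

open H974 Finset H342P H984P H984N Pool.Agent.Y995.FS MeasureTheory Filter Topology

/-- `0` for `x ≤ 1`, `1` for `2 ≤ x`, linear between. -/
noncomputable def ramp (x : ℝ) : ℝ := max 0 (min 1 (x - 1))

theorem ramp_cont : Continuous ramp := by unfold ramp; fun_prop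

theorem ramp_nonneg (x : ℝ) : 0 ≤ ramp x := le_max_left _ _

theorem ramp_le (x : ℝ) : ramp x ≤ 1 := max_le (by norm_num) (min_le_left _ _)

theorem ramp_one {x : ℝ} (h : 2 ≤ x) : ramp x = 1 := by
  unfold ramp
  rw [min_eq_left (by linarith), max_eq_right (by norm_num)]

theorem ramp_zero {x : ℝ} (h : x ≤ 1) : ramp x = 0 := by
  unfold ramp
  rw [max_eq_left]
  exact (min_le_right _ _).trans (by linarith)

/-- smoothed measure of the times near which the curve spends the time `a` -/
noncomputable def Go (w a : ℝ) (p : X) : ℝ :=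
  p.2 * ∫ t : unitInterval, ramp (p.2 * Jo w 0 1 p.1 (p.1 t) / a)

theorem in_cont (w a : ℝ) (p : X) :
    Continuous (fun t : unitInterval => ramp (p.2 * Jo w 0 1 p.1 (p.1 t) / a)) := by
  have h1 : Continuous (fun t : unitInterval => Jo w 0 1 p.1 (p.1 t)) :=
    Jo_cont w 0 1 (F := fun _ => p.1) continuous_const (Z := fun t => p.1 t) p.1.continuous
  exact ramp_cont.comp ((continuous_const.mul h1).div_const _)

theorem in_int (w a : ℝ) (p : X) :
    Integrable (fun t : unitInterval => ramp (p.2 * Jo w 0 1 p.1 (p.1 t) / a)) := by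
  refine Integrable.of_bound (C := 1) (in_cont w a p).aestronglyMeasurable ?_
  filter_upwards with u
  rw [Real.norm_eq_abs, abs_of_nonneg (ramp_nonneg _)]
  exact ramp_le _

theorem Go_cont (w a : ℝ) : Continuous (Go w a) := by
  unfold Go
  refine continuous_snd.mul ?_
  refine continuous_of_dominated (bound := fun _ => 1) (fun y => (in_int w a y).1) ?_ ?_ ?_
  · intro y
    filter_upwards with u
    rw [Real.norm_eq_abs, abs_of_nonneg (ramp_nonneg _)]
    exact ramp_le _
  · exact integrable_const _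
  · filter_upwards with t
    have h1 : Continuous (fun y : X => y.1 t) := by fun_prop
    have h2 : Continuous (fun y : X => Jo w 0 1 y.1 (y.1 t)) :=
      Jo_cont w 0 1 (F := fun y : X => y.1) continuous_fst (Z := fun y : X => y.1 t) h1
    exact ramp_cont.comp ((continuous_snd.mul h2).div_const _)

theorem Jo_ge_vol {w : ℝ} (hw : 0 < w) (f : C(unitInterval, ℂ)) (z : ℂ) :
    (volume {u : unitInterval | dist (f u) z ≤ w}).toReal ≤ Jo w 0 1 f z := by
  obtain ⟨V, hV⟩ : ∃ V : Set unitInterval, V = {u | dist (f u) z ≤ w} := ⟨_, rfl⟩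
  have hVm : MeasurableSet V := by
    rw [hV]
    exact (isClosed_le (f.continuous.dist continuous_const) continuous_const).measurableSet
  rw [← hV]
  have hI : Set.Icc (0 : unitInterval) 1 = Set.univ := by
    ext u
    simp only [Set.mem_Icc, Set.mem_univ, iff_true]
    exact ⟨unitInterval.nonneg', unitInterval.le_one'⟩
  have h1 : ∫ u : unitInterval, V.indicator (fun _ => (1:ℝ)) u ≤ Jo w 0 1 f z := by
    unfold Jo
    rw [hI, Measure.restrict_univ]
    refine integral_mono ((integrable_const (1:ℝ)).indicator hVm) ?_ ?_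
    · have := Jo_int w 0 1 f z Set.univ
      rwa [Measure.restrict_univ] at this
    · intro u
      simp only
      by_cases hu : u ∈ V
      · rw [Set.indicator_of_mem hu, tent_one]
        rw [hV] at hu
        rw [div_le_one hw]
        exact hu
      · rw [Set.indicator_of_notMem hu]
        exact tent_nonneg _
  refine le_trans (le_of_eq ?_) h1
  rw [integral_indicator hVm]
  simp [Measure.real]

/-- lower bound for the functional -/
theorem Go_ge {w a : ℝ} (hw : 0 < w) (ha : 0 < a) {p : X} (hp : 0 ≤ p.2) :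
    p.2 * (volume {t : unitInterval | 2 * a ≤ p.2 *
      (volume {u : unitInterval | dist (p.1 u) (p.1 t) ≤ w}).toReal}).toReal ≤ Go w a p := by
  unfold Go
  refine mul_le_mul_of_nonneg_left ?_ hp
  obtain ⟨V, hV⟩ : ∃ V : Set unitInterval,
    V = {t | 2 * a ≤ p.2 * Jo w 0 1 p.1 (p.1 t)} := ⟨_, rfl⟩
  have hVm : MeasurableSet V := by
    rw [hV]
    have h1 : Continuous (fun t : unitInterval => Jo w 0 1 p.1 (p.1 t)) :=
      Jo_cont w 0 1 (F := fun _ => p.1) continuous_const (Z := fun t => p.1 t) p.1.continuous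
    exact (isClosed_le continuous_const (continuous_const.mul h1)).measurableSet
  have hsub : {t : unitInterval | 2 * a ≤ p.2 *
      (volume {u : unitInterval | dist (p.1 u) (p.1 t) ≤ w}).toReal} ⊆ V := by
    intro t ht
    rw [hV]
    exact le_trans ht (mul_le_mul_of_nonneg_left (Jo_ge_vol hw p.1 (p.1 t)) hp)
  have h1 : (volume {t : unitInterval | 2 * a ≤ p.2 *
      (volume {u : unitInterval | dist (p.1 u) (p.1 t) ≤ w}).toReal}).toReal ≤
      (volume V).toReal :=
    ENNReal.toReal_mono (measure_ne_top _ _) (measure_mono hsub)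
  refine h1.trans ?_
  have h2 : (volume V).toReal = ∫ t : unitInterval, V.indicator (fun _ => (1:ℝ)) t := by
    rw [integral_indicator hVm]
    simp [Measure.real]
  rw [h2]
  refine integral_mono ((integrable_const (1:ℝ)).indicator hVm) (in_int w a p) ?_
  intro t
  simp only
  by_cases ht : t ∈ V
  · rw [Set.indicator_of_mem ht, ramp_one]
    rw [hV] at ht
    rw [le_div_iff₀ ha]
    exact ht
  · rw [Set.indicator_of_notMem ht]
    exact ramp_nonneg _

theorem vol_cells {n : ℕ} (hn : 0 < n) {S : Set unitInterval} {I : Finset ℕ}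
    (hI : ∀ i ∈ I, i + 1 ≤ n) (h : ∀ u ∈ S, (u : ℝ) < 1 → ∀ i : ℕ, (i : ℝ) ≤ u * n →
      (u : ℝ) * n < i + 1 → i ∈ I) : (volume S).toReal ≤ I.card / n := by
  have hn' : (0 : ℝ) < n := by exact_mod_cast hn
  have hsub : S ⊆ (⋃ i ∈ I, {u : unitInterval | (i : ℝ) ≤ u * n ∧ (u : ℝ) * n < i + 1}) ∪
      Set.Icc (1 : unitInterval) 1 := by
    intro u hu
    rcases lt_or_ge (u : ℝ) 1 with h1 | h1
    · left
      have h0 : 0 ≤ (u : ℝ) * n := mul_nonneg u.2.1 hn'.le
      have h2 := Nat.floor_le h0
      have h3 := Nat.lt_floor_add_one ((u : ℝ) * n)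
      rw [Set.mem_iUnion₂]
      exact ⟨_, h u hu h1 _ h2 h3, h2, h3⟩
    · right
      have h2 : u = 1 := le_antisymm u.2.2 h1
      rw [h2]
      exact ⟨le_rfl, le_rfl⟩
  have h1 : volume S ≤ (I.card : ENNReal) * ENNReal.ofReal (1 / n) := by
    refine (measure_mono hsub).trans ((measure_union_le _ _).trans ?_)
    rw [unitInterval.volume_Icc]
    simp only [sub_self, ENNReal.ofReal_zero, add_zero]
    refine (measure_biUnion_finset_le _ _).trans ?_
    rw [← nsmul_eq_mul, ← Finset.sum_const]
    exact Finset.sum_le_sum fun i hi => (volW (hI i hi)).le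
  have h2 : (volume S).toReal ≤ ((I.card : ENNReal) * ENNReal.ofReal (1 / n)).toReal :=
    ENNReal.toReal_mono (ENNReal.mul_ne_top (ENNReal.natCast_ne_top _) ENNReal.ofReal_ne_top) h1
  refine h2.trans (le_of_eq ?_)
  rw [ENNReal.toReal_mul, ENNReal.toReal_ofReal (by positivity), ENNReal.toReal_natCast]
  ring

theorem pl_close {η : ℝ} {n : ℕ} {P : ℕ → ℂ} (hstep : ∀ k < n, dist (P k) (P (k + 1)) ≤ η)
    {k : ℕ} (hk : k < n) {u : unitInterval} (h1 : (k : ℝ) ≤ u * n) (h2 : (u : ℝ) * n < k + 1) :
    dist (pl n P u) (P k) ≤ η := by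
  rw [pl_seg hk h1 h2.le, dist_eq_norm]
  have e : P k + (((u : ℝ) * n - (k : ℝ) : ℝ) : ℂ) * (P (k + 1) - P k) -
      P k = (((u : ℝ) * n - (k : ℝ) : ℝ) : ℂ) * (P (k + 1) - P k) := by
    ring
  rw [e, norm_mul, Complex.norm_real, Real.norm_eq_abs, abs_of_nonneg (by linarith),
    ← dist_eq_norm, dist_comm]
  have h8 : ((u : ℝ) * n - (k : ℝ)) * dist (P k) (P (k + 1)) ≤ 1 * η :=
    mul_le_mul (by linarith) (hstep _ hk) dist_nonneg (by norm_num)
  linarith

open Classical in
/-- upper bound for the functional of piecewise linear curves -/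
theorem Go_le {w a η : ℝ} (hw : 0 < w) (ha : 0 < a) {n : ℕ} {P : ℕ → ℂ} (hn : 0 < n)
    (hstep : ∀ k < n, dist (P k) (P (k + 1)) ≤ η) {T : ℝ} (hT : 0 ≤ T) :
    Go w a (pl n P, T) ≤ T * ((((Finset.range n).filter (fun k => a ≤ T *
      ((((Finset.range n).filter (fun i => dist (P i) (P k) ≤ 2 * w + 2 * η)).card : ℝ) / n))).card :
        ℝ) / n) := by
  unfold Go
  refine mul_le_mul_of_nonneg_left ?_ hT
  simp only
  obtain ⟨V, hV⟩ : ∃ V : Set unitInterval,
    V = {t | a ≤ T * Jo w 0 1 (pl n P) (pl n P t)} := ⟨_, rfl⟩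
  have hVm : MeasurableSet V := by
    rw [hV]
    have h1 : Continuous (fun t : unitInterval => Jo w 0 1 (pl n P) (pl n P t)) :=
      Jo_cont w 0 1 (F := fun _ => pl n P) continuous_const (Z := fun t => pl n P t)
        (pl n P).continuous
    exact (isClosed_le continuous_const (continuous_const.mul h1)).measurableSet
  have h1 : ∫ t : unitInterval, ramp (T * Jo w 0 1 (pl n P) (pl n P t) / a) ≤
      ∫ t : unitInterval, V.indicator (fun _ => (1:ℝ)) t := by
    refine integral_mono (in_int w a (pl n P, T)) ((integrable_const (1:ℝ)).indicator hVm) ?_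
    intro t
    simp only
    by_cases ht : t ∈ V
    · rw [Set.indicator_of_mem ht]; exact ramp_le _
    · rw [Set.indicator_of_notMem ht, ramp_zero]
      rw [hV] at ht
      simp only [Set.mem_ofPred_eq, not_le] at ht
      rw [div_le_one ha]
      exact ht.le
  refine h1.trans ?_
  have h2 : ∫ t : unitInterval, V.indicator (fun _ => (1:ℝ)) t = (volume V).toReal := by
    rw [integral_indicator hVm]
    simp [Measure.real]
  rw [h2]
  have hmem : ∀ u : unitInterval, (u : ℝ) < 1 → ∀ i : ℕ, (i : ℝ) ≤ u * n → i < n := by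
    intro u hu i hi
    have hn' : (0 : ℝ) < n := by exact_mod_cast hn
    have : (i : ℝ) < n := by nlinarith
    exact_mod_cast this
  refine vol_cells hn (fun i hi => ?_) (fun t ht ht1 k hk1 hk2 => ?_)
  · rw [mem_filter, mem_range] at hi
    omega
  · rw [mem_filter, mem_range]
    have hkn := hmem t ht1 k hk1
    refine ⟨hkn, ?_⟩
    rw [hV] at ht
    have ht' : a ≤ T * Jo w 0 1 (pl n P) (pl n P t) := ht
    refine ht'.trans (mul_le_mul_of_nonneg_left ?_ hT)
    refine (Jo_le hw 0 1 (pl n P) (pl n P t)).trans ?_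
    refine vol_cells hn (fun i hi => ?_) (fun u hu hu1 i hi1 hi2 => ?_)
    · rw [mem_filter, mem_range] at hi
      omega
    · rw [mem_filter, mem_range]
      have hin := hmem u hu1 i hi1
      refine ⟨hin, ?_⟩
      have h3 := pl_close hstep hin hi1 hi2
      have h4 := pl_close hstep hkn hk1 hk2
      have h5 : dist (pl n P u) (pl n P t) ≤ 2 * w := hu.2
      have h6 := dist_triangle (P i) (pl n P u) (P k)
      have h7 := dist_triangle (pl n P u) (pl n P t) (P k)
      have h8 : dist (P i) (pl n P u) ≤ η := by rw [dist_comm]; exact h3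
      linarith

end Pool.Agent.Y995.HG
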