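import Pool.Agent.Y995.FS.LimS

/-!
Covering the image of a dyadic interval: recursion over the scales.
-/

set_option autoImplicit false
set_option linter.unusedVariables false

namespace Pool.Agent.Y995.HG

open MeasureTheory Filter Topology Pool.Agent.Y995.FS

/-- dyadic interval -/
def Dy (n k : ℕ) : Set unitInterval := {u | (k : ℝ) ≤ u * 2 ^ n ∧ (u : ℝ) * 2 ^ n ≤ k + 1}

theorem Dy_cover (n d k : ℕ) {u : unitInterval} (hu : u ∈ Dy n k) :
    ∃ j < 2 ^ d, u ∈ Dy (n + d) (k * 2 ^ d + j) := by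
  obtain ⟨h1, h2⟩ := hu
  have hd : (0 : ℝ) < 2 ^ d := by positivity
  have hd1 : 1 ≤ 2 ^ d := Nat.one_le_two_pow
  obtain ⟨x, hx⟩ : ∃ x : ℝ, x = u * 2 ^ (n + d) := ⟨_, rfl⟩
  have e : x = (u : ℝ) * 2 ^ n * 2 ^ d := by rw [hx, pow_add]; ring
  have hx1 : ((k * 2 ^ d : ℕ) : ℝ) ≤ x := by
    rw [e]; push_cast; exact mul_le_mul_of_nonneg_right h1 hd.le
  have hx2 : x ≤ ((k * 2 ^ d + 2 ^ d : ℕ) : ℝ) := by
    rw [e]; push_cast
    have := mul_le_mul_of_nonneg_right h2 hd.le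
    linarith
  obtain ⟨m, hm⟩ : ∃ m, m = ⌊x⌋₊ := ⟨_, rfl⟩
  have hx0 : 0 ≤ x := le_trans (Nat.cast_nonneg _) hx1
  have hm1 : (m : ℝ) ≤ x := by rw [hm]; exact Nat.floor_le hx0
  have hm2 : x < m + 1 := by rw [hm]; exact Nat.lt_floor_add_one _
  have hm3 : k * 2 ^ d ≤ m := by rw [hm]; exact Nat.le_floor hx1
  by_cases hcase : m < k * 2 ^ d + 2 ^ d
  · refine ⟨m - k * 2 ^ d, by omega, ?_⟩
    unfold Dy
    simp only [Set.mem_ofPred_eq]
    rw [← hx, show k * 2 ^ d + (m - k * 2 ^ d) = m by omega]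
    exact ⟨hm1, hm2.le⟩
  · push Not at hcase
    have hx3 : x = ((k * 2 ^ d + 2 ^ d : ℕ) : ℝ) :=
      le_antisymm hx2 (le_trans (by exact_mod_cast hcase) hm1)
    refine ⟨2 ^ d - 1, by omega, ?_⟩
    unfold Dy
    simp only [Set.mem_ofPred_eq]
    rw [← hx, hx3]
    have e2 : k * 2 ^ d + 2 ^ d = k * 2 ^ d + (2 ^ d - 1) + 1 := by omega
    rw [e2]
    push_cast
    constructor <;> linarith

theorem Dy_sub {n d k j : ℕ} (hj : j < 2 ^ d) : Dy (n + d) (k * 2 ^ d + j) ⊆ Dy n k := by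
  rintro u ⟨h1, h2⟩
  have hd : (0 : ℝ) < 2 ^ d := by positivity
  have e : (u : ℝ) * 2 ^ (n + d) = (u : ℝ) * 2 ^ n * 2 ^ d := by rw [pow_add]; ring
  rw [e] at h1 h2
  have hj' : (j : ℝ) + 1 ≤ 2 ^ d := by exact_mod_cast hj
  push_cast at h1 h2
  constructor
  · have h3 : (k : ℝ) * 2 ^ d ≤ (u : ℝ) * 2 ^ n * 2 ^ d := by
      have : (0 : ℝ) ≤ j := Nat.cast_nonneg _
      linarith
    exact le_of_mul_le_mul_right h3 hd
  · have h3 : (u : ℝ) * 2 ^ n * 2 ^ d ≤ ((k : ℝ) + 1) * 2 ^ d := by linarith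
    exact le_of_mul_le_mul_right h3 hd

theorem Dy_Icc {n k : ℕ} (hk : k + 1 ≤ 2 ^ n) :
    Dy n k = Set.Icc (nodeT (2 ^ n) k (by omega)) (nodeT (2 ^ n) (k + 1) hk) := by
  ext u
  rw [Set.mem_Icc]
  change _ ↔ ((k : ℝ) / ((2 ^ n : ℕ) : ℝ) ≤ (u : ℝ)) ∧
    ((u : ℝ) ≤ ((k + 1 : ℕ) : ℝ) / ((2 ^ n : ℕ) : ℝ))
  have hn : (0 : ℝ) < ((2 ^ n : ℕ) : ℝ) := by positivity
  rw [div_le_iff₀ hn, le_div_iff₀ hn]
  push_cast
  rfl

theorem Dy_vol {n k : ℕ} (hk : k + 1 ≤ 2 ^ n) :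
    volume (Dy n k) = ENNReal.ofReal ((1/2) ^ n) := by
  rw [Dy_Icc hk, unitInterval.volume_Icc]
  congr 1
  change ((k + 1 : ℕ) : ℝ) / ((2 ^ n : ℕ) : ℝ) - (k : ℝ) / ((2 ^ n : ℕ) : ℝ) = (1/2) ^ n
  have hn : (0 : ℝ) < (2 : ℝ) ^ n := by positivity
  push_cast
  rw [one_div, inv_pow]
  field_simp
  ring

theorem child_lt {n d k j : ℕ} (hk : k < 2 ^ n) (hj : j < 2 ^ d) :
    k * 2 ^ d + j < 2 ^ (n + d) := by
  rw [pow_add]
  calc k * 2 ^ d + j < k * 2 ^ d + 2 ^ d := by omega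
    _ = (k + 1) * 2 ^ d := by ring
    _ ≤ 2 ^ n * 2 ^ d := Nat.mul_le_mul_right _ hk

/-- One step. -/
theorem tree_step {ν : OuterMeasure ℂ} {f : C(unitInterval, ℂ)} {n d k N : ℕ} (hk : k < 2 ^ n)
    {w τ T V Cb : ℝ} (hw : 0 < w) (hT : 0 < T) (hτ : 0 < τ) (hCb : 0 ≤ Cb) (hV : Cb * T ≤ V)
    (hball : ∀ z : ℂ, ν (Metric.closedBall z (3 * w)) ≤ ENNReal.ofReal (Cb * τ))
    (hdiam : ∀ j < 2 ^ d, ∀ u ∈ Dy (n + d) (k * 2 ^ d + j), ∀ v ∈ Dy (n + d) (k * 2 ^ d + j),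
      dist (f u) (f v) ≤ w)
    (hch : ∀ j < 2 ^ d, ν (f '' Dy (n + d) (k * 2 ^ d + j)) ≤
      ENNReal.ofReal (V * (1/2) ^ (n + d)))
    (hz : ∃ z : Fin N → ℂ, (∀ a b, a ≠ b → 8 * w ≤ dist (z a) (z b)) ∧
      ∀ a, τ ≤ T * (volume {u : unitInterval | u ∈ Dy n k ∧ dist (f u) (z a) ≤ 2 * w}).toReal) :
    ν (f '' Dy n k) ≤ ENNReal.ofReal (V * (1/2) ^ n - N * τ / T * (V - Cb * T)) := by
  classical
  obtain ⟨z, z1, z2⟩ := hz
  have hCT : 0 ≤ Cb * T := by positivity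
  have hV0 : 0 ≤ V := hCT.trans hV
  obtain ⟨S, hS⟩ : ∃ S : Fin N → Finset ℕ, S = fun a => (Finset.range (2 ^ d)).filter
    (fun j => ∃ u ∈ Dy (n + d) (k * 2 ^ d + j), dist (f u) (z a) ≤ 2 * w) := ⟨_, rfl⟩
  have hSm : ∀ a j, j ∈ S a ↔ j < 2 ^ d ∧
      ∃ u ∈ Dy (n + d) (k * 2 ^ d + j), dist (f u) (z a) ≤ 2 * w := by
    intro a j
    rw [hS]
    simp only [Finset.mem_filter, Finset.mem_range]
  have hdis : ∀ a b, a ≠ b → Disjoint (S a) (S b) := by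
    intro a b hab
    rw [Finset.disjoint_left]
    intro j ha hb
    rw [hSm] at ha hb
    obtain ⟨hj, u, hu, hu2⟩ := ha
    obtain ⟨-, v, hv, hv2⟩ := hb
    have h1 := hdiam j hj u hu v hv
    have h2 := z1 a b hab
    have h3 := dist_triangle4 (z a) (f u) (f v) (z b)
    rw [dist_comm (z a) (f u)] at h3
    linarith
  obtain ⟨U, hU⟩ : ∃ U : Finset ℕ, U = Finset.univ.biUnion S := ⟨_, rfl⟩
  have hUr : U ⊆ Finset.range (2 ^ d) := by
    intro j hj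
    rw [hU, Finset.mem_biUnion] at hj
    obtain ⟨a, -, ha⟩ := hj
    exact Finset.mem_range.mpr ((hSm a j).1 ha).1
  have hUc : U.card = ∑ a, (S a).card := by
    rw [hU]
    exact Finset.card_biUnion fun a _ b _ hab => hdis a b hab
  obtain ⟨x, hx⟩ : ∃ x : ℝ, x = (1/2) ^ (n + d) := ⟨_, rfl⟩
  have hx0 : 0 < x := by rw [hx]; positivity
  -- every set of children is large
  have hbig : ∀ a, τ / T ≤ (S a).card * x := by
    intro a
    have h1 : {u : unitInterval | u ∈ Dy n k ∧ dist (f u) (z a) ≤ 2 * w} ⊆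
        ⋃ j ∈ S a, Dy (n + d) (k * 2 ^ d + j) := by
      rintro u ⟨hu1, hu2⟩
      obtain ⟨j, hj, hj2⟩ := Dy_cover n d k hu1
      rw [Set.mem_iUnion₂]
      exact ⟨j, (hSm a j).2 ⟨hj, u, hj2, hu2⟩, hj2⟩
    have h2 : volume {u : unitInterval | u ∈ Dy n k ∧ dist (f u) (z a) ≤ 2 * w} ≤
        ENNReal.ofReal ((S a).card * x) := by
      refine (measure_mono h1).trans ((measure_biUnion_finset_le _ _).trans ?_)
      rw [Finset.sum_congr rfl (fun j hj => Dy_vol (n := n + d) (k := k * 2 ^ d + j)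
        (child_lt hk ((hSm a j).1 hj).1)), Finset.sum_const, ← hx, nsmul_eq_mul,
        ENNReal.ofReal_mul (Nat.cast_nonneg _), ENNReal.ofReal_natCast]
    have h3 := ENNReal.toReal_mono ENNReal.ofReal_ne_top h2
    rw [ENNReal.toReal_ofReal (by positivity)] at h3
    rw [div_le_iff₀ hT]
    have h4 := z2 a
    nlinarith
  have hUx : N * τ / T ≤ U.card * x := by
    have h1 : ∑ _a : Fin N, τ / T ≤ ∑ a : Fin N, ((S a).card : ℝ) * x :=
      Finset.sum_le_sum fun a _ => hbig a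
    rw [Finset.sum_const, Finset.card_univ, Fintype.card_fin, nsmul_eq_mul] at h1
    rw [hUc]
    push_cast
    rw [Finset.sum_mul]
    calc N * τ / T = N * (τ / T) := by ring
      _ ≤ _ := h1
  -- the covering
  have hcov : f '' Dy n k ⊆ (⋃ a : Fin N, Metric.closedBall (z a) (3 * w)) ∪
      ⋃ j ∈ Finset.range (2 ^ d) \ U, f '' Dy (n + d) (k * 2 ^ d + j) := by
    rintro y ⟨u, hu, rfl⟩
    obtain ⟨j, hj, hj2⟩ := Dy_cover n d k hu
    by_cases hjU : j ∈ U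
    · left
      rw [hU, Finset.mem_biUnion] at hjU
      obtain ⟨a, -, ha⟩ := hjU
      obtain ⟨-, v, hv, hv2⟩ := (hSm a j).1 ha
      rw [Set.mem_iUnion]
      refine ⟨a, ?_⟩
      rw [Metric.mem_closedBall]
      have h1 := hdiam j hj u hj2 v hv
      have h2 := dist_triangle (f u) (f v) (z a)
      linarith
    · right
      rw [Set.mem_iUnion₂]
      exact ⟨j, Finset.mem_sdiff.mpr ⟨Finset.mem_range.mpr hj, hjU⟩, u, hj2, rfl⟩
  have hsum : ν (f '' Dy n k) ≤ ENNReal.ofReal (N * (Cb * τ)) +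
      ENNReal.ofReal (((Finset.range (2 ^ d) \ U).card : ℝ) * (V * x)) := by
    refine (measure_mono hcov).trans ((measure_union_le _ _).trans (add_le_add ?_ ?_))
    · refine (measure_iUnion_le _).trans ?_
      rw [tsum_fintype]
      refine (Finset.sum_le_sum fun a _ => hball (z a)).trans ?_
      rw [Finset.sum_const, Finset.card_univ, Fintype.card_fin, nsmul_eq_mul,
        ENNReal.ofReal_mul (Nat.cast_nonneg _), ENNReal.ofReal_natCast]
    · refine (measure_biUnion_finset_le _ _).trans ?_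
      have h1 : ∀ j ∈ Finset.range (2 ^ d) \ U, ν (f '' Dy (n + d) (k * 2 ^ d + j)) ≤
          ENNReal.ofReal (V * x) := by
        intro j hj
        rw [hx]
        exact hch j (Finset.mem_range.mp (Finset.mem_sdiff.mp hj).1)
      refine (Finset.sum_le_sum h1).trans ?_
      rw [Finset.sum_const, nsmul_eq_mul,
        ENNReal.ofReal_mul (Nat.cast_nonneg _), ENNReal.ofReal_natCast]
  refine hsum.trans ?_
  rw [← ENNReal.ofReal_add (by positivity) (by positivity)]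
  refine ENNReal.ofReal_le_ofReal ?_
  have hc1 : ((Finset.range (2 ^ d) \ U).card : ℝ) = 2 ^ d - U.card := by
    rw [Finset.card_sdiff_of_subset hUr, Finset.card_range, Nat.cast_sub]
    · push_cast; ring
    · have := Finset.card_le_card hUr
      rwa [Finset.card_range] at this
  have hxd : (2 : ℝ) ^ d * x = (1/2) ^ n := by
    rw [hx, pow_add]
    have : (2 : ℝ) ^ d * (1/2) ^ d = 1 := by rw [← mul_pow]; norm_num
    calc (2 : ℝ) ^ d * ((1/2) ^ n * (1/2) ^ d) = (1/2) ^ n * ((2 : ℝ) ^ d * (1/2) ^ d) := by ring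
      _ = _ := by rw [this, mul_one]
  rw [hc1]
  have h5 : V * (N * τ / T) ≤ V * (U.card * x) := mul_le_mul_of_nonneg_left hUx hV0
  have h6 : N * (Cb * τ) = N * τ / T * (Cb * T) := by field_simp
  calc N * (Cb * τ) + (2 ^ d - (U.card : ℝ)) * (V * x)
      = N * τ / T * (Cb * T) + V * ((2 : ℝ) ^ d * x) - V * (U.card * x) := by rw [h6]; ring
    _ ≤ N * τ / T * (Cb * T) + V * (1/2) ^ n - V * (N * τ / T) := by rw [hxd]; linarith
    _ = _ := by ring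

/-- The data of the recursion. -/
structure Scales (ν : OuterMeasure ℂ) (f : C(unitInterval, ℂ)) (T Cb : ℝ) (lv dd N : ℕ → ℕ)
    (w τ q V : ℕ → ℝ) (i0 : ℕ) (I0 : Set unitInterval) : Prop where
  lv_succ : ∀ i, lv (i + 1) = lv i + dd i
  w_pos : ∀ i, 0 < w i
  τ_pos : ∀ i, i0 ≤ i → 0 < τ i
  ball : ∀ i, i0 ≤ i → ∀ z : ℂ, ν (Metric.closedBall z (3 * w i)) ≤ ENNReal.ofReal (Cb * τ i)
  diam : ∀ i, i0 ≤ i → ∀ k < 2 ^ lv (i + 1), ∀ u ∈ Dy (lv (i + 1)) k, ∀ v ∈ Dy (lv (i + 1)) k,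
    dist (f u) (f v) ≤ w i
  apri : ∀ i, i0 ≤ i → ∀ k < 2 ^ lv i, ν (f '' Dy (lv i) k) ≤ ENNReal.ofReal (V i * (1/2) ^ lv i)
  V_ge : ∀ i, i0 ≤ i → Cb * T ≤ V i
  q_nonneg : ∀ i, 0 ≤ q i
  q_le : ∀ i, i0 ≤ i → q i ≤ 1
  gain : ∀ i, i0 ≤ i → q i * (1/2) ^ lv i ≤ N i * τ i / T
  succ : ∀ i, i0 ≤ i → ∀ k < 2 ^ lv i, Dy (lv i) k ⊆ I0 →
    ∃ z : Fin (N i) → ℂ, (∀ a b, a ≠ b → 8 * w i ≤ dist (z a) (z b)) ∧
      ∀ a, τ i ≤ T *
        (volume {u : unitInterval | u ∈ Dy (lv i) k ∧ dist (f u) (z a) ≤ 2 * w i}).toReal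

theorem tree_rec {ν : OuterMeasure ℂ} {f : C(unitInterval, ℂ)} {T Cb : ℝ} {lv dd N : ℕ → ℕ}
    {w τ q V : ℕ → ℝ} {i0 : ℕ} {I0 : Set unitInterval} (hT : 0 < T) (hCb : 0 ≤ Cb)
    (h : Scales ν f T Cb lv dd N w τ q V i0 I0) : ∀ m i : ℕ, i0 ≤ i → ∀ k < 2 ^ lv i,
      Dy (lv i) k ⊆ I0 → ν (f '' Dy (lv i) k) ≤ ENNReal.ofReal
        ((Cb * T + (∏ j ∈ Finset.range m, (1 - q (i + j))) * (V (i + m) - Cb * T)) *
          (1/2) ^ lv i) := by
  intro m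
  induction m with
  | zero =>
    intro i hi k hk hI
    rw [Finset.prod_range_zero, one_mul, Nat.add_zero]
    refine (h.apri i hi k hk).trans (le_of_eq ?_)
    congr 2
    ring
  | succ m ih =>
    intro i hi k hk hI
    obtain ⟨P, hP⟩ : ∃ P : ℝ, P = ∏ j ∈ Finset.range m, (1 - q (i + 1 + j)) := ⟨_, rfl⟩
    have hP0 : 0 ≤ P := by
      rw [hP]
      exact Finset.prod_nonneg fun j _ => by
        have := h.q_le (i + 1 + j) (by omega)
        linarith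
    obtain ⟨V', hV'⟩ : ∃ V' : ℝ, V' = Cb * T + P * (V (i + 1 + m) - Cb * T) := ⟨_, rfl⟩
    have hV1 : Cb * T ≤ V' := by
      have h1 := h.V_ge (i + 1 + m) (by omega)
      have h2 : 0 ≤ P * (V (i + 1 + m) - Cb * T) := mul_nonneg hP0 (by linarith)
      linarith
    have hst := tree_step (ν := ν) (f := f) (n := lv i) (d := dd i) (N := N i) hk (h.w_pos i) hT
      (h.τ_pos i hi) hCb hV1 (h.ball i hi) (fun j hj u hu v hv => by
        have h1 := h.diam i hi (k * 2 ^ dd i + j)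
        rw [h.lv_succ i] at h1
        exact h1 (child_lt hk hj) u hu v hv) (fun j hj => by
        have h1 := ih (i + 1) (by omega) (k * 2 ^ dd i + j)
        rw [h.lv_succ i, ← hP, ← hV'] at h1
        exact h1 (child_lt hk hj) ((Dy_sub hj).trans hI)) (h.succ i hi k hk hI)
    refine hst.trans (ENNReal.ofReal_le_ofReal ?_)
    have h2 : q i * (1/2) ^ lv i * (V' - Cb * T) ≤ N i * τ i / T * (V' - Cb * T) :=
      mul_le_mul_of_nonneg_right (h.gain i hi) (by linarith)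
    have e1 : ∏ j ∈ Finset.range (m + 1), (1 - q (i + j)) = (1 - q i) * P := by
      rw [Finset.prod_range_succ', mul_comm, hP, Nat.add_zero]
      congr 1
      refine Finset.prod_congr rfl fun j _ => ?_
      rw [show i + (j + 1) = i + 1 + j by omega]
    have e2 : i + (m + 1) = i + 1 + m := by omega
    rw [e1, e2]
    have e3 : V' - Cb * T = P * (V (i + 1 + m) - Cb * T) := by rw [hV']; ring
    calc V' * (1/2) ^ lv i - N i * τ i / T * (V' - Cb * T)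
        ≤ V' * (1/2) ^ lv i - q i * (1/2) ^ lv i * (V' - Cb * T) := by linarith
      _ = (Cb * T + (1 - q i) * (V' - Cb * T)) * (1/2) ^ lv i := by ring
      _ = _ := by rw [e3]; ring

theorem tree_lim {ν : OuterMeasure ℂ} {f : C(unitInterval, ℂ)} {T Cb : ℝ} {lv dd N : ℕ → ℕ}
    {w τ q V : ℕ → ℝ} {i0 : ℕ} {I0 : Set unitInterval} (hT : 0 < T) (hCb : 0 ≤ Cb)
    (h : Scales ν f T Cb lv dd N w τ q V i0 I0)
    {i : ℕ} (hlim : Tendsto (fun m => (∏ j ∈ Finset.range m, (1 - q (i + j))) * V (i + m)) atTop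
      (𝓝 0)) (hi : i0 ≤ i) {k : ℕ} (hk : k < 2 ^ lv i) (hI : Dy (lv i) k ⊆ I0) :
    ν (f '' Dy (lv i) k) ≤ ENNReal.ofReal (Cb * T * (1/2) ^ lv i) := by
  have h1 : ∀ m : ℕ, ν (f '' Dy (lv i) k) ≤ ENNReal.ofReal
      ((Cb * T + (∏ j ∈ Finset.range m, (1 - q (i + j))) * V (i + m)) * (1/2) ^ lv i) := by
    intro m
    refine (tree_rec hT hCb h m i hi k hk hI).trans (ENNReal.ofReal_le_ofReal ?_)
    refine mul_le_mul_of_nonneg_right ?_ (by positivity)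
    have hP0 : 0 ≤ ∏ j ∈ Finset.range m, (1 - q (i + j)) :=
      Finset.prod_nonneg fun j _ => by
        have := h.q_le (i + j) (by omega)
        linarith
    have hCT : 0 ≤ Cb * T := by positivity
    nlinarith
  have h2 : Tendsto (fun m : ℕ => ENNReal.ofReal
      ((Cb * T + (∏ j ∈ Finset.range m, (1 - q (i + j))) * V (i + m)) * (1/2) ^ lv i)) atTop
      (𝓝 (ENNReal.ofReal ((Cb * T + 0) * (1/2) ^ lv i))) := by
    refine ENNReal.tendsto_ofReal ?_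
    exact (hlim.const_add _).mul_const _
  rw [add_zero] at h2
  exact ge_of_tendsto' h2 h1

end Pool.Agent.Y995.HG
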