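import Pool.Agent.Y995.HG.LatM
import Pool.Agent.Y995.HG.Tree
import Pool.Agent.Y995.HG.Sc

/-!
Upper bound for the Hausdorff measure with the gauge `r ^ (7/4) (log log (1/r)) ^ (1/8)`.
-/

set_option autoImplicit false
set_option linter.unusedVariables false

namespace Pool.Agent.Y995.HG

open H974 Finset H342P H984P H984N Pool.Agent.Y995.FS MeasureTheory Filter Topology
open scoped ENNReal

/-- the gauge on `[0, ∞]` -/
noncomputable def gm (r : ℝ≥0∞) : ℝ≥0∞ := ENNReal.ofReal (ga r.toReal)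

/-- the bad set of stage `i` -/
def BadI (κ K3 A0 : ℝ) (R : Rect) (ρ : ℝ) (i : ℕ) : Set X :=
  BadN R ρ (ww i) (κ * (((kq K3 i : ℕ) : ℝ) ^ (1/4 : ℝ) * ww i ^ (7/4 : ℝ)))
    (A0 * ((ww i * Real.exp (2 * (K3 * ((kq K3 i : ℕ) : ℝ) ^ 2))) ^ (7/4 : ℝ) * NN i)) (NN i)

theorem gm_le {s : Set ℂ} {x : ℝ} (hx : 0 ≤ x) (hx1 : x ≤ Real.exp (-Real.exp 1))
    (h : ∀ u ∈ s, ∀ v ∈ s, dist u v ≤ x) : gm (Metric.ediam s) ≤ ENNReal.ofReal (ga x) := by
  have h1 : Metric.ediam s ≤ ENNReal.ofReal x := Metric.ediam_le_of_forall_dist_le h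
  unfold gm
  refine ENNReal.ofReal_le_ofReal (ga_mono ENNReal.toReal_nonneg ?_ hx1)
  have h2 := ENNReal.toReal_mono ENNReal.ofReal_ne_top h1
  rwa [ENNReal.toReal_ofReal hx] at h2

theorem Dy_dist {n k : ℕ} {u v : unitInterval} (hu : u ∈ Dy n k) (hv : v ∈ Dy n k) :
    |(u : ℝ) - v| ≤ (1/2) ^ n := by
  obtain ⟨h1, h2⟩ := hu
  obtain ⟨h3, h4⟩ := hv
  have hn : (0:ℝ) < 2 ^ n := by positivity
  have e : ((1:ℝ)/2) ^ n * 2 ^ n = 1 := by rw [← mul_pow]; norm_num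
  rw [abs_le]
  constructor
  · have : (-(1/2) ^ n) * 2 ^ n ≤ ((u : ℝ) - v) * 2 ^ n := by
      rw [neg_mul, e]; linarith
    exact le_of_mul_le_mul_right this hn
  · have : ((u : ℝ) - v) * 2 ^ n ≤ ((1/2) ^ n) * 2 ^ n := by
      rw [e]; linarith
    exact le_of_mul_le_mul_right this hn

/-- dyadic intervals of large level in the bulk -/
theorem up_dyadic {κ K3 A0 : ℝ} (hκ : 0 < κ) (hK : 1 ≤ K3) (hA : 0 < A0) {R : Rect} {p : X}
    (hp : 0 < p.2) {Cm h0 : ℝ} (hCm : 0 < Cm) (hh0 : 0 < h0)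
    (hmod : ∀ h : ℝ, 0 < h → h < h0 → ∀ s t : unitInterval, |(s : ℝ) - t| * p.2 ≤ h →
      dist (p.1 s) (p.1 t) ≤ Cm * (h ^ (4/7 : ℝ) * Real.log (1 / h) ^ (3/7 : ℝ)))
    {ρ : ℝ} (hbad : ∀ᶠ i in atTop, p ∉ BadI κ K3 A0 R ρ i) {ε : ℝ≥0∞} (hε : 0 < ε) :
    ∀ᶠ i in atTop, ∀ k < 2 ^ lv i, (∀ u ∈ Dy (lv i) k, ρ < dep R (p.1 u)) →
      OuterMeasure.mkMetric'.pre (fun s : Set ℂ => gm (Metric.ediam s)) ε (p.1 '' Dy (lv i) k) ≤
        ENNReal.ofReal ((6 ^ (7/4 : ℝ) * (224 * K3) ^ (1/8 : ℝ) / κ) * p.2 * (1/2) ^ lv i) := by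
  classical
  obtain ⟨Cb, hCb⟩ : ∃ Cb : ℝ, Cb = 6 ^ (7/4 : ℝ) * (224 * K3) ^ (1/8 : ℝ) / κ := ⟨_, rfl⟩
  have hCb0 : 0 < Cb := by rw [hCb]; positivity
  rw [← hCb]
  obtain ⟨T, hT⟩ : ∃ T, T = p.2 := ⟨_, rfl⟩
  rw [← hT] at hp hmod ⊢
  obtain ⟨ν, hν⟩ : ∃ ν : OuterMeasure ℂ,
    ν = OuterMeasure.mkMetric'.pre (fun s : Set ℂ => gm (Metric.ediam s)) ε := ⟨_, rfl⟩
  rw [← hν]
  obtain ⟨B, hB, hBV⟩ := ev_V hCm hp
  obtain ⟨a, ha⟩ : ∃ a : ℝ, a = κ / (2 * T) := ⟨_, rfl⟩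
  have ha0 : 0 < a := by rw [ha]; positivity
  have hsmall : ∀ {x : ℕ → ℝ}, Tendsto x atTop (𝓝 0) → ∀ᶠ i in atTop, ENNReal.ofReal (x i) ≤ ε := by
    intro x hx
    have h1 : Tendsto (fun i => ENNReal.ofReal (x i)) atTop (𝓝 (ENNReal.ofReal 0)) :=
      ENNReal.tendsto_ofReal hx
    rw [ENNReal.ofReal_zero] at h1
    exact h1.eventually (ge_mem_nhds hε)
  have hw6 : Tendsto (fun i : ℕ => 6 * ww i) atTop (𝓝 0) := by
    have := ww_tend.const_mul 6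
    rwa [mul_zero] at this
  have hDm : Tendsto (fun i : ℕ => Dm' Cm (T * (1/2) ^ lv i)) atTop (𝓝 0) := by
    have h1 : Tendsto (fun i : ℕ => Dm' Cm (T * (1/2) ^ lv (i + 1))) atTop (𝓝 0) := by
      refine squeeze_zero' ?_ (ev_diam hCm hp) ww_tend
      filter_upwards [(tendsto_add_atTop_nat 1).eventually hBV] with i hi
      exact hi.2.1
    exact (tendsto_add_atTop_iff_nat 1).1 h1
  have hq : ∀ᶠ i : ℕ in atTop, a / (((Nat.sqrt i : ℕ) : ℝ) + 1) ≤ 1 := by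
    obtain ⟨b, hb⟩ := exists_nat_gt a
    filter_upwards [eventually_ge_atTop (b * b)] with i hi
    have h1 : b ≤ Nat.sqrt i := Nat.le_sqrt.mpr hi
    have h2 : (b : ℝ) ≤ ((Nat.sqrt i : ℕ) : ℝ) := by exact_mod_cast h1
    rw [div_le_one (by positivity)]
    linarith
  have hall := (((((((hbad.and (ev_h hK hA hp)).and (ev_ball hK hκ)).and
    (ev_diam hCm hp)).and hBV).and hq).and ((kq_tend hK).eventually (eventually_ge_atTop 1))).and
    ((hsmall hw6).and (hsmall hDm))).and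
      (((h_tend T).eventually (gt_mem_nhds hh0)).and
        ((tendsto_add_atTop_nat 1).eventually ((h_tend T).eventually (gt_mem_nhds hh0))))
  obtain ⟨i0, hi0⟩ := eventually_atTop.1 hall
  refine eventually_atTop.2 ⟨i0, fun i hi k hk hbulk => ?_⟩
  have hsc : Scales ν p.1 T Cb lv (fun i => 14 * i + 6) NN ww
      (fun i => κ * (((kq K3 i : ℕ) : ℝ) ^ (1/4 : ℝ) * ww i ^ (7/4 : ℝ)))
      (fun i => a / (((Nat.sqrt i : ℕ) : ℝ) + 1))
      (fun i => B * ((i : ℝ) + 1) ^ 4 + Cb * T) i0 (Dy (lv i) k) := by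
    refine ⟨lv_succ, ww_pos, ?_, ?_, ?_, ?_, ?_, ?_, ?_, ?_, ?_⟩
    · intro j hj
      obtain ⟨⟨⟨⟨⟨⟨⟨⟨h1, h2⟩, h3⟩, h4⟩, h5⟩, h6⟩, h7⟩, h8, h9⟩, h10, h11⟩ := hi0 j hj
      have h12 : (0:ℝ) < ((kq K3 j : ℕ) : ℝ) := by
        have : 0 < kq K3 j := h7
        exact_mod_cast this
      have := ww_pos j
      positivity
    · intro j hj z
      obtain ⟨⟨⟨⟨⟨⟨⟨⟨h1, h2⟩, h3⟩, h4⟩, h5⟩, h6⟩, h7⟩, h8, h9⟩, h10, h11⟩ := hi0 j hj
      have hwj := ww_pos j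
      have hd : ∀ u ∈ Metric.closedBall z (3 * ww j), ∀ v ∈ Metric.closedBall z (3 * ww j),
          dist u v ≤ 6 * ww j := by
        intro u hu v hv
        rw [Metric.mem_closedBall] at hu hv
        have := dist_triangle_right u v z
        linarith
      have hs : Metric.ediam (Metric.closedBall z (3 * ww j)) ≤ ε :=
        (Metric.ediam_le_of_forall_dist_le hd).trans h8
      rw [hν]
      refine (OuterMeasure.mkMetric'.pre_le hs).trans ?_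
      refine (gm_le (by positivity) h3.1 hd).trans (ENNReal.ofReal_le_ofReal ?_)
      have := h3.2
      rw [← hCb] at this
      exact this
    · intro j hj k' hk' u hu v hv
      obtain ⟨⟨⟨⟨⟨⟨⟨⟨h1, h2⟩, h3⟩, h4⟩, h5⟩, h6⟩, h7⟩, h8, h9⟩, h10, h11⟩ := hi0 j hj
      refine le_trans ?_ h4
      have hx := Dy_dist hu hv
      exact hmod _ (by positivity) h11 u v (by
        rw [mul_comm]
        exact mul_le_mul_of_nonneg_left hx hp.le)
    · intro j hj k' hk'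
      obtain ⟨⟨⟨⟨⟨⟨⟨⟨h1, h2⟩, h3⟩, h4⟩, h5⟩, h6⟩, h7⟩, h8, h9⟩, h10, h11⟩ := hi0 j hj
      have hd : ∀ x ∈ p.1 '' Dy (lv j) k', ∀ y ∈ p.1 '' Dy (lv j) k',
          dist x y ≤ Dm' Cm (T * (1/2) ^ lv j) := by
        rintro _ ⟨u, hu, rfl⟩ _ ⟨v, hv, rfl⟩
        have hx := Dy_dist hu hv
        exact hmod _ (by positivity) h10 u v (by
          rw [mul_comm]
          exact mul_le_mul_of_nonneg_left hx hp.le)
      have hs : Metric.ediam (p.1 '' Dy (lv j) k') ≤ ε :=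
        (Metric.ediam_le_of_forall_dist_le hd).trans h9
      rw [hν]
      refine (OuterMeasure.mkMetric'.pre_le hs).trans ?_
      refine (gm_le h5.2.1 h5.1 hd).trans (ENNReal.ofReal_le_ofReal ?_)
      refine h5.2.2.trans ?_
      refine mul_le_mul_of_nonneg_right ?_ (by positivity)
      have : 0 < Cb * T := by positivity
      linarith
    · intro j hj
      have : 0 ≤ B * ((j : ℝ) + 1) ^ 4 := by positivity
      linarith
    · intro j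
      positivity
    · intro j hj
      obtain ⟨⟨⟨⟨⟨⟨⟨⟨h1, h2⟩, h3⟩, h4⟩, h5⟩, h6⟩, h7⟩, h8, h9⟩, h10, h11⟩ := hi0 j hj
      exact h6
    · intro j hj
      obtain ⟨⟨⟨⟨⟨⟨⟨⟨h1, h2⟩, h3⟩, h4⟩, h5⟩, h6⟩, h7⟩, h8, h9⟩, h10, h11⟩ := hi0 j hj
      have := gain_ok (K3 := K3) hκ hp h7
      rw [ha, div_div]
      exact this
    · intro j hj k' hk' hsub
      obtain ⟨⟨⟨⟨⟨⟨⟨⟨h1, h2⟩, h3⟩, h4⟩, h5⟩, h6⟩, h7⟩, h8, h9⟩, h10, h11⟩ := hi0 j hj
      by_contra hcon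
      apply h1
      have hD := Dy_Icc (n := lv j) (k := k') hk'
      refine ⟨nodeT (2 ^ lv j) k' (by omega), nodeT (2 ^ lv j) (k' + 1) hk', ?_, ?_, ?_⟩
      · intro u hu1 hu2
        refine hbulk u (hsub ?_)
        rw [hD]
        exact ⟨hu1, hu2⟩
      · rw [← hT]
        refine h2.trans_le (le_of_eq ?_)
        congr 1
        change ((1:ℝ)/2) ^ lv j = ((k' + 1 : ℕ) : ℝ) / ((2 ^ lv j : ℕ) : ℝ) -
          (k' : ℝ) / ((2 ^ lv j : ℕ) : ℝ)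
        push_cast
        rw [one_div, inv_pow]
        field_simp
        ring
      · rintro ⟨z, z1, z2, z3⟩
        apply hcon
        refine ⟨z, z2, fun b => ?_⟩
        refine (z3 b).trans ?_
        rw [← hT]
        refine mul_le_mul_of_nonneg_left ?_ hp.le
        refine (Jo_le (ww_pos j) _ _ p.1 (z b)).trans (le_of_eq ?_)
        congr 2
        ext u
        rw [hD]
        rfl
  refine tree_lim hp hCb0.le hsc ?_ hi hk subset_rfl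
  exact prod_lim ha0 (B := B + Cb * T) (V := fun i => B * ((i : ℝ) + 1) ^ 4 + Cb * T)
    (by positivity) (fun i => rfl) (fun j hj => by
    obtain ⟨⟨⟨⟨⟨⟨⟨⟨h1, h2⟩, h3⟩, h4⟩, h5⟩, h6⟩, h7⟩, h8, h9⟩, h10, h11⟩ := hi0 j (hi.trans hj)
    exact h6) (fun j => by positivity) (fun j => by
      have h1 : (1:ℝ) ≤ ((j : ℝ) + 1) ^ 4 := one_le_pow₀ (by
        have : (0:ℝ) ≤ j := Nat.cast_nonneg _
        linarith)
      have h2 : 0 < Cb * T := by positivity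
      nlinarith)

end Pool.Agent.Y995.HG
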