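import Pool.Agent.Y995.HG.LowBC
import Pool.Agent.Y995.HG.Up

/-!
Lower bound for the gauge measure: the mass distribution principle.
-/

set_option autoImplicit false
set_option linter.unusedVariables false

namespace Pool.Agent.Y995.HG

open H974 Finset H342P H984P H984N Pool.Agent.Y995.FS MeasureTheory Filter Topology
open scoped ENNReal

/-- the constant -/
noncomputable def Cl (l : ℝ) : ℝ := 4 * l * (2 ^ (7/4 : ℝ) * 2 ^ (1/8 : ℝ))

theorem Cl_pos {l : ℝ} (hl : 0 < l) : 0 < Cl l := by unfold Cl; positivity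

theorem av_ga {l d : ℝ} (hl : 0 < l) {n : ℕ} (hn : 3 ≤ n) (h1 : ((1:ℝ)/2) ^ (n + 1) < d)
    (h2 : d ≤ ((1:ℝ)/2) ^ n) : 2 * av l n ≤ Cl l * ga d := by
  have hd : 0 < d := lt_trans (by positivity) h1
  have hn0 : (0 : ℝ) < n := by exact_mod_cast (by omega : 0 < n)
  have hn3 : (3 : ℝ) ≤ n := by exact_mod_cast hn
  have hlogn : 0 < Real.log n := Real.log_pos (by linarith)
  have hl2 : 0.6931471803 < Real.log 2 := Real.log_two_gt_d9
  have hl2' : 0 < Real.log 2 := by linarith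
  -- the scale
  have e1 : (((1:ℝ)/2) ^ n) ^ (7/4 : ℝ) ≤ 2 ^ (7/4 : ℝ) * d ^ (7/4 : ℝ) := by
    rw [← Real.mul_rpow (by norm_num) hd.le]
    refine Real.rpow_le_rpow (by positivity) ?_ (by norm_num)
    rw [pow_succ] at h1
    linarith
  -- the logarithm
  have e2 : (n : ℝ) * Real.log 2 ≤ Real.log (1 / d) := by
    have h3 : Real.log d ≤ Real.log (((1:ℝ)/2) ^ n) := Real.log_le_log hd h2
    rw [Real.log_pow, one_div, Real.log_inv] at h3
    rw [one_div, Real.log_inv]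
    linarith
  have e3 : Real.log n ≤ 2 * Real.log (Real.log (1 / d)) := by
    have h3 : Real.log ((n : ℝ) * Real.log 2) ≤ Real.log (Real.log (1 / d)) :=
      Real.log_le_log (by positivity) e2
    have h4 : Real.log n ≤ 2 * Real.log ((n : ℝ) * Real.log 2) := by
      have h5 : (2 : ℝ) * Real.log ((n : ℝ) * Real.log 2) =
          Real.log (((n : ℝ) * Real.log 2) ^ 2) := by
        rw [Real.log_pow]; norm_num
      rw [h5]
      refine Real.log_le_log hn0 ?_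
      have h6 : (0.48 : ℝ) ≤ Real.log 2 ^ 2 := by nlinarith
      have h7 : 1 ≤ (n : ℝ) * Real.log 2 ^ 2 := by nlinarith
      calc (n : ℝ) = n * 1 := by ring
        _ ≤ n * (n * Real.log 2 ^ 2) := mul_le_mul_of_nonneg_left h7 hn0.le
        _ = ((n : ℝ) * Real.log 2) ^ 2 := by ring
    linarith
  have e4 : Real.log n ^ (1/8 : ℝ) ≤ 2 ^ (1/8 : ℝ) * Real.log (Real.log (1 / d)) ^ (1/8 : ℝ) := by
    have h0 : 0 ≤ Real.log (Real.log (1 / d)) := by linarith
    rw [← Real.mul_rpow (by norm_num) h0]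
    exact Real.rpow_le_rpow hlogn.le e3 (by norm_num)
  unfold av Cl ga
  have h0 : 0 ≤ Real.log (Real.log (1 / d)) := by linarith
  calc 2 * (2 * l * ((((1:ℝ)/2) ^ n) ^ (7/4 : ℝ) * Real.log n ^ (1/8 : ℝ))) ≤
        2 * (2 * l * ((2 ^ (7/4 : ℝ) * d ^ (7/4 : ℝ)) *
          (2 ^ (1/8 : ℝ) * Real.log (Real.log (1 / d)) ^ (1/8 : ℝ)))) := by
        gcongr
    _ = _ := by ring

theorem av_tend (l : ℝ) : Tendsto (av l) atTop (𝓝 0) := by
  have h1 : Tendsto (fun n : ℕ => (n : ℝ) ^ 1 * ((1:ℝ)/2) ^ n) atTop (𝓝 0) :=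
    tendsto_pow_const_mul_const_pow_of_lt_one 1 (by norm_num) (by norm_num)
  have h2 : Tendsto (fun n : ℕ => |2 * l| * ((n : ℝ) ^ 1 * ((1:ℝ)/2) ^ n)) atTop (𝓝 0) := by
    have := h1.const_mul |2 * l|
    rwa [mul_zero] at this
  refine squeeze_zero_norm' ?_ h2
  filter_upwards [eventually_ge_atTop 3] with n hn
  have hn0 : (0 : ℝ) < n := by exact_mod_cast (by omega : 0 < n)
  have hn3 : (3 : ℝ) ≤ n := by exact_mod_cast hn
  have hlog : 1 ≤ Real.log n := by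
    rw [Real.le_log_iff_exp_le hn0]
    have := Real.exp_one_lt_d9
    linarith
  have hlog2 : Real.log n ≤ n := (Real.log_le_sub_one_of_pos hn0).trans (by linarith)
  unfold av
  rw [Real.norm_eq_abs, abs_mul]
  refine mul_le_mul_of_nonneg_left ?_ (abs_nonneg _)
  rw [abs_of_nonneg (by positivity), mul_comm]
  have h3 : Real.log n ^ (1/8 : ℝ) ≤ (n : ℝ) ^ 1 := by
    rw [pow_one]
    refine (Real.rpow_le_rpow_of_exponent_le hlog (by norm_num : (1/8 : ℝ) ≤ 1)).trans ?_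
    rw [Real.rpow_one]
    exact hlog2
  have h4 : (((1:ℝ)/2) ^ n) ^ (7/4 : ℝ) ≤ ((1:ℝ)/2) ^ n := by
    have h5 : ((1:ℝ)/2) ^ n ≤ 1 := pow_le_one₀ (by norm_num) (by norm_num)
    have h6 := Real.rpow_le_rpow_of_exponent_ge (x := ((1:ℝ)/2) ^ n) (by positivity) h5
      (by norm_num : (1 : ℝ) ≤ 7/4)
    rwa [Real.rpow_one] at h6
  exact mul_le_mul h3 h4 (by positivity) (by positivity)

/-- one set of the cover -/
theorem one_set {l : ℝ} (hl : 0 < l) {p : X} (hp : 0 < p.2) {j0 : ℕ} (hj0 : 3 ≤ j0)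
    {G : Set unitInterval} (hG : ∀ t ∈ G, ∀ j : ℕ, j0 ≤ j → p.2 *
      (volume {u : unitInterval | dist (p.1 u) (p.1 t) ≤ ((1:ℝ)/2) ^ j}).toReal < 2 * av l j)
    {E : Set ℂ} (hE : Metric.ediam E ≤ ENNReal.ofReal (((1:ℝ)/2) ^ j0)) :
    ENNReal.ofReal p.2 * volume (p.1 ⁻¹' E ∩ G) ≤
      ENNReal.ofReal (Cl l) * ⨆ _ : E.Nonempty, gm (Metric.ediam E) := by
  rcases (p.1 ⁻¹' E ∩ G).eq_empty_or_nonempty with h0 | ⟨t, ht1, ht2⟩
  · rw [h0, measure_empty, mul_zero]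
    exact zero_le
  have hne : E.Nonempty := ⟨_, ht1⟩
  rw [ciSup_pos hne]
  have hfin : Metric.ediam E ≠ ⊤ := ne_top_of_le_ne_top ENNReal.ofReal_ne_top hE
  obtain ⟨d, hd⟩ : ∃ d : ℝ, d = (Metric.ediam E).toReal := ⟨_, rfl⟩
  have hd0 : 0 ≤ d := by rw [hd]; exact ENNReal.toReal_nonneg
  have hdj : d ≤ ((1:ℝ)/2) ^ j0 := by
    rw [hd]
    have := ENNReal.toReal_mono ENNReal.ofReal_ne_top hE
    rwa [ENNReal.toReal_ofReal (by positivity)] at this
  have hsub : ∀ r : ℝ, d ≤ r → p.1 ⁻¹' E ∩ G ⊆ {u : unitInterval | dist (p.1 u) (p.1 t) ≤ r} := by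
    rintro r hr u ⟨hu, -⟩
    have h1 : edist (p.1 u) (p.1 t) ≤ Metric.ediam E := Metric.edist_le_ediam_of_mem hu ht1
    have h2 : dist (p.1 u) (p.1 t) ≤ d := by
      rw [hd, dist_edist]
      exact ENNReal.toReal_mono hfin h1
    exact h2.trans hr
  have hv : ∀ j : ℕ, j0 ≤ j → d ≤ ((1:ℝ)/2) ^ j →
      ENNReal.ofReal p.2 * volume (p.1 ⁻¹' E ∩ G) ≤ ENNReal.ofReal (2 * av l j) := by
    intro j hj hdj
    have h1 := hG t ht2 j hj
    have h2 := measure_mono (μ := volume) (hsub _ hdj)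
    refine (mul_le_mul_right h2 _).trans ?_
    rw [← ENNReal.ofReal_toReal (measure_ne_top volume {u : unitInterval |
      dist (p.1 u) (p.1 t) ≤ ((1:ℝ)/2) ^ j}), ← ENNReal.ofReal_mul hp.le]
    exact ENNReal.ofReal_le_ofReal h1.le
  rcases hd0.eq_or_lt with h0 | h0
  · -- a point
    have h1 : Tendsto (fun j : ℕ => ENNReal.ofReal (2 * av l j)) atTop (𝓝 0) := by
      have h2 := ENNReal.tendsto_ofReal ((av_tend l).const_mul 2)
      rwa [mul_zero, ENNReal.ofReal_zero] at h2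
    have h2 : ENNReal.ofReal p.2 * volume (p.1 ⁻¹' E ∩ G) ≤ 0 := by
      refine ge_of_tendsto h1 ?_
      filter_upwards [eventually_ge_atTop j0] with j hj
      exact hv j hj (by rw [← h0]; positivity)
    exact h2.trans zero_le
  · obtain ⟨n, hn1, hn2⟩ := exists_nat_pow_near_of_lt_one h0
      (hdj.trans (pow_le_one₀ (by norm_num) (by norm_num)))
      (by norm_num : (0:ℝ) < 1/2) (by norm_num)
    have hnj : j0 ≤ n := by
      by_contra hcon
      push Not at hcon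
      have : ((1:ℝ)/2) ^ j0 ≤ ((1:ℝ)/2) ^ (n + 1) :=
        pow_le_pow_of_le_one (by norm_num) (by norm_num) (by omega)
      linarith
    refine (hv n hnj hn2).trans ?_
    unfold gm
    rw [← hd, ← ENNReal.ofReal_mul (Cl_pos hl).le]
    exact ENNReal.ofReal_le_ofReal (av_ga hl (by omega) hn1 hn2)

/-- the mass distribution principle -/
theorem low_all {l : ℝ} (hl : 0 < l) {p : X} (hp : 0 < p.2)
    (h : ∀ᵐ t : unitInterval, ∀ᶠ j : ℕ in atTop, p.2 *
      (volume {u : unitInterval | dist (p.1 u) (p.1 t) ≤ ((1:ℝ)/2) ^ j}).toReal < 2 * av l j)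
    {s t : unitInterval} (hst : s ≤ t) :
    ENNReal.ofReal (1 / Cl l * p.2 * ((t : ℝ) - s)) ≤ Measure.mkMetric gm (p.1 '' Set.Icc s t) := by
  obtain ⟨G, hG⟩ : ∃ G : ℕ → Set unitInterval, G = fun j0 => {t | ∀ j : ℕ, j0 ≤ j → p.2 *
      (volume {u : unitInterval | dist (p.1 u) (p.1 t) ≤ ((1:ℝ)/2) ^ j}).toReal < 2 * av l j} :=
    ⟨_, rfl⟩
  have hmono : Monotone (fun j0 => G j0 ∩ Set.Icc s t) := by
    intro a b hab
    refine Set.inter_subset_inter_left _ ?_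
    intro u hu
    rw [hG] at hu ⊢
    exact fun j hj => hu j (hab.trans hj)
  have hC := Cl_pos hl
  have key : ∀ j0 : ℕ, ENNReal.ofReal p.2 * volume (G j0 ∩ Set.Icc s t) ≤
      ENNReal.ofReal (Cl l) * Measure.mkMetric gm (p.1 '' Set.Icc s t) := by
    intro j1
    obtain ⟨j0, hj0⟩ : ∃ j0, j0 = max j1 3 := ⟨_, rfl⟩
    have hj3 : 3 ≤ j0 := by omega
    have h1 : volume (G j1 ∩ Set.Icc s t) ≤ volume (G j0 ∩ Set.Icc s t) :=
      measure_mono (hmono (by omega : j1 ≤ j0))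
    refine (mul_le_mul_right h1 _).trans ?_
    rw [← ENNReal.inv_mul_le_iff (by rw [Ne, ENNReal.ofReal_eq_zero]; linarith)
      ENNReal.ofReal_ne_top, Measure.mkMetric_apply]
    refine le_trans ?_ (le_iSup₂ (ENNReal.ofReal (((1:ℝ)/2) ^ j0))
      (ENNReal.ofReal_pos.mpr (by positivity)))
    refine le_iInf fun E => le_iInf fun hE => le_iInf fun hdiam => ?_
    rw [ENNReal.inv_mul_le_iff (by rw [Ne, ENNReal.ofReal_eq_zero]; linarith)
      ENNReal.ofReal_ne_top, ← ENNReal.tsum_mul_left]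
    have hsub : G j0 ∩ Set.Icc s t ⊆ ⋃ n, (p.1 ⁻¹' E n ∩ G j0) := by
      rintro u ⟨hu1, hu2⟩
      have h2 := hE ⟨u, hu2, rfl⟩
      rw [Set.mem_iUnion] at h2
      obtain ⟨n, hn⟩ := h2
      rw [Set.mem_iUnion]
      exact ⟨n, hn, hu1⟩
    refine (mul_le_mul_right ((measure_mono hsub).trans (measure_iUnion_le _)) _).trans ?_
    rw [← ENNReal.tsum_mul_left]
    refine ENNReal.tsum_le_tsum fun n => ?_
    refine one_set hl hp hj3 (fun t ht => ?_) (hdiam n)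
    rw [hG] at ht
    exact ht
  have hU : volume (⋃ j0, (G j0 ∩ Set.Icc s t)) = ENNReal.ofReal ((t : ℝ) - s) := by
    rw [← unitInterval.volume_Icc]
    refine measure_congr ?_
    filter_upwards [h] with u hu
    rw [eventually_atTop] at hu
    obtain ⟨j0, hj0⟩ := hu
    have : u ∈ (⋃ j0, (G j0 ∩ Set.Icc s t)) ↔ u ∈ Set.Icc s t := by
      rw [Set.mem_iUnion]
      constructor
      · rintro ⟨_, h1⟩
        exact h1.2
      · intro h1
        refine ⟨j0, ?_, h1⟩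
        rw [hG]
        exact hj0
    exact propext this
  have h1 : ENNReal.ofReal p.2 * ENNReal.ofReal ((t : ℝ) - s) ≤
      ENNReal.ofReal (Cl l) * Measure.mkMetric gm (p.1 '' Set.Icc s t) := by
    rw [← hU, hmono.measure_iUnion, ENNReal.mul_iSup]
    exact iSup_le key
  rw [← ENNReal.inv_mul_le_iff (by rw [Ne, ENNReal.ofReal_eq_zero]; linarith)
      ENNReal.ofReal_ne_top] at h1
  refine le_trans (le_of_eq ?_) h1
  rw [← ENNReal.ofReal_mul hp.le, ← ENNReal.ofReal_inv_of_pos hC,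
    ← ENNReal.ofReal_mul (by positivity)]
  congr 1
  rw [one_div, mul_assoc]

end Pool.Agent.Y995.HG
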