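import Pool.Agent.Y995.HG.LowG

/-!
The time spent near typical points: bound for small meshes.
-/

set_option autoImplicit false
set_option linter.unusedVariables false

namespace Pool.Agent.Y995.HG

open H974 Finset H342P H984P H984N Pool.Agent.Y995.FS MeasureTheory Filter Topology

theorem go_mesh {R : Rect} {δ w a b K : ℝ} (hδ : 0 < δ) (hw : 0 < w) (ha : 0 < a) (hb : 0 < b)
    {m : ℕ} (hm : 2 * w / δ + 3/2 ≤ m) (hK : K * δ ^ (7/4 : ℝ) ≤ a) {F : Finset Edg}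
    (hbad : b < Go w a (R.curve δ F, R.time δ F)) :
    b ≤ δ ^ (7/4 : ℝ) * (Heavy (R.dm δ) F m K : ℝ) := by
  classical
  have hδ7 : 0 < δ ^ (7/4 : ℝ) := Real.rpow_pos_of_pos hδ _
  obtain ⟨n, hn⟩ : ∃ n, n = (R.dm δ).len F := ⟨_, rfl⟩
  obtain ⟨p, hp⟩ : ∃ p : ℕ → ℂ, p = fun k => pos δ ((R.dm δ).walk F k) := ⟨_, rfl⟩
  have hc : R.curve δ F = pl n p := by unfold Rect.curve; rw [hn, hp]
  have h10 : R.time δ F = δ ^ (7/4 : ℝ) * n := by unfold Rect.time; rw [hn]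
  rw [hc, h10] at hbad
  have hstep : ∀ k < n, dist (p k) (p (k + 1)) ≤ δ / 2 := fun k _ => by
    have := pos_nxt hδ.le ((R.dm δ).cfg F) ((R.dm δ).walk F k)
    rw [hp]
    rwa [← walk_succ] at this
  rcases Nat.eq_zero_or_pos n with h0 | hn0
  · rw [h0] at hbad
    unfold Go at hbad
    simp only [CharP.cast_eq_zero, mul_zero, zero_mul] at hbad
    linarith
  have hn' : (0 : ℝ) < n := by exact_mod_cast hn0
  have hT : 0 ≤ δ ^ (7/4 : ℝ) * n := by positivity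
  have h1 := hbad.le.trans (Go_le hw ha hn0 hstep hT)
  have e : ∀ x : ℝ, δ ^ (7/4 : ℝ) * n * (x / n) = δ ^ (7/4 : ℝ) * x := by
    intro x
    field_simp
  rw [e] at h1
  refine h1.trans (mul_le_mul_of_nonneg_left ?_ hδ7.le)
  unfold Heavy
  have hsub : (Finset.range n).filter (fun k => a ≤ δ ^ (7/4 : ℝ) * n *
      ((((Finset.range n).filter (fun i => dist (p i) (p k) ≤ 2 * w + 2 * (δ / 2))).card : ℝ) / n)) ⊆
      (Finset.range ((R.dm δ).len F + 1)).filter (fun t => K ≤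
        (((Finset.range ((R.dm δ).len F + 1)).filter (fun s =>
          ((sd ((R.dm δ).walk F s).1 ((R.dm δ).walk F t).1 : ℤ) : ℝ) ≤ m)).card : ℝ)) := by
    intro k hk
    rw [mem_filter, mem_range, e] at hk
    rw [mem_filter, mem_range, ← hn]
    refine ⟨by omega, ?_⟩
    have h2 : K * δ ^ (7/4 : ℝ) ≤
        (((Finset.range n).filter (fun i => dist (p i) (p k) ≤ 2 * w + 2 * (δ / 2))).card : ℝ) *
          δ ^ (7/4 : ℝ) := by
      rw [mul_comm _ (δ ^ (7/4 : ℝ))] 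
      rw [mul_comm _ (δ ^ (7/4 : ℝ))]
      rw [mul_comm _ (δ ^ (7/4 : ℝ))] at hK
      exact hK.trans hk.2
    refine (le_of_mul_le_mul_right h2 hδ7).trans ?_
    have h3 : (Finset.range n).filter (fun i => dist (p i) (p k) ≤ 2 * w + 2 * (δ / 2)) ⊆
        (Finset.range (n + 1)).filter (fun s =>
          ((sd ((R.dm δ).walk F s).1 ((R.dm δ).walk F k).1 : ℤ) : ℝ) ≤ m) := by
      intro i hi
      rw [mem_filter, mem_range] at hi ⊢
      refine ⟨by omega, ?_⟩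
      have h4 := le_dist_pos hδ.le ((R.dm δ).walk F i) ((R.dm δ).walk F k)
      have h5 : dist (pos δ ((R.dm δ).walk F i)) (pos δ ((R.dm δ).walk F k)) ≤
          2 * w + 2 * (δ / 2) := by
        have := hi.2
        rw [hp] at this
        exact this
      have h6 : ((sd ((R.dm δ).walk F i).1 ((R.dm δ).walk F k).1 : ℤ) : ℝ) - 1/2 ≤
          2 * w / δ + 1 := by
        have h7 : δ * (((sd ((R.dm δ).walk F i).1 ((R.dm δ).walk F k).1 : ℤ) : ℝ) - 1/2) ≤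
            δ * (2 * w / δ + 1) := by
          have e2 : δ * (2 * w / δ + 1) = 2 * w + 2 * (δ / 2) := by field_simp
          rw [e2]
          exact h4.trans h5
        exact le_of_mul_le_mul_left h7 hδ
      linarith
    exact_mod_cast card_le_card h3
  exact_mod_cast card_le_card hsub

theorem pr_le_ex {p : Edg → ℝ} (hp : Ok p) {S : Finset Edg} {A : Finset Edg → Prop}
    {g : Finset Edg → ℝ} {b : ℝ} (hb : 0 < b) (hg : ∀ F, 0 ≤ g F)
    (h : ∀ F ⊆ S, A F → b ≤ g F) : Pr p S A ≤ Ex p S g / b := by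
  rw [le_div_iff₀ hb, mul_comm]
  unfold Pr
  rw [← Ex_mul_left]
  refine Ex_mono hp fun F hF => ?_
  by_cases hA : A F
  · rw [ind_of hA, mul_one]
    exact h F hF hA
  · rw [ind_not_of hA, mul_zero]
    exact hg F

theorem occ_lat {C : ℝ} (hC : 0 < C) (hU : TwoUp C (1/4)) : ∃ l : ℝ, 0 < l ∧ ∀ R : Rect,
    ∃ A w0 : ℝ, 0 < A ∧ 0 < w0 ∧ ∀ w a b : ℝ, 0 < w → w ≤ w0 → 0 < a → 0 < b →
      ∃ δ1 : ℝ, 0 < δ1 ∧ ∀ δ : ℝ, 0 < δ → δ ≤ δ1 →
        R.prob δ (fun F => (R.curve δ F, R.time δ F) ∈ {p : X | b < Go w a p}) ≤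
          A / b * Real.exp (-(a / w ^ (7/4 : ℝ) / l) ^ 8) := by
  obtain ⟨l0, hl0, hh⟩ := heavy_exp hC hU
  refine ⟨3 ^ (7/4 : ℝ) * l0, by positivity, fun R => ?_⟩
  obtain ⟨κ, S, δs, hκ, hS, hδs, -, hsh⟩ := R.shape
  obtain ⟨C1, hC1, h1⟩ := hh κ hκ
  refine ⟨C1 * S ^ (7/4 : ℝ), S / 12, by positivity, by positivity, ?_⟩
  intro w a b hw hw0 ha hb
  refine ⟨min δs (w / 3), lt_min hδs (by positivity), fun δ hδ hδ' => ?_⟩
  have hd1 : δ ≤ δs := hδ'.trans (min_le_left _ _)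
  have hd2 : δ ≤ w / 3 := hδ'.trans (min_le_right _ _)
  obtain ⟨m, hm⟩ : ∃ m : ℕ, m = ⌈2 * w / δ⌉₊ + 2 := ⟨_, rfl⟩
  have hm1 : 2 * w / δ + 3/2 ≤ m := by
    rw [hm]; push_cast
    have := Nat.le_ceil (2 * w / δ)
    linarith
  have hm2 : (m : ℝ) ≤ 3 * w / δ := by
    have h2 : (⌈2 * w / δ⌉₊ : ℝ) < 2 * w / δ + 1 := Nat.ceil_lt_add_one (by positivity)
    have h3 : 3 ≤ w / δ := by rw [le_div_iff₀ hδ]; linarith
    have e1 : 2 * w / δ = 2 * (w / δ) := by ring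
    have e2 : 3 * w / δ = 3 * (w / δ) := by ring
    rw [hm]; push_cast
    rw [e1] at h2 ⊢
    rw [e2]
    linarith
  have hm3 : 1 ≤ m := by omega
  have hm0 : (0 : ℝ) < m := by exact_mod_cast hm3
  have hmn : 4 * (m : ℝ) ≤ S / δ := by
    have h2 : 4 * (3 * w / δ) ≤ S / δ := by
      rw [← mul_div_assoc]
      exact div_le_div_of_nonneg_right (by linarith) hδ.le
    linarith
  obtain ⟨u, hu⟩ : ∃ u : ℝ, u = a / (δ * m) ^ (7/4 : ℝ) := ⟨_, rfl⟩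
  have hdm : 0 < δ * m := by positivity
  have hu0 : 0 ≤ u := by rw [hu]; positivity
  have hK : u * (m : ℝ) ^ (7/4 : ℝ) * δ ^ (7/4 : ℝ) = a := by
    rw [hu, Real.mul_rpow hδ.le hm0.le]
    field_simp
  have h2 := h1 (R.dm δ) (S / δ) m u (hsh δ hδ hd1) hm3 hmn hu0
  have hδ7 : 0 < δ ^ (7/4 : ℝ) := Real.rpow_pos_of_pos hδ _
  have h3 : R.prob δ (fun F => (R.curve δ F, R.time δ F) ∈ {p : X | b < Go w a p}) ≤
      E (R.dm δ).edges (fun F => δ ^ (7/4 : ℝ) *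
        (Heavy (R.dm δ) F m (u * (m : ℝ) ^ (7/4 : ℝ)) : ℝ)) / b := by
    refine pr_le_ex two_ok hb (fun F => by positivity) fun F hF hA => ?_
    exact go_mesh hδ hw ha hb hm1 hK.le hA
  refine h3.trans ?_
  have h4 : E (R.dm δ).edges (fun F => δ ^ (7/4 : ℝ) *
        (Heavy (R.dm δ) F m (u * (m : ℝ) ^ (7/4 : ℝ)) : ℝ)) ≤
      C1 * S ^ (7/4 : ℝ) * Real.exp (-(u / l0) ^ 8) := by
    show Ex _ _ _ ≤ _
    rw [Ex_mul_left]
    refine (mul_le_mul_of_nonneg_left h2 hδ7.le).trans (le_of_eq ?_)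
    rw [Real.div_rpow hS.le hδ.le]
    field_simp
  have h5 : Real.exp (-(u / l0) ^ 8) ≤ Real.exp (-(a / w ^ (7/4 : ℝ) / (3 ^ (7/4 : ℝ) * l0)) ^ 8) := by
    refine Real.exp_le_exp.mpr (neg_le_neg ?_)
    refine pow_le_pow_left₀ (by positivity) ?_ 8
    rw [hu, div_div, div_div]
    refine div_le_div_of_nonneg_left ha.le (by positivity) ?_
    have h6 : (δ * m) ^ (7/4 : ℝ) ≤ (3 * w) ^ (7/4 : ℝ) := by
      refine Real.rpow_le_rpow hdm.le ?_ (by norm_num)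
      calc δ * m ≤ δ * (3 * w / δ) := mul_le_mul_of_nonneg_left hm2 hδ.le
        _ = 3 * w := by field_simp
    rw [Real.mul_rpow (by norm_num) hw.le] at h6
    calc (δ * m) ^ (7/4 : ℝ) * l0 ≤ (3 ^ (7/4 : ℝ) * w ^ (7/4 : ℝ)) * l0 :=
          mul_le_mul_of_nonneg_right h6 hl0.le
      _ = w ^ (7/4 : ℝ) * (3 ^ (7/4 : ℝ) * l0) := by ring
  calc E (R.dm δ).edges (fun F => δ ^ (7/4 : ℝ) *
        (Heavy (R.dm δ) F m (u * (m : ℝ) ^ (7/4 : ℝ)) : ℝ)) / b ≤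
      C1 * S ^ (7/4 : ℝ) * Real.exp (-(u / l0) ^ 8) / b := div_le_div_of_nonneg_right h4 hb.le
    _ ≤ C1 * S ^ (7/4 : ℝ) *
        Real.exp (-(a / w ^ (7/4 : ℝ) / (3 ^ (7/4 : ℝ) * l0)) ^ 8) / b :=
        div_le_div_of_nonneg_right (mul_le_mul_of_nonneg_left h5 (by positivity)) hb.le
    _ = _ := by ring

end Pool.Agent.Y995.HG
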