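import Pool.Agent.Y995.HG.Up

/-!
Upper bound for the gauge measure of all arcs.
-/

set_option autoImplicit false
set_option linter.unusedVariables false

namespace Pool.Agent.Y995.HG

open H974 Finset H342P H984P H984N Pool.Agent.Y995.FS MeasureTheory Filter Topology
open scoped ENNReal NNReal

theorem mk_le {E : Set ℂ} {B : ℝ≥0∞} (h : ∀ ε : ℝ≥0∞, 0 < ε →
    OuterMeasure.mkMetric'.pre (fun s : Set ℂ => gm (Metric.ediam s)) ε E ≤ B) :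
    Measure.mkMetric gm E ≤ B := by
  rw [← OuterMeasure.coe_mkMetric]
  unfold OuterMeasure.mkMetric OuterMeasure.mkMetric'
  rw [OuterMeasure.iSup_apply]
  refine iSup_le fun ε => ?_
  rw [OuterMeasure.iSup_apply]
  exact iSup_le fun hε => h ε hε

theorem ga_le_rpow {x : ℝ} (hx : 0 ≤ x) (h : x ≤ Real.exp (-32)) : ga x ≤ x ^ (3/2 : ℝ) := by
  rcases hx.eq_or_lt with h0 | h0
  · rw [← h0, ga_zero]
    exact Real.rpow_nonneg le_rfl _
  have he : Real.exp 1 ≤ 32 := by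
    have := Real.exp_one_lt_d9
    linarith
  obtain ⟨a1, a2⟩ := ll_ge h0 (h.trans (Real.exp_le_exp.mpr (by linarith)))
  obtain ⟨L, hL⟩ : ∃ L, L = Real.log (1 / x) := ⟨_, rfl⟩
  have hL32 : 32 ≤ L := by
    rw [hL, one_div, Real.log_inv, le_neg]
    have := Real.log_le_log h0 h
    rwa [Real.log_exp] at this
  have ex : x = Real.exp (-L) := by rw [hL, one_div, Real.log_inv, neg_neg, Real.exp_log h0]
  rw [← hL] at a1 a2
  have h1 : Real.log L ^ (1/8 : ℝ) ≤ L := by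
    have h2 : Real.log L ^ (1/8 : ℝ) ≤ Real.log L ^ (1 : ℝ) :=
      Real.rpow_le_rpow_of_exponent_le a2 (by norm_num)
    rw [Real.rpow_one] at h2
    have h3 : Real.log L ≤ L - 1 := Real.log_le_sub_one_of_pos (by linarith)
    linarith
  have h2 : L ≤ Real.exp (L / 4) := by
    have := Real.quadratic_le_exp_of_nonneg (show 0 ≤ L / 4 by positivity)
    nlinarith
  unfold ga
  rw [← hL, ex, ← Real.exp_mul, ← Real.exp_mul]
  calc Real.exp (-L * (7/4)) * Real.log L ^ (1/8 : ℝ)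
      ≤ Real.exp (-L * (7/4)) * Real.exp (L / 4) :=
        mul_le_mul_of_nonneg_left (h1.trans h2) (Real.exp_nonneg _)
    _ = Real.exp (-L * (3/2)) := by rw [← Real.exp_add]; congr 1; ring

theorem mk_bdry (R : Rect) : Measure.mkMetric gm (closure R.D ∩ {z | dep R z ≤ 0}) = 0 := by
  have h1 : (Measure.mkMetric gm : Measure ℂ) ≤ μH[((3/2 : ℝ≥0) : ℝ)] := by
    refine Measure.mkMetric_mono ?_
    have h2 : ∀ᶠ r : ℝ≥0∞ in 𝓝 0, r ≤ ENNReal.ofReal (Real.exp (-32)) :=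
      ge_mem_nhds (ENNReal.ofReal_pos.mpr (Real.exp_pos _))
    filter_upwards [h2] with r hr
    have hrt : r ≠ ∞ := ne_top_of_le_ne_top ENNReal.ofReal_ne_top hr
    have h3 : r.toReal ≤ Real.exp (-32) := by
      have := ENNReal.toReal_mono ENNReal.ofReal_ne_top hr
      rwa [ENNReal.toReal_ofReal (Real.exp_nonneg _)] at this
    unfold gm
    refine (ENNReal.ofReal_le_ofReal (ga_le_rpow ENNReal.toReal_nonneg h3)).trans (le_of_eq ?_)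
    rw [← ENNReal.ofReal_rpow_of_nonneg ENNReal.toReal_nonneg (by norm_num),
      ENNReal.ofReal_toReal hrt]
    norm_num
  have h2 : μH[((3/2 : ℝ≥0) : ℝ)] (closure R.D ∩ {z | dep R z ≤ 0}) = 0 := by
    refine hausdorffMeasure_of_dimH_lt (lt_of_le_of_lt (dimH_bdry R) ?_)
    have : (1 : ℝ≥0) < 3/2 := by
      rw [← NNReal.coe_lt_coe]
      push_cast
      norm_num
    exact_mod_cast this
  exact le_antisymm ((h1 _).trans h2.le) bot_le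

theorem Dy_all (n : ℕ) (u : unitInterval) : ∃ k < 2 ^ n, u ∈ Dy n k := by
  have h0 : u ∈ Dy 0 0 := by
    constructor
    · simpa using u.2.1
    · simpa using u.2.2
  obtain ⟨j, hj, h1⟩ := Dy_cover 0 n 0 h0
  refine ⟨j, hj, ?_⟩
  simpa using h1

theorem up_bulk {κ K3 A0 : ℝ} (hκ : 0 < κ) (hK : 1 ≤ K3) (hA : 0 < A0) {R : Rect} {p : X}
    (hp : 0 < p.2) {Cm h0 : ℝ} (hCm : 0 < Cm) (hh0 : 0 < h0)
    (hmod : ∀ h : ℝ, 0 < h → h < h0 → ∀ s t : unitInterval, |(s : ℝ) - t| * p.2 ≤ h →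
      dist (p.1 s) (p.1 t) ≤ Cm * (h ^ (4/7 : ℝ) * Real.log (1 / h) ^ (3/7 : ℝ)))
    {ρ : ℝ} (hρ : 0 < ρ) (hbad : ∀ᶠ i in atTop, p ∉ BadI κ K3 A0 R ρ i) {s t : unitInterval}
    (hst : s ≤ t) :
    Measure.mkMetric gm (p.1 '' {u | (s ≤ u ∧ u ≤ t) ∧ 2 * ρ ≤ dep R (p.1 u)}) ≤
        ENNReal.ofReal ((6 ^ (7/4 : ℝ) * (224 * K3) ^ (1/8 : ℝ) / κ) * p.2 * ((t : ℝ) - s)) := by
  classical
  refine mk_le fun ε hε => ?_
  obtain ⟨Cb, hCb⟩ : ∃ Cb : ℝ, Cb = 6 ^ (7/4 : ℝ) * (224 * K3) ^ (1/8 : ℝ) / κ := ⟨_, rfl⟩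
  have hCb0 : 0 < Cb := by rw [hCb]; positivity
  have hd := up_dyadic hκ hK hA hp hCm hh0 hmod hbad hε
  rw [← hCb] at hd ⊢
  obtain ⟨ν, hν⟩ : ∃ ν : OuterMeasure ℂ,
    ν = OuterMeasure.mkMetric'.pre (fun s : Set ℂ => gm (Metric.ediam s)) ε := ⟨_, rfl⟩
  rw [← hν] at hd ⊢
  obtain ⟨O, hO⟩ : ∃ O : Set unitInterval,
    O = {u | (s ≤ u ∧ u ≤ t) ∧ 2 * ρ ≤ dep R (p.1 u)} := ⟨_, rfl⟩
  rw [← hO]
  have hst' : (s : ℝ) ≤ t := hst
  -- uniform continuity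
  have huc := (CompactSpace.uniformContinuous_of_continuous p.1.continuous)
  rw [Metric.uniformContinuous_iff] at huc
  obtain ⟨η, hη, hη2⟩ := huc ρ hρ
  have hlt : Tendsto (fun i : ℕ => ((1:ℝ)/2) ^ lv i) atTop (𝓝 0) := by
    have := h_tend 1
    simpa using this
  have hev : ∀ᶠ i : ℕ in atTop, ν (p.1 '' O) ≤
      ENNReal.ofReal (Cb * p.2 * (((t : ℝ) - s) + 2 * (1/2) ^ lv i)) := by
    filter_upwards [hd, hlt.eventually (gt_mem_nhds hη)] with i h1 h2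
    obtain ⟨n, hn⟩ : ∃ n, n = lv i := ⟨_, rfl⟩
    rw [← hn] at h1 h2 ⊢
    obtain ⟨FF, hFF⟩ : ∃ FF : Finset ℕ, FF = (Finset.range (2 ^ n)).filter
      (fun k => ∃ u ∈ Dy n k, u ∈ O) := ⟨_, rfl⟩
    have hmem : ∀ k, k ∈ FF ↔ k < 2 ^ n ∧ ∃ u ∈ Dy n k, u ∈ O := by
      intro k
      rw [hFF]
      simp only [Finset.mem_filter, Finset.mem_range]
    have hcov : p.1 '' O ⊆ ⋃ k ∈ FF, p.1 '' Dy n k := by
      rintro _ ⟨u, hu, rfl⟩
      obtain ⟨k, hk, hk2⟩ := Dy_all n u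
      rw [Set.mem_iUnion₂]
      exact ⟨k, (hmem k).2 ⟨hk, u, hk2, hu⟩, u, hk2, rfl⟩
    have hone : ∀ k ∈ FF, ν (p.1 '' Dy n k) ≤ ENNReal.ofReal (Cb * p.2 * (1/2) ^ n) := by
      intro k hk
      obtain ⟨hk1, u, hu, hu2⟩ := (hmem k).1 hk
      refine h1 k hk1 fun v hv => ?_
      rw [hO] at hu2
      have h3 := dep_lip R (p.1 u) (p.1 v)
      have h4 : dist u v < η := by
        rw [Subtype.dist_eq, Real.dist_eq]
        exact lt_of_le_of_lt (Dy_dist hu hv) h2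
      have h5 := hη2 h4
      have h6 := hu2.2
      linarith
    have hcard : (FF.card : ℝ) ≤ ((t : ℝ) - s) * 2 ^ n + 2 := by
      have hs0 : 0 ≤ (s : ℝ) := s.2.1
      have ht0 : 0 ≤ (t : ℝ) := t.2.1
      have hsub : FF ⊆ Finset.Icc (⌈(s : ℝ) * 2 ^ n⌉₊ - 1) ⌊(t : ℝ) * 2 ^ n⌋₊ := by
        intro k hk
        obtain ⟨hk1, u, ⟨hu1, hu1'⟩, hu2⟩ := (hmem k).1 hk
        rw [hO] at hu2
        obtain ⟨⟨a1, a2⟩, -⟩ := hu2
        have a1' : (s : ℝ) ≤ u := a1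
        have a2' : (u : ℝ) ≤ t := a2
        rw [Finset.mem_Icc]
        constructor
        · have h3 : (s : ℝ) * 2 ^ n ≤ ((k + 1 : ℕ) : ℝ) := by
            push_cast
            have := mul_le_mul_of_nonneg_right a1' (show (0:ℝ) ≤ 2 ^ n by positivity)
            linarith
          have h4 := Nat.ceil_le.mpr h3
          omega
        · refine Nat.le_floor ?_
          have := mul_le_mul_of_nonneg_right a2' (show (0:ℝ) ≤ 2 ^ n by positivity)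
          linarith
      have h3 := Finset.card_le_card hsub
      rw [Nat.card_Icc] at h3
      have h4 : ((⌊(t : ℝ) * 2 ^ n⌋₊ : ℕ) : ℝ) ≤ t * 2 ^ n := Nat.floor_le (by positivity)
      have h5 : (s : ℝ) * 2 ^ n ≤ ((⌈(s : ℝ) * 2 ^ n⌉₊ : ℕ) : ℝ) := Nat.le_ceil _
      have h6 : FF.card + ⌈(s : ℝ) * 2 ^ n⌉₊ ≤ ⌊(t : ℝ) * 2 ^ n⌋₊ + 2 ∨ FF.card = 0 := by omega
      rcases h6 with h6 | h6
      · have h7 : (FF.card : ℝ) + ((⌈(s : ℝ) * 2 ^ n⌉₊ : ℕ) : ℝ) ≤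
            ((⌊(t : ℝ) * 2 ^ n⌋₊ : ℕ) : ℝ) + 2 := by exact_mod_cast h6
        linarith
      · rw [h6]
        have : 0 ≤ ((t : ℝ) - s) * 2 ^ n := mul_nonneg (by linarith) (by positivity)
        simp only [CharP.cast_eq_zero]
        linarith
    refine (measure_mono hcov).trans ((measure_biUnion_finset_le _ _).trans ?_)
    refine (Finset.sum_le_sum hone).trans ?_
    rw [Finset.sum_const, nsmul_eq_mul, ← ENNReal.ofReal_natCast,
      ← ENNReal.ofReal_mul (Nat.cast_nonneg _)]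
    refine ENNReal.ofReal_le_ofReal ?_
    have e : ((2:ℝ) ^ n) * (1/2) ^ n = 1 := by rw [← mul_pow]; norm_num
    have h7 : (FF.card : ℝ) * (1/2) ^ n ≤ (((t : ℝ) - s) * 2 ^ n + 2) * (1/2) ^ n :=
      mul_le_mul_of_nonneg_right hcard (by positivity)
    calc (FF.card : ℝ) * (Cb * p.2 * (1/2) ^ n) = Cb * p.2 * ((FF.card : ℝ) * (1/2) ^ n) := by ring
      _ ≤ Cb * p.2 * ((((t : ℝ) - s) * 2 ^ n + 2) * (1/2) ^ n) :=
          mul_le_mul_of_nonneg_left h7 (by positivity)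
      _ = Cb * p.2 * (((t : ℝ) - s) * ((2:ℝ) ^ n * (1/2) ^ n) + 2 * (1/2) ^ n) := by ring
      _ = _ := by rw [e, mul_one]
  have hl : Tendsto (fun i : ℕ => ENNReal.ofReal (Cb * p.2 * (((t : ℝ) - s) + 2 * (1/2) ^ lv i)))
      atTop (𝓝 (ENNReal.ofReal (Cb * p.2 * (((t : ℝ) - s) + 2 * 0)))) :=
    ENNReal.tendsto_ofReal (((hlt.const_mul 2).const_add _).const_mul _)
  rw [mul_zero, add_zero] at hl
  exact ge_of_tendsto hl hev

theorem up_all {κ K3 A0 : ℝ} (hκ : 0 < κ) (hK : 1 ≤ K3) (hA : 0 < A0) {R : Rect} {p : X}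
    (hp : 0 < p.2) {Cm h0 : ℝ} (hCm : 0 < Cm) (hh0 : 0 < h0)
    (hmod : ∀ h : ℝ, 0 < h → h < h0 → ∀ s t : unitInterval, |(s : ℝ) - t| * p.2 ≤ h →
      dist (p.1 s) (p.1 t) ≤ Cm * (h ^ (4/7 : ℝ) * Real.log (1 / h) ^ (3/7 : ℝ)))
    (hbad : ∀ n : ℕ, ∀ᶠ i in atTop, p ∉ BadI κ K3 A0 R (1 / ((n : ℝ) + 1)) i)
    (hcl : ∀ s : unitInterval, p.1 s ∈ closure R.D) {s t : unitInterval} (hst : s ≤ t) :
    Measure.mkMetric gm (p.1 '' Set.Icc s t) ≤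
        ENNReal.ofReal ((6 ^ (7/4 : ℝ) * (224 * K3) ^ (1/8 : ℝ) / κ) * p.2 * ((t : ℝ) - s)) := by
  obtain ⟨O, hO⟩ : ∃ O : ℕ → Set ℂ, O = fun n : ℕ =>
    p.1 '' {u | (s ≤ u ∧ u ≤ t) ∧ 2 * (1 / ((n : ℝ) + 1)) ≤ dep R (p.1 u)} := ⟨_, rfl⟩
  have hmono : Monotone O := by
    intro m n hmn
    rw [hO]
    rintro _ ⟨u, ⟨hu1, hu2⟩, rfl⟩
    refine ⟨u, ⟨hu1, le_trans ?_ hu2⟩, rfl⟩
    have h1 : (m : ℝ) ≤ n := by exact_mod_cast hmn
    have h2 : 1 / ((n : ℝ) + 1) ≤ 1 / ((m : ℝ) + 1) :=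
      one_div_le_one_div_of_le (by positivity) (by linarith)
    linarith
  have hsub : p.1 '' Set.Icc s t ⊆ (closure R.D ∩ {z | dep R z ≤ 0}) ∪ ⋃ n, O n := by
    rintro _ ⟨u, hu, rfl⟩
    by_cases h : dep R (p.1 u) ≤ 0
    · left
      exact ⟨hcl u, h⟩
    · right
      push Not at h
      obtain ⟨n, hn⟩ := exists_nat_one_div_lt (show 0 < dep R (p.1 u) / 2 by linarith)
      rw [Set.mem_iUnion, hO]
      exact ⟨n, u, ⟨⟨hu.1, hu.2⟩, by linarith⟩, rfl⟩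
  refine (measure_mono hsub).trans ((measure_union_le _ _).trans ?_)
  rw [mk_bdry, zero_add, hmono.measure_iUnion]
  refine iSup_le fun n => ?_
  rw [hO]
  exact up_bulk hκ hK hA hp hCm hh0 hmod (by positivity) (hbad n) hst

end Pool.Agent.Y995.HG
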